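import Mathlib
import Pool.Agent.Lib.MP_b573ec_lc_ST.Model

/-!
# The language
-/

set_option autoImplicit false

namespace Pool.Agent.SW

open Pool.Agent.LT (Inp)
open Pool.Agent.ST (getBit)

/-- the number of ones among the `m` bits from position `a` on -/
def onesIn {n : ℕ} (x : Inp n) (a m : ℕ) : ℕ := ∑ i ∈ Finset.range m, (getBit x (a + i)).toNat

/-- Columns: let `p` be the number of ones among the first `⌊log2 n⌋` bits of the input and `g` the
number of ones among the next `⌊log2 n⌋` bits; `M = 2 ^ g` blocks of the same length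
`N = ⌊(n - 2 * ⌊log2 n⌋) / M⌋` follow, and the input belongs to the language if for some `t < N` the
number of blocks with a one at the place `t` is divisible by `p + 1`. -/
def langW (n : ℕ) (x : Inp n) : Bool :=
  decide (∃ t < (n - 2 * Nat.log 2 n) / 2 ^ onesIn x (Nat.log 2 n) (Nat.log 2 n),
    onesIn x 0 (Nat.log 2 n) + 1 ∣
      ∑ j ∈ Finset.range (2 ^ onesIn x (Nat.log 2 n) (Nat.log 2 n)),
        (getBit x (2 * Nat.log 2 n +
          j * ((n - 2 * Nat.log 2 n) / 2 ^ onesIn x (Nat.log 2 n) (Nat.log 2 n)) + t)).toNat)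

end Pool.Agent.SW
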