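import Mathlib
import Pool.Agent.Lib.MP_b573ec_lc_HM.Core
import Pool.Agent.Lib.MP_b573ec_lc_HM.Cuts
import Pool.Agent.Lib.MP_69a69c_lc_SW.Lang

/-!
# Definitions: columns, blocks of a subset
-/

set_option autoImplicit false

namespace Pool.Agent.SW

open Pool.Agent.LT (Inp)
open Pool.Agent.ST (Rel Pop Nd Cs Sk Dv)
open Pool.Agent.HM (InI Walk crs)

/-! ## Matrices: `X t i` is the bit at the place `t` of the block `i` -/

/-- the number of ones of a column -/
def cnt {M : ℕ} (c : Fin M → Bool) : ℕ := (Finset.univ.filter fun i => c i = true).card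

/-- no column whose number of ones is divisible by `q` -/
def NoC (q : ℕ) {N M : ℕ} (X : Fin N → Fin M → Bool) : Prop := ∀ t, ¬ q ∣ cnt (X t)

open Classical in
/-- the columns whose number of ones is not divisible by `q` -/
noncomputable def NzP (q M : ℕ) : Finset (Fin M → Bool) := Finset.univ.filter fun c => ¬ q ∣ cnt c

/-- `P + 1` players are given the blocks `e k`; a column is relevant if the number of its ones
outside these blocks is `1` modulo `P + 2` -/
def Rlv {P M : ℕ} (e : Fin (P + 1) ↪ Fin M) (c : Fin M → Bool) : Prop :=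
  (Finset.univ.filter fun i => (∀ k, e k ≠ i) ∧ c i = true).card % (P + 2) = 1

open Classical in
/-- the relevant columns with ones for all players except the last one -/
noncomputable def OneP {P M : ℕ} (e : Fin (P + 1) ↪ Fin M) : Finset (Fin M → Bool) :=
  Finset.univ.filter fun c => Rlv e c ∧ (∀ k : Fin P, c (e k.castSucc) = true) ∧
    c (e (Fin.last P)) = false

open Classical in
/-- the relevant columns with a zero for a player other than the last one -/
noncomputable def OtP {P M : ℕ} (e : Fin (P + 1) ↪ Fin M) : Finset (Fin M → Bool) :=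
  Finset.univ.filter fun c => Rlv e c ∧ ¬ ∀ k : Fin P, c (e k.castSucc) = true

open Classical in
/-- the families of `m` groups of `B` places of `R` each of which has exactly one place in `C` -/
noncomputable def Gam (m B : ℕ) {N : ℕ} (R C : Finset (Fin N)) :
    Finset (Fin N → Option (Fin m)) :=
  Finset.univ.filter fun γ => ∀ j, (Finset.univ.filter fun t => γ t = some j).card = B ∧
    (∀ t, γ t = some j → t ∈ R) ∧ (C.filter fun t => γ t = some j).card = 1

/-! ## Inputs with given matrices -/

/-- the input with `p` ones and zeros, `g` ones and zeros, and the matrix `X` -/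
def encW (n p g : ℕ) {N M : ℕ} (X : Fin N → Fin M → Bool) : Inp n := fun e =>
  if (e : ℕ) < Nat.log 2 n then decide ((e : ℕ) < p)
  else if (e : ℕ) < 2 * Nat.log 2 n then decide ((e : ℕ) < Nat.log 2 n + g)
  else if h : ((e : ℕ) - 2 * Nat.log 2 n) % N < N ∧ ((e : ℕ) - 2 * Nat.log 2 n) / N < M then
    X ⟨((e : ℕ) - 2 * Nat.log 2 n) % N, h.1⟩ ⟨((e : ℕ) - 2 * Nat.log 2 n) / N, h.2⟩
  else false

/-! ## Stars -/

/-- `A` is closed under stars of the blocks `e 0, ..., e (p - 1)` (blocks of length `b` after the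
first `L` cells) without their margins of length `c` -/
def StarE {n M p : ℕ} (L b c : ℕ) (e : Fin p ↪ Fin M) (A : Inp n → Prop) : Prop :=
  ∀ (u : Inp n) (v : Fin p → Inp n),
    (∀ (j : Fin p) (i : Fin n), ¬ InI L b c (e j) i → v j i = u i) → (∀ j, A (v j)) → A u

/-- some head is in the block `i` -/
def Vis {n k : ℕ} (L b c i : ℕ) (h : Fin k → Fin n) : Prop := ∃ r, InI L b c i (h r)

/-- all blocks `e j` are visited at one of the times `t`, `t'` -/
def Cvd {n k M p : ℕ} (T L b c : ℕ) (π : ℕ → Fin k → Fin n) (e : Fin p ↪ Fin M) (t t' : ℕ) :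
    Prop :=
  t < T ∧ t' < T ∧ ∀ j, Vis L b c (e j) (π t) ∨ Vis L b c (e j) (π t')

/-- all nodes of a skeleton have the property `Q` -/
def SkAll {w : ℕ} (Q : ℕ → ℕ → Prop) : Sk w → Prop
  | .int => True
  | .nxt ν _ s => Q ν.t ν.e ∧ SkAll Q s
  | .br ν _ _ _ _ s s' => Q ν.t ν.e ∧ SkAll Q s ∧ SkAll Q s'

end Pool.Agent.SW
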