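import Mathlib
import Pool.Agent.Lib.MP_69a69c_lc_SW.Defs
import Pool.Agent.Lib.MP_b573ec_lc_ST.Skel
import Pool.Agent.Lib.MP_b573ec_lc_ST.Mixing
import Pool.Agent.Lib.MP_69a69c_lc_SH.StarR

/-!
# Skeletons with conditions for their nodes
-/

set_option autoImplicit false

namespace Pool.Agent.SW

open Pool.Agent.ST (Rel Pop Nd Cs Sk Dv)

/-- the nodes of the skeleton are nodes of the derivation -/
theorem exists_dvE {w : ℕ} {Δ : Rel w} {T : ℕ} {ph : ℕ → ℕ} {z : ℕ → Bool} (hph : Monotone ph)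
    (Q : ℕ → ℕ → Prop) {t e : ℕ} {q r : Fin w} {g : Option (Fin w)} {l : List (ℕ × ℕ)}
    (h : Pop Δ T z t q g e r l) (hl : ∀ x ∈ l, Q x.1 x.2) :
    ∃ s, Dv Δ T ph z ⟨t, q, g, e, r⟩ s ∧ SkAll Q s := by
  induction h with
  | fin q g => exact ⟨.int, Dv.int _ _ _ _ _ _ rfl (Pop.fin q g), trivial⟩
  | pop t q a q' h1 h2 => exact ⟨.int, Dv.int _ _ _ _ _ _ rfl (Pop.pop t q a q' h1 h2), trivial⟩
  | bot t q q1 t' q' l h1 h2 h3 ih =>
    by_cases he : ph t = ph t'
    · exact ⟨.int, Dv.int _ _ _ _ _ _ he (Pop.bot _ _ _ _ _ _ h1 h2 h3), trivial⟩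
    · have hlt : ph t < ph t' := lt_of_le_of_ne (hph h3.bounds.1) he
      obtain ⟨s, hs, hok⟩ := ih hl
      exact ⟨s, Pool.Agent.ST.T3_cons (Cs.bot t q q1 t' q' h1 h2) hlt hs, hok⟩
  | next t q g q1 t' q' l h1 h2 h3 ih =>
    by_cases he : ph t = ph t'
    · exact ⟨.int, Dv.int _ _ _ _ _ _ he (Pop.next _ _ _ _ _ _ _ h1 h2 h3), trivial⟩
    · have hb := h3.bounds.1
      have hlt : ph t < ph t' := lt_of_le_of_ne (hph (by omega)) he
      obtain ⟨s, hs, hok⟩ := ih (fun x hx => hl x (List.mem_cons_of_mem _ hx))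
      by_cases h1' : ph (t + 1) = ph t
      · exact ⟨s, Pool.Agent.ST.T3_cons (Cs.next t q g q1 t' q' h1 h2 h1') hlt hs, hok⟩
      · have hlt' : ph t < ph (t + 1) := lt_of_le_of_ne (hph (Nat.le_succ t)) (Ne.symm h1')
        exact ⟨.nxt ⟨t, q, g, t', q'⟩ q1 s,
          Dv.nxt _ t q g q1 t' q' s hlt Relation.ReflTransGen.refl h1 h2 hlt' (hph hb) hs,
          hl (t, t') List.mem_cons_self, hok⟩
  | push t q g q1 a t1 q2 t' q' l1 l2 h1 h2 h3 h4 ih1 ih2 =>
    by_cases he : ph t = ph t'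
    · exact ⟨.int, Dv.int _ _ _ _ _ _ he (Pop.push _ _ _ _ _ _ _ _ _ _ _ h1 h2 h3 h4), trivial⟩
    · have hb1 := h3.bounds.1
      have hb2 := h4.bounds.1
      have hlt : ph t < ph t' := lt_of_le_of_ne (hph (by omega)) he
      by_cases hl1 : ph t1 = ph t
      · obtain ⟨s, hs, hok⟩ := ih2 (fun x hx => hl x (List.mem_cons_of_mem _
          (List.mem_append_right _ hx)))
        exact ⟨s, Pool.Agent.ST.T3_cons (Cs.left t q g q1 a t1 q2 t' q' l1 h1 h2 h3 hl1) hlt hs,
          hok⟩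
      · by_cases hl2 : ph t1 = ph t'
        · obtain ⟨s, hs, hok⟩ := ih1 (fun x hx => hl x (List.mem_cons_of_mem _
            (List.mem_append_left _ hx)))
          exact ⟨s, Pool.Agent.ST.T3_cons (Cs.right t q g q1 a t1 q2 t' q' l2 h1 h2 h4 hl2) hlt hs,
            hok⟩
        · obtain ⟨s1, hs1, hok1⟩ := ih1 (fun x hx => hl x (List.mem_cons_of_mem _
            (List.mem_append_left _ hx)))
          obtain ⟨s2, hs2, hok2⟩ := ih2 (fun x hx => hl x (List.mem_cons_of_mem _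
            (List.mem_append_right _ hx)))
          exact ⟨.br ⟨t, q, g, t', q'⟩ q1 a t1 q2 s1 s2,
            Dv.br _ t q g q1 a t1 q2 t' q' s1 s2 hlt Relation.ReflTransGen.refl h1 h2
              (lt_of_le_of_ne (hph hb1) (Ne.symm hl1)) (lt_of_le_of_ne (hph hb2) hl2) hs1 hs2,
            hl (t, t') List.mem_cons_self, hok1, hok2⟩

/-- If several transition relations have the same skeleton from a node, then a transition relation
which contains one of them at the times of any phase and one of them at the times of the two phases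
of each node of the skeleton has this skeleton, too. -/
theorem dv_starE {w T : ℕ} {ph : ℕ → ℕ} (hph : Monotone ph) {ι : Type*} (Δs : ι → Rel w)
    {Δ : Rel w} {z : ℕ → Bool}
    (hz : ∀ P : ℕ, ∃ i, ∀ s < T, ph s = P → ∀ q g mv, Δs i s q g (z s) mv → Δ s q g (z s) mv)
    (s : Sk w) :
    ∀ ν : Nd w, SkAll (fun t e => ∃ i, ∀ s < T, (ph s = ph t ∨ ph s = ph e) →
      ∀ q g mv, Δs i s q g (z s) mv → Δ s q g (z s) mv) s →
      (∀ i, Dv (Δs i) T ph z ν s) → Dv Δ T ph z ν s := by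
  induction s with
  | int =>
    intro ν _ h
    obtain ⟨i, hi⟩ := hz (ph ν.t)
    have h1 := h i
    cases h1 with
    | int t q g e r l hp hpop =>
      refine Dv.int t q g e r l hp
        (Pool.Agent.SH.StarR_pop (fun s h1 h2 h3 => hi s h3 ?_) hpop)
      have h4 := hph h1
      have h5 := hph h2
      show ph s = ph t
      omega
  | nxt ν0 q0 s ih =>
    intro ν hall h
    obtain ⟨⟨i, hi⟩, hall'⟩ := hall
    have h1 := h i
    cases h1 with
    | nxt _ t q g q1 e r s hlt hch ht hm hp1 hp2 hd =>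
      have hinv := Pool.Agent.ST.T5_chain_ph hch
      refine Dv.nxt ν t q g q0 e r s hlt (Pool.Agent.SH.StarR_chain hph ?_ hch) ht
        (hi t ht (Or.inl rfl) _ _ _ hm) hp1 hp2 (ih _ hall' ?_)
      · intro s' hs' h2
        rw [← hinv.1, ← hinv.2] at h2
        exact hi s' hs' h2
      · intro j
        have h2 := h j
        cases h2 with
        | nxt _ _ _ _ _ _ _ _ _ _ _ _ _ _ hd' => exact hd'
  | br ν0 q0 a0 t0 q0' s s' ih ih' =>
    intro ν hall h
    obtain ⟨⟨i, hi⟩, hall1, hall2⟩ := hall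
    have h1 := h i
    cases h1 with
    | br _ t q g q1 a t1 q2 e r s s' hlt hch ht hm hp1 hp2 hd hd2 =>
      have hinv := Pool.Agent.ST.T5_chain_ph hch
      refine Dv.br ν t q g q0 a0 t0 q0' e r s s' hlt (Pool.Agent.SH.StarR_chain hph ?_ hch) ht
        (hi t ht (Or.inl rfl) _ _ _ hm) hp1 hp2 (ih _ hall1 ?_) (ih' _ hall2 ?_)
      · intro s'' hs'' h2
        rw [← hinv.1, ← hinv.2] at h2
        exact hi s'' hs'' h2
      · intro j
        have h2 := h j
        cases h2 with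
        | br _ _ _ _ _ _ _ _ _ _ _ _ _ _ _ _ _ _ hd' hd2' => exact hd'
      · intro j
        have h2 := h j
        cases h2 with
        | br _ _ _ _ _ _ _ _ _ _ _ _ _ _ _ _ _ _ hd' hd2' => exact hd2'

end Pool.Agent.SW
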