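import Mathlib
import Pool.Agent.Lib.MP_69a69c_lc_SW.Defs

/-!
# A family of blocks with few crossings outside a small set of families
-/

set_option autoImplicit false

namespace Pool.Agent.SW

private theorem sum_emb {M p : ℕ} [NeZero M] (f : Fin M → ℕ) (j : Fin p) :
    M * ∑ e : Fin p ↪ Fin M, f (e j) = M.descFactorial p * ∑ i, f i := by
  have h1 : ∀ a : Fin M, ∑ e : Fin p ↪ Fin M, f (e j + a) = ∑ e : Fin p ↪ Fin M, f (e j) := by
    intro a
    exact Equiv.sum_comp (Equiv.embeddingCongr (Equiv.refl (Fin p)) (Equiv.addRight a))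
      (fun e : Fin p ↪ Fin M => f (e j))
  have h2 : ∀ e : Fin p ↪ Fin M, ∑ a : Fin M, f (e j + a) = ∑ i, f i := by
    intro e
    exact Equiv.sum_comp (Equiv.addLeft (e j)) f
  have h3 : ∑ a : Fin M, ∑ e : Fin p ↪ Fin M, f (e j + a)
      = M * ∑ e : Fin p ↪ Fin M, f (e j) := by
    rw [Finset.sum_congr rfl (fun a _ => h1 a)]
    simp
  have h4 : ∑ e : Fin p ↪ Fin M, ∑ a : Fin M, f (e j + a)
      = M.descFactorial p * ∑ i, f i := by
    rw [Finset.sum_congr rfl (fun e _ => h2 e)]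
    simp [Fintype.card_embedding_eq]
  rw [← h3, ← h4, Finset.sum_comm]

theorem exists_emb {M p κ0 κ : ℕ} (hp : p ≤ M) (hM : 1 ≤ M) (f : Fin M → ℕ)
    (hf : ∑ i, f i ≤ κ0) (hκ : 2 * p * κ0 ≤ κ * M) (Bd : Set (Fin p ↪ Fin M))
    (hB : 2 * Bd.ncard ≤ M.descFactorial p) : ∃ e : Fin p ↪ Fin M, e ∉ Bd ∧ ∑ j, f (e j) ≤ κ := by
  classical
  haveI : NeZero M := ⟨by omega⟩
  by_contra hcon
  push Not at hcon
  have hD : 0 < M.descFactorial p := Nat.pos_of_ne_zero (by
    rw [Ne, Nat.descFactorial_eq_zero_iff_lt]; omega)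
  set A : Finset (Fin p ↪ Fin M) := Finset.univ.filter (fun e => κ < ∑ j, f (e j)) with hA
  have hcard : M.descFactorial p ≤ A.card + Bd.ncard := by
    have h1 : (Finset.univ : Finset (Fin p ↪ Fin M)).card = M.descFactorial p := by
      rw [Finset.card_univ, Fintype.card_embedding_eq]; simp
    have h2 : (Finset.univ : Finset (Fin p ↪ Fin M)) ⊆ A ∪ Bd.toFinset := by
      intro e _
      by_cases he : e ∈ Bd
      · exact Finset.mem_union_right _ (by simpa using he)
      · exact Finset.mem_union_left _ (by simpa [hA] using hcon e he)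
    have h3 := Finset.card_le_card h2
    have h4 := Finset.card_union_le A Bd.toFinset
    have h5 : Bd.toFinset.card = Bd.ncard := (Set.ncard_eq_toFinset_card' Bd).symm
    omega
  have hsum : (κ + 1) * A.card ≤ ∑ e : Fin p ↪ Fin M, ∑ j, f (e j) := by
    calc (κ + 1) * A.card = ∑ _e ∈ A, (κ + 1) := by simp [mul_comm]
      _ ≤ ∑ e ∈ A, ∑ j, f (e j) := Finset.sum_le_sum (fun e he => by
          have := (Finset.mem_filter.mp he).2
          exact this)
      _ ≤ ∑ e : Fin p ↪ Fin M, ∑ j, f (e j) :=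
          Finset.sum_le_sum_of_subset (Finset.subset_univ A)
  have htot : M * ∑ e : Fin p ↪ Fin M, ∑ j, f (e j) = p * (M.descFactorial p * ∑ i, f i) := by
    rw [Finset.sum_comm, Finset.mul_sum, Finset.sum_congr rfl (fun j _ => sum_emb f j)]
    simp
  have h6 : M * ((κ + 1) * A.card) ≤ p * (M.descFactorial p * κ0) :=
    calc M * ((κ + 1) * A.card) ≤ M * ∑ e : Fin p ↪ Fin M, ∑ j, f (e j) :=
          Nat.mul_le_mul_left _ hsum
      _ = p * (M.descFactorial p * ∑ i, f i) := htot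
      _ ≤ p * (M.descFactorial p * κ0) := Nat.mul_le_mul_left _ (Nat.mul_le_mul_left _ hf)
  have h7 : M.descFactorial p ≤ 2 * A.card := by omega
  have h8 : M * (κ + 1) * M.descFactorial p ≤ κ * M * M.descFactorial p :=
    calc M * (κ + 1) * M.descFactorial p ≤ M * (κ + 1) * (2 * A.card) :=
          Nat.mul_le_mul_left _ h7
      _ = 2 * (M * ((κ + 1) * A.card)) := by ring
      _ ≤ 2 * (p * (M.descFactorial p * κ0)) := Nat.mul_le_mul_left _ h6
      _ = 2 * p * κ0 * M.descFactorial p := by ring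
      _ ≤ κ * M * M.descFactorial p := Nat.mul_le_mul_right _ hκ
  have h9 : M * (κ + 1) ≤ κ * M := Nat.le_of_mul_le_mul_right h8 hD
  have h10 : M * (κ + 1) = κ * M + M := by ring
  omega

end Pool.Agent.SW
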