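import Mathlib
import Pool.Agent.Lib.MP_69a69c_lc_SW.Defs
import Pool.Agent.Lib.MP_b573ec_lc_ST.Edges
import Pool.Agent.Lib.MP_b573ec_lc_HM.Hist

/-!
# Few families of blocks are covered
-/

set_option autoImplicit false

namespace Pool.Agent.SW

open Pool.Agent.HM (InI Walk crs)

/-- the changes of a history are in a finite set -/
private theorem BadE_chg_le {α : Type*} (ℓ : ℕ → α) (T : ℕ) (F : Finset ℕ)
    (h : ∀ t < T, ℓ (t + 1) ≠ ℓ t → t ∈ F) : Pool.Agent.HM.chg ℓ T ≤ F.card := by
  classical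
  unfold Pool.Agent.HM.chg
  apply Finset.card_le_card
  intro t ht
  rw [Finset.mem_filter, Finset.mem_range] at ht
  exact h t ht.1 ht.2

/-- the set of the crossings of a block -/
private theorem BadE_crs {n k : ℕ} (T L b : ℕ) (π : ℕ → Fin k → Fin n) (c i : ℕ) :
    ∃ F : Finset ℕ, F.card = crs T L b π c i ∧ ∀ t, t ∈ F ↔
      (t < T ∧ ∃ r, ¬ (InI L b c i (π t r) ↔ InI L b c i (π (t + 1) r))) := by
  classical
  refine ⟨_, rfl, fun t => ?_⟩
  rw [Finset.mem_filter, Finset.mem_range]

/-- without a crossing a block stays visited or not visited -/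
private theorem BadE_stay {n k : ℕ} {L b c i t : ℕ} {π : ℕ → Fin k → Fin n}
    (h : ¬ ((∃ r, InI L b c i (π (t + 1) r)) ↔ ∃ r, InI L b c i (π t r))) :
    ∃ r, ¬ (InI L b c i (π t r) ↔ InI L b c i (π (t + 1) r)) := by
  by_contra hcon
  push Not at hcon
  exact h ⟨fun ⟨r, hr⟩ => ⟨r, (hcon r).2 hr⟩, fun ⟨r, hr⟩ => ⟨r, (hcon r).1 hr⟩⟩

/-- the block of a cell is unique -/
private theorem BadE_uniq {L b c i i' e : ℕ} (h : InI L b c i e) (h' : InI L b c i' e) :
    i = i' := by
  obtain ⟨h1, h2⟩ := h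
  obtain ⟨h3, h4⟩ := h'
  rcases lt_trichotomy i i' with hlt | heq | hlt
  · have e : (i + 1) * b ≤ i' * b := Nat.mul_le_mul_right b hlt
    omega
  · exact heq
  · have e : (i' + 1) * b ≤ i * b := Nat.mul_le_mul_right b hlt
    omega

/-- few embeddings have their values in a small set -/
private theorem BadE_emb {M p s : ℕ} (U : Finset (Fin M)) (hU : U.card ≤ s) :
    (Finset.univ.filter fun e : Fin p ↪ Fin M => ∀ j, e j ∈ U).card ≤ s.descFactorial p := by
  classical
  have h1 : (Finset.univ.filter fun e : Fin p ↪ Fin M => ∀ j, e j ∈ U).card ≤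
      Fintype.card (Fin p ↪ U) := by
    rw [← Fintype.card_coe]
    refine Fintype.card_le_of_injective
      (fun e => (⟨fun j => ⟨e.1 j, (Finset.mem_filter.1 e.2).2 j⟩, fun j j' hj =>
        e.1.injective (congrArg Subtype.val hj)⟩ : Fin p ↪ U)) ?_
    intro e e' he
    apply Subtype.ext
    ext j
    have h2 := congrArg (fun g : Fin p ↪ U => ((g j : U) : Fin M)) he
    exact congrArg Fin.val h2
  refine h1.trans ?_
  rw [Fintype.card_embedding_eq, Fintype.card_coe, Fintype.card_fin]
  exact Nat.descFactorial_le p hU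

theorem bad_embs {n k : ℕ} (T L b M p : ℕ) (π : ℕ → Fin k → Fin n) (c : ℕ) (l : List (ℕ × ℕ))
    (h1 : ∀ x ∈ l, x.1 ≤ x.2)
    (h2 : ∀ x ∈ l, ∀ y ∈ l, ¬ (x.1 < y.1 ∧ y.1 < x.2 ∧ x.2 < y.2)) :
    {e : Fin p ↪ Fin M | ∃ t t', (t = t' ∨ (t, t') ∈ l) ∧ Cvd T L b c π e t t'}.ncard ≤
      3 * (∑ i : Fin M, crs T L b π c i + 2) * (2 * k).descFactorial p := by
  classical
  let S : ℕ → Finset (Fin M) := fun t => Finset.univ.filter fun i =>
    t < T ∧ ∃ r, InI L b c i (π t r)
  have hS : ∀ t i, i ∈ S t ↔ t < T ∧ ∃ r, InI L b c i (π t r) := by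
    intro t i
    simp only [S, Finset.mem_filter, Finset.mem_univ, true_and]
  have hScard : ∀ t, (S t).card ≤ k := by
    intro t
    have := Finset.card_le_card_of_forall_subsingleton (s := S t)
      (t := (Finset.univ : Finset (Fin k)))
      (fun (i : Fin M) (r : Fin k) => InI L b c i (π t r)) ?_ ?_
    · simpa using this
    · intro i hi
      obtain ⟨-, r, hr⟩ := (hS t i).1 hi
      exact ⟨r, Finset.mem_univ _, hr⟩
    · intro r _ i hi i' hi'
      exact Fin.ext (BadE_uniq hi.2 hi'.2)
  set o : ℕ → ℕ := Pool.Agent.HM.chg S with ho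
  have hmono : Monotone o := Pool.Agent.HM.chg_mono S
  have hlt : ∀ t t', o t < o t' → t < t' := by
    intro t t' h
    by_contra hcon
    exact absurd (hmono (not_lt.1 hcon)) (not_le.2 h)
  have hoT : o T ≤ ∑ i : Fin M, crs T L b π c i + 1 := by
    choose F hF1 hF2 using fun i : Fin M => BadE_crs T L b π c i
    have h3 : o T ≤ ((Finset.univ.biUnion F) ∪ {T - 1}).card := by
      apply BadE_chg_le
      intro t ht hne
      rw [Finset.mem_union]
      by_cases ht1 : t + 1 < T
      · left
        rw [Finset.mem_biUnion]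
        by_contra hcon
        apply hne
        ext i
        rw [hS, hS]
        have key : (∃ r, InI L b c i (π (t + 1) r)) ↔ ∃ r, InI L b c i (π t r) := by
          by_contra hk
          exact hcon ⟨i, Finset.mem_univ _, (hF2 i t).2 ⟨ht, BadE_stay hk⟩⟩
        rw [key]
        exact ⟨fun g => ⟨ht, g.2⟩, fun g => ⟨ht1, g.2⟩⟩
      · right
        rw [Finset.mem_singleton]
        omega
    refine h3.trans ((Finset.card_union_le _ _).trans ?_)
    rw [Finset.card_singleton]
    refine Nat.add_le_add_right ?_ 1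
    refine Finset.card_biUnion_le.trans ?_
    exact le_of_eq (Finset.sum_congr rfl fun i _ => hF1 i)
  set M' : ℕ := o T + 1 with hMdef
  -- the blocks of a phase
  let B : ℕ → Finset (Fin M) := fun a => if h : ∃ t, o t = a then S (Classical.choose h) else ∅
  have hB : ∀ t, B (o t) = S t := by
    intro t
    have hex : ∃ t', o t' = o t := ⟨t, rfl⟩
    simp only [B, dif_pos hex]
    exact Pool.Agent.HM.chg_eq (Classical.choose_spec hex)
  have hBcard : ∀ a, (B a).card ≤ k := by
    intro a
    simp only [B]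
    split_ifs with h
    · exact hScard _
    · simp
  set E : Finset (ℕ × ℕ) := (l.toFinset.filter fun x => o x.1 < o x.2 ∧ x.2 < T).image
    fun x => (o x.1, o x.2) with hE
  have hEcard : E.card ≤ 2 * M' := by
    apply Pool.Agent.ST.noncross_card
    · intro y hy
      obtain ⟨x, hx, rfl⟩ := Finset.mem_image.mp hy
      obtain ⟨hxl, hlt1, hx2⟩ := Finset.mem_filter.mp hx
      exact ⟨hlt1, Nat.lt_succ_of_le (hmono hx2.le)⟩
    · intro y hy y' hy'
      obtain ⟨x, hx, rfl⟩ := Finset.mem_image.mp hy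
      obtain ⟨x', hx', rfl⟩ := Finset.mem_image.mp hy'
      obtain ⟨hxl, -, -⟩ := Finset.mem_filter.mp hx
      obtain ⟨hxl', -, -⟩ := Finset.mem_filter.mp hx'
      rintro ⟨c1, c2, c3⟩
      exact h2 x (List.mem_toFinset.mp hxl) x' (List.mem_toFinset.mp hxl')
        ⟨hlt _ _ c1, hlt _ _ c2, hlt _ _ c3⟩
  set D : Finset (ℕ × ℕ) := (Finset.range M').image fun a => (a, a) with hD
  have hDcard : D.card ≤ M' := by
    refine Finset.card_image_le.trans ?_
    rw [Finset.card_range]
  set G : Finset (Fin p ↪ Fin M) := (E ∪ D).biUnion fun q =>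
    Finset.univ.filter fun e : Fin p ↪ Fin M => ∀ j, e j ∈ B q.1 ∪ B q.2 with hG
  have hGcard : G.card ≤ 3 * M' * (2 * k).descFactorial p := by
    refine (Finset.card_biUnion_le_card_mul _ _ ((2 * k).descFactorial p) ?_).trans ?_
    · intro q _
      apply BadE_emb
      refine (Finset.card_union_le _ _).trans ?_
      have e1 := hBcard q.1
      have e2 := hBcard q.2
      omega
    · refine Nat.mul_le_mul_right _ ((Finset.card_union_le _ _).trans ?_)
      omega
  have hsub : {e : Fin p ↪ Fin M | ∃ t t', (t = t' ∨ (t, t') ∈ l) ∧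
      Cvd T L b c π e t t'} ⊆ (G : Set _) := by
    rintro e ⟨t, t', htt, ht, ht', hc⟩
    rw [Finset.mem_coe, hG, Finset.mem_biUnion]
    refine ⟨(o t, o t'), ?_, ?_⟩
    · rw [Finset.mem_union]
      have hle : t ≤ t' := by
        rcases htt with h | h
        · exact h.le
        · exact h1 _ h
      rcases (hmono hle).lt_or_eq with h | h
      · left
        rcases htt with he | he
        · rw [he] at h
          exact absurd h (lt_irrefl _)
        · rw [hE, Finset.mem_image]
          exact ⟨(t, t'), Finset.mem_filter.mpr ⟨List.mem_toFinset.mpr he, h, ht'⟩, rfl⟩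
      · right
        rw [hD, Finset.mem_image]
        exact ⟨o t, Finset.mem_range.2 (Nat.lt_succ_of_le (hmono ht.le)), by rw [h]⟩
    · rw [Finset.mem_filter]
      refine ⟨Finset.mem_univ _, fun j => ?_⟩
      dsimp only
      rw [hB, hB, Finset.mem_union, hS, hS]
      rcases hc j with h | h
      · exact Or.inl ⟨ht, h⟩
      · exact Or.inr ⟨ht', h⟩
  calc _ ≤ ((G : Finset (Fin p ↪ Fin M)) : Set (Fin p ↪ Fin M)).ncard :=
        Set.ncard_le_ncard hsub (Finset.finite_toSet _)
    _ = G.card := Set.ncard_coe_finset _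
    _ ≤ 3 * M' * (2 * k).descFactorial p := hGcard
    _ ≤ 3 * (∑ i : Fin M, crs T L b π c i + 2) * (2 * k).descFactorial p := by
        apply Nat.mul_le_mul_right
        omega

end Pool.Agent.SW
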