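import Mathlib
import Pool.Agent.Lib.MP_69a69c_lc_SW.BadE
import Pool.Agent.Lib.MP_69a69c_lc_SW.AvgE
import Pool.Agent.Lib.MP_69a69c_lc_SW.SkE
import Pool.Agent.Lib.MP_b573ec_lc_ST.Codes
import Pool.Agent.Lib.MP_b573ec_lc_ST.Deriv
import Pool.Agent.Lib.MP_b573ec_lc_ST.Skel
import Pool.Agent.Lib.MP_b573ec_lc_HM.Hist
import Pool.Agent.Lib.MP_b573ec_lc_HM.Runs
import Pool.Agent.Lib.MP_b573ec_lc_HM.Traj
import Pool.Agent.Lib.MP_69a69c_lc_SH.HistG

/-!
# The accepted inputs are covered by few sets which are closed under stars of families of blocks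
-/

set_option autoImplicit false

namespace Pool.Agent.SW

open Pool.Agent.LT (Inp)
open Pool.Agent.HM (InI NHeadProg chg crs)
open Pool.Agent.SH (HistG histG_codes)

/-- two digits -/
private theorem CoverW_code2 {N a a' c c' : ℕ} (hc : c < N) (hc' : c' < N)
    (h : a * N + c = a' * N + c') : a = a' ∧ c = c' := by
  have h1 : c = c' := by
    have e1 : (a * N + c) % N = c := by
      rw [mul_comm, Nat.mul_add_mod, Nat.mod_eq_of_lt hc]
    have e2 : (a' * N + c') % N = c' := by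
      rw [mul_comm, Nat.mul_add_mod, Nat.mod_eq_of_lt hc']
    rw [← e1, ← e2, h]
  subst h1
  exact ⟨Nat.eq_of_mul_eq_mul_right (by omega) (Nat.add_right_cancel h), rfl⟩

private theorem CoverW_lt2 {M N a c : ℕ} (ha : a < M) (hc : c < N) : a * N + c < M * N := by
  have h1 : (a + 1) * N ≤ M * N := Nat.mul_le_mul_right N ha
  have h2 : (a + 1) * N = a * N + N := by ring
  omega

/-- the number of codes -/
private theorem CoverW_count {n k T w S κ B M p : ℕ} (hS : 1 ≤ S) (hn : n ≤ 2 ^ S)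
    (hw : w ≤ 2 ^ S) (hT : T ≤ 2 ^ (2 * S)) (hB : B ≤ 2 ^ S) (hM : M ≤ 2 ^ S) :
    ((((B * M ^ p) * ((T + 1) * 2 ^ p) ^ (κ + 1 + 1)) * HM.W n k w) * HM.W n k w) *
      ((T + 1) * (HM.W n k w + 1)) ^ (8 * (3 * (κ + 1) + 1)) ≤
        2 ^ (256 * (k + p + 1) * (κ + 1) * S) := by
  have h1 : T + 1 ≤ 2 ^ (3 * S) := by
    have h2 : 1 ≤ 2 ^ (2 * S) := Nat.one_le_two_pow
    calc T + 1 ≤ 2 ^ (2 * S) + 2 ^ (2 * S) := Nat.add_le_add hT h2
      _ = 2 ^ (2 * S + 1) := by ring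
      _ ≤ 2 ^ (3 * S) := Nat.pow_le_pow_right (by norm_num) (by omega)
  have h2 : (T + 1) * 2 ^ p ≤ 2 ^ ((p + 3) * S) := by
    calc (T + 1) * 2 ^ p ≤ 2 ^ (3 * S) * 2 ^ (p * S) :=
          Nat.mul_le_mul h1 (Nat.pow_le_pow_right (by norm_num)
            (Nat.le_mul_of_pos_right _ hS))
      _ = 2 ^ ((p + 3) * S) := by
          rw [← pow_add]
          ring_nf
  have h3 : HM.W n k w ≤ 2 ^ ((k + 2) * S) := by
    calc n ^ k * w + w ≤ (2 ^ S) ^ k * 2 ^ S + 2 ^ S :=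
          Nat.add_le_add (Nat.mul_le_mul (Nat.pow_le_pow_left hn k) hw) hw
      _ ≤ (2 ^ S) ^ k * 2 ^ S + (2 ^ S) ^ k * 2 ^ S := by
          apply Nat.add_le_add_left
          exact Nat.le_mul_of_pos_left _ (by positivity)
      _ = 2 ^ (k * S + S + 1) := by
          rw [← pow_mul]
          ring
      _ ≤ 2 ^ ((k + 2) * S) := Nat.pow_le_pow_right (by norm_num) (by
          have e : (k + 2) * S = k * S + S + S := by ring
          omega)
  have h4 : HM.W n k w + 1 ≤ 2 ^ ((k + 3) * S) := by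
    have h5 : 1 ≤ 2 ^ ((k + 2) * S) := Nat.one_le_two_pow
    calc HM.W n k w + 1 ≤ 2 ^ ((k + 2) * S) + 2 ^ ((k + 2) * S) := Nat.add_le_add h3 h5
      _ = 2 ^ ((k + 2) * S + 1) := by ring
      _ ≤ 2 ^ ((k + 3) * S) := Nat.pow_le_pow_right (by norm_num) (by
          have e : (k + 3) * S = (k + 2) * S + S := by ring
          omega)
  have h5 : (T + 1) * (HM.W n k w + 1) ≤ 2 ^ ((k + 6) * S) := by
    calc (T + 1) * (HM.W n k w + 1) ≤ 2 ^ (3 * S) * 2 ^ ((k + 3) * S) := Nat.mul_le_mul h1 h4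
      _ = 2 ^ ((k + 6) * S) := by
          rw [← pow_add]
          ring_nf
  have h6 : M ^ p ≤ 2 ^ (S * p) := by
    rw [pow_mul]
    exact Nat.pow_le_pow_left hM p
  calc ((((B * M ^ p) * ((T + 1) * 2 ^ p) ^ (κ + 1 + 1)) * HM.W n k w) * HM.W n k w) *
      ((T + 1) * (HM.W n k w + 1)) ^ (8 * (3 * (κ + 1) + 1))
      ≤ ((((2 ^ S * 2 ^ (S * p)) * (2 ^ ((p + 3) * S)) ^ (κ + 1 + 1)) * 2 ^ ((k + 2) * S)) *
        2 ^ ((k + 2) * S)) * (2 ^ ((k + 6) * S)) ^ (8 * (3 * (κ + 1) + 1)) :=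
        Nat.mul_le_mul (Nat.mul_le_mul (Nat.mul_le_mul (Nat.mul_le_mul (Nat.mul_le_mul hB h6)
          (Nat.pow_le_pow_left h2 _)) h3) h3) (Nat.pow_le_pow_left h5 _)
    _ = 2 ^ (S + S * p + (p + 3) * S * (κ + 1 + 1) + (k + 2) * S + (k + 2) * S +
          (k + 6) * S * (8 * (3 * (κ + 1) + 1))) := by
        rw [← pow_mul, ← pow_mul, ← pow_add, ← pow_add, ← pow_add, ← pow_add, ← pow_add]
    _ ≤ 2 ^ (256 * (k + p + 1) * (κ + 1) * S) := by
        refine Nat.pow_le_pow_right (by norm_num) ?_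
        obtain ⟨a, ha⟩ : ∃ a, a = κ * S := ⟨_, rfl⟩
        obtain ⟨q, hq⟩ : ∃ q, q = k * S := ⟨_, rfl⟩
        obtain ⟨r, hr⟩ : ∃ r, r = k * (κ * S) := ⟨_, rfl⟩
        obtain ⟨t, ht⟩ : ∃ t, t = p * S := ⟨_, rfl⟩
        obtain ⟨v, hv⟩ : ∃ v, v = p * (κ * S) := ⟨_, rfl⟩
        have e1 : S + S * p + (p + 3) * S * (κ + 1 + 1) + (k + 2) * S + (k + 2) * S +
          (k + 6) * S * (8 * (3 * (κ + 1) + 1)) =
            24 * r + v + 147 * a + 34 * q + 3 * t + 203 * S := by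
          rw [ha, hq, hr, ht, hv]
          ring
        have e2 : 256 * (k + p + 1) * (κ + 1) * S =
            256 * r + 256 * v + 256 * a + 256 * q + 256 * t + 256 * S := by
          rw [ha, hq, hr, ht, hv]
          ring
        rw [e1, e2]
        omega

/-- the visited blocks of a family -/
private noncomputable def CoverW_lab {n k M p : ℕ} (L b c : ℕ) (e : Fin p ↪ Fin M)
    (h : Fin k → Fin n) : Finset (Fin p) := by
  classical
  exact Finset.univ.filter fun j => Vis L b c (e j) h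

private theorem CoverW_mem {n k M p L b c : ℕ} {e : Fin p ↪ Fin M} {h : Fin k → Fin n}
    {j : Fin p} : j ∈ CoverW_lab L b c e h ↔ Vis L b c (e j) h := by
  classical
  unfold CoverW_lab
  rw [Finset.mem_filter]
  exact ⟨fun g => g.2, fun g => ⟨Finset.mem_univ _, g⟩⟩

/-- the changes of a history are in a finite set -/
private theorem CoverW_chg_le {α : Type*} (ℓ : ℕ → α) (T : ℕ) (F : Finset ℕ)
    (h : ∀ t < T, ℓ (t + 1) ≠ ℓ t → t ∈ F) : chg ℓ T ≤ F.card := by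
  classical
  unfold chg
  apply Finset.card_le_card
  intro t ht
  rw [Finset.mem_filter, Finset.mem_range] at ht
  exact h t ht.1 ht.2

/-- the set of the crossings of a block -/
private theorem CoverW_crs {n k : ℕ} (T L b : ℕ) (π : ℕ → Fin k → Fin n) (c i : ℕ) :
    ∃ F : Finset ℕ, F.card = crs T L b π c i ∧ ∀ t, t ∈ F ↔
      (t < T ∧ ∃ r, ¬ (InI L b c i (π t r) ↔ InI L b c i (π (t + 1) r))) := by
  classical
  refine ⟨_, rfl, fun t => ?_⟩
  rw [Finset.mem_filter, Finset.mem_range]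

/-- without a crossing a block stays visited or not visited -/
private theorem CoverW_stay {n k : ℕ} {L b c i t : ℕ} {π : ℕ → Fin k → Fin n}
    (h : ¬ (Vis L b c i (π (t + 1)) ↔ Vis L b c i (π t))) :
    ∃ r, ¬ (InI L b c i (π t r) ↔ InI L b c i (π (t + 1) r)) := by
  by_contra hcon
  push Not at hcon
  exact h ⟨fun ⟨r, hr⟩ => ⟨r, (hcon r).2 hr⟩, fun ⟨r, hr⟩ => ⟨r, (hcon r).1 hr⟩⟩

/-- the history of the sets of visited blocks -/
private theorem CoverW_labs {n k M p : ℕ} (T L b c : ℕ) (e : Fin p ↪ Fin M)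
    (π : ℕ → Fin k → Fin n) :
    ∃ ℓ : ℕ → Finset (Fin p), (∀ t < T, CoverW_lab L b c e (π t) = ℓ t) ∧
      HistG T (∑ j : Fin p, crs T L b π c (e j) + 1) ∅ ℓ := by
  classical
  let ℓ : ℕ → Finset (Fin p) := fun t => if t < T then CoverW_lab L b c e (π t) else ∅
  refine ⟨ℓ, ?_, ?_, ?_⟩
  · intro t ht
    simp only [ℓ, if_pos ht]
  · intro t ht
    simp only [ℓ, if_neg (not_lt.2 ht)]
  · choose F hF1 hF2 using fun i : Fin p => CoverW_crs T L b π c (e i)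
    have h3 : chg ℓ T ≤ ((Finset.univ.biUnion F) ∪ {T - 1}).card := by
      apply CoverW_chg_le
      intro t ht hne
      rw [Finset.mem_union]
      by_cases ht1 : t + 1 < T
      · left
        rw [Finset.mem_biUnion]
        by_contra hcon
        apply hne
        simp only [ℓ, if_pos ht, if_pos ht1]
        ext i
        rw [CoverW_mem, CoverW_mem]
        by_contra hk
        exact hcon ⟨i, Finset.mem_univ _, (hF2 i t).2 ⟨ht, CoverW_stay hk⟩⟩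
      · right
        rw [Finset.mem_singleton]
        omega
    refine h3.trans ((Finset.card_union_le _ _).trans ?_)
    rw [Finset.card_singleton]
    refine Nat.add_le_add_right ?_ 1
    refine Finset.card_biUnion_le.trans ?_
    exact le_of_eq (Finset.sum_congr rfl fun i _ => hF1 i)

/-- the condition on the heads given by a history of sets of visited blocks -/
private def CoverW_R {n M p : ℕ} (L b c k : ℕ) (e : Fin p ↪ Fin M) (ℓ : ℕ → Finset (Fin p)) :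
    ℕ → (Fin k → Fin n) → Prop := fun t h => CoverW_lab L b c e h = ℓ t

/-- the transcript relation -/
private def CoverW_Trc {n k w M p : ℕ} (P : NHeadProg n k w) (T L b c : ℕ) (x : Inp n)
    (e : Fin p ↪ Fin M) (ℓ : ℕ → Finset (Fin p)) (s0 s1 : (Fin k → Fin n) × Fin w)
    (s : ST.Sk (HM.W n k w)) : Prop :=
  P.start s0.1 s0.2 ∧ P.acc s1.2 ∧
    ST.Dv (P.rel T (CoverW_R L b c k e ℓ) fun _ => x) T (HM.chg ℓ) (fun _ => false)
      ⟨0, HM.cst s0.1 s0.2, none, T, HM.cst s1.1 s1.2⟩ s ∧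
    (∀ t, ∃ j, j ∉ ℓ t) ∧ SkAll (fun t t' => ∃ j, j ∉ ℓ t ∧ j ∉ ℓ t') s

private theorem CoverW_accepts {n k w M p : ℕ} {P : NHeadProg n k w} {T L b c : ℕ} {x : Inp n}
    {e : Fin p ↪ Fin M} {ℓ : ℕ → Finset (Fin p)} {s0 s1 : (Fin k → Fin n) × Fin w}
    {s : ST.Sk (HM.W n k w)} (h : CoverW_Trc P T L b c x e ℓ s0 s1 s) : P.Accepts T x := by
  obtain ⟨h1, h2, h3, -, -⟩ := h
  obtain ⟨l, hl⟩ := h3.sound
  exact HM.acceptsR_accepts ((HM.acceptsR_iff P T (CoverW_R L b c k e ℓ) x fun _ => false).2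
    ⟨s0.1, s0.2, s1.1, s1.2, l, h1, h2, hl⟩)

private theorem CoverW_all {w : ℕ} {Q Q' : ℕ → ℕ → Prop} (hQ : ∀ t e, Q t e → Q' t e)
    (s : ST.Sk w) : SkAll Q s → SkAll Q' s := by
  induction s with
  | int => exact fun h => h
  | nxt ν q s ih => exact fun h => ⟨hQ _ _ h.1, ih h.2⟩
  | br ν q a t1 q2 s s' ih ih' => exact fun h => ⟨hQ _ _ h.1, ih h.2.1, ih' h.2.2⟩

/-- an input which is replaced in a block which is not visited -/
private theorem CoverW_rel {n k w M p : ℕ} {P : NHeadProg n k w} {T L b c : ℕ} {u v : Inp n}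
    {e : Fin p ↪ Fin M} {ℓ : ℕ → Finset (Fin p)} {j : Fin p}
    (hv : ∀ i : Fin n, ¬ InI L b c (e j) i → v i = u i) {t : ℕ} (hj : j ∉ ℓ t)
    {q0 : Fin (HM.W n k w)} {g : Option (Fin (HM.W n k w))} {z : Bool}
    {mv : ST.Move (HM.W n k w)}
    (hm : P.rel T (CoverW_R L b c k e ℓ) (fun _ => v) t q0 g z mv) :
    P.rel T (CoverW_R L b c k e ℓ) (fun _ => u) t q0 g z mv := by
  obtain ⟨h1, hh, q1, g1, mv1, hR, e1, e2, hmv, e3⟩ := hm
  refine ⟨h1, hh, q1, g1, mv1, hR, e1, e2, ?_, e3⟩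
  have hni : j ∉ CoverW_lab L b c e hh := by
    have hR' : CoverW_lab L b c e hh = ℓ t := hR
    rw [hR']
    exact hj
  have e4 : (fun r => v (hh r)) = fun r => u (hh r) := by
    funext r
    refine hv (hh r) fun hin => hni ?_
    rw [CoverW_mem]
    exact ⟨r, hin⟩
  rw [← e4]
  exact hmv

/-- stars -/
private theorem CoverW_star {n k w M p : ℕ} (hp : 1 ≤ p) {P : NHeadProg n k w} {T L b c : ℕ}
    {u : Inp n} {v : Fin p → Inp n} {e : Fin p ↪ Fin M}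
    (hv : ∀ (j : Fin p) (i : Fin n), ¬ InI L b c (e j) i → v j i = u i)
    {ℓ : ℕ → Finset (Fin p)} {s0 s1 : (Fin k → Fin n) × Fin w}
    {s : ST.Sk (HM.W n k w)} (h : ∀ j, CoverW_Trc P T L b c (v j) e ℓ s0 s1 s) :
    CoverW_Trc P T L b c u e ℓ s0 s1 s := by
  obtain ⟨h1, h2, -, h4, h5⟩ := h ⟨0, hp⟩
  refine ⟨h1, h2, ?_, h4, h5⟩
  refine dv_starE (HM.chg_mono ℓ)
    (fun j => P.rel T (CoverW_R L b c k e ℓ) fun _ => v j) ?_ s _ ?_ fun j => (h j).2.2.1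
  · intro a
    by_cases ha : ∃ s, HM.chg ℓ s = a
    · obtain ⟨s0, hs0⟩ := ha
      obtain ⟨j, hj⟩ := h4 s0
      refine ⟨j, fun t _ hta q g mv hm => CoverW_rel (hv j) ?_ hm⟩
      rw [HM.chg_eq (hta.trans hs0.symm)]
      exact hj
    · exact ⟨⟨0, hp⟩, fun t _ hta => absurd ⟨t, hta⟩ ha⟩
  · refine CoverW_all ?_ s h5
    rintro t t' ⟨j, hj, hj'⟩
    refine ⟨j, fun r _ hr q g mv hm => CoverW_rel (hv j) ?_ hm⟩
    rcases hr with hr | hr
    · rw [HM.chg_eq hr]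
      exact hj
    · rw [HM.chg_eq hr]
      exact hj'

theorem coverW (k n T S w L b M p B κ0 κ : ℕ) (P : NHeadProg n k w) (hp : 1 ≤ p) (hpM : p ≤ M)
    (hS : 1 ≤ S) (hn : n ≤ 2 ^ S) (hw : w ≤ 2 ^ S) (hT : T ≤ 2 ^ (2 * S)) (hM : M ≤ 2 ^ S)
    (hB : 1 ≤ B) (hBS : B ≤ 2 ^ S) (hTB : T ≤ B * κ0) (hκ : 2 * p * κ0 ≤ κ * M)
    (hbad : 6 * (κ0 + 2) * (2 * k).descFactorial p ≤ M.descFactorial p) :
    ∃ (Θ : ℕ) (Tr : Fin Θ → Inp n → Prop), Θ ≤ 2 ^ (256 * (k + p + 1) * (κ + 1) * S) ∧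
      (∀ θ, ∃ c, 1 ≤ c ∧ c ≤ B ∧ ∃ e : Fin p ↪ Fin M, StarE L b c e (Tr θ)) ∧
      (∀ θ x, Tr θ x → P.Accepts T x) ∧ ∀ x, P.Accepts T x → ∃ θ, Tr θ x := by
  classical
  obtain ⟨codeH, hHlt, hHinj⟩ := histG_codes (α := Finset (Fin p)) T (κ + 1) ∅
  rw [Fintype.card_finset, Fintype.card_fin] at hHlt
  obtain ⟨code, hinj, hlt⟩ := ST.sk_codes (HM.W n k w) T (3 * (κ + 1) + 1)
  set N : ℕ := ((T + 1) * (HM.W n k w + 1)) ^ (8 * (3 * (κ + 1) + 1)) with hN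
  set H : ℕ := ((T + 1) * 2 ^ p) ^ (κ + 1 + 1) with hH
  have hcardE : Fintype.card (Fin p → Fin M) = M ^ p := by simp
  set eqE : (Fin p → Fin M) ≃ Fin (M ^ p) := Fintype.equivFinOfCardEq hcardE with heqE
  set codeE : (Fin p ↪ Fin M) → ℕ := fun e => (eqE e : Fin (M ^ p)).val with hcodeE
  have hElt : ∀ e, codeE e < M ^ p := fun e => (eqE e).2
  have hEinj : ∀ e e' : Fin p ↪ Fin M, codeE e = codeE e' → e = e' := by
    intro e e' h
    exact DFunLike.coe_injective (eqE.injective (Fin.ext h))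
  have hsz : ∀ {c : ℕ} {x : Inp n} {e : Fin p ↪ Fin M} {ℓ : ℕ → Finset (Fin p)}
      {s0 s1 : (Fin k → Fin n) × Fin w} {s : ST.Sk (HM.W n k w)}, HistG T (κ + 1) ∅ ℓ →
      CoverW_Trc P T L b c x e ℓ s0 s1 s → s.size ≤ 3 * (κ + 1) + 1 ∧ s.Bdd T := by
    intro c x e ℓ s0 s1 s hh h
    refine ⟨?_, h.2.2.1.bdd⟩
    have h1 := h.2.2.1.size (HM.chg_mono ℓ)
    have h2 := hh.2
    dsimp only at h1
    omega
  refine ⟨((((B * M ^ p) * H) * HM.W n k w) * HM.W n k w) * N, fun θ x => ∃ c e ℓ s0 s1 s,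
    c < B ∧ HistG T (κ + 1) ∅ ℓ ∧ CoverW_Trc P T L b (c + 1) x e ℓ s0 s1 s ∧
    ((((c * M ^ p + codeE e) * H + codeH ℓ) * HM.W n k w +
      (HM.cst s0.1 s0.2 : Fin (HM.W n k w)).val) *
      HM.W n k w + (HM.cst s1.1 s1.2 : Fin (HM.W n k w)).val) * N + code s = (θ : ℕ),
    CoverW_count hS hn hw hT hBS hM, ?_, ?_, ?_⟩
  · intro θ
    by_cases hex : ∃ x c e ℓ s0 s1 s, c < B ∧
      HistG T (κ + 1) ∅ ℓ ∧ CoverW_Trc P T L b (c + 1) x e ℓ s0 s1 s ∧
      ((((c * M ^ p + codeE e) * H + codeH ℓ) * HM.W n k w +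
        (HM.cst s0.1 s0.2 : Fin (HM.W n k w)).val) *
        HM.W n k w + (HM.cst s1.1 s1.2 : Fin (HM.W n k w)).val) * N + code s = (θ : ℕ)
    · obtain ⟨x, c, e, ℓ, s0, s1, s, hc, hh, ht, hcd⟩ := hex
      obtain ⟨h1, h2⟩ := hsz hh ht
      refine ⟨c + 1, by omega, by omega, e, fun u v hv hA => ?_⟩
      refine ⟨c, e, ℓ, s0, s1, s, hc, hh, CoverW_star hp hv fun j => ?_, hcd⟩
      obtain ⟨c', e', ℓ', s0', s1', s', hc', hh', ht', hcd'⟩ := hA j
      obtain ⟨h3, h4⟩ := hsz hh' ht'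
      obtain ⟨e1, e2⟩ := CoverW_code2 (hlt s h1 h2) (hlt s' h3 h4) (hcd.trans hcd'.symm)
      obtain ⟨e3, e4⟩ := CoverW_code2 (HM.cst s1.1 s1.2).2 (HM.cst s1'.1 s1'.2).2 e1
      obtain ⟨e5, e6⟩ := CoverW_code2 (HM.cst s0.1 s0.2).2 (HM.cst s0'.1 s0'.2).2 e3
      obtain ⟨e7, e8⟩ := CoverW_code2 (hHlt ℓ hh) (hHlt ℓ' hh') e5
      obtain ⟨f1, f2⟩ := CoverW_code2 (hElt e) (hElt e') e7
      have e9 := hinj s s' h1 h2 h3 h4 e2
      have e10 := hHinj ℓ ℓ' hh hh' e8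
      have f3 := hEinj e e' f2
      obtain ⟨e11, e12⟩ := HM.cst_inj (Fin.ext e4)
      obtain ⟨e13, e14⟩ := HM.cst_inj (Fin.ext e6)
      have e15 : s1 = s1' := Prod.ext e11 e12
      have e16 : s0 = s0' := Prod.ext e13 e14
      subst f1 f3 e9 e10 e15 e16
      exact ht'
    · have e : Fin p ↪ Fin M := ⟨Fin.castLE hpM, Fin.castLE_injective hpM⟩
      refine ⟨1, le_rfl, hB, e, fun u v _ hA => ?_⟩
      exact absurd ⟨_, hA ⟨0, hp⟩⟩ hex
  · rintro θ x ⟨c, e, ℓ, s0, s1, s, hc, hh, ht, hcd⟩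
    exact CoverW_accepts ht
  · intro x hx
    obtain ⟨π, hπ, hacc⟩ := HM.exists_traj P T x hx
    obtain ⟨h, q, h', q', l, hst, hac, hpop⟩ :=
      (HM.acceptsR_iff P T (fun t h => h = π t) x fun _ => false).1 hacc
    obtain ⟨c, hc1, hc2, hc3⟩ : ∃ c, 1 ≤ c ∧ c ≤ B ∧
        ∑ i : Fin M, HM.crs T L b π c i ≤ κ0 := by
      by_contra hcon
      push Not at hcon
      have h1 := HM.sum_crs_le T L b M B π hπ
      have h2 : ∑ _c ∈ Finset.Icc 1 B, (κ0 + 1) ≤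
          ∑ c ∈ Finset.Icc 1 B, ∑ i : Fin M, HM.crs T L b π c i :=
        Finset.sum_le_sum fun c hc =>
          hcon c (Finset.mem_Icc.1 hc).1 (Finset.mem_Icc.1 hc).2
      rw [Finset.sum_const, Nat.card_Icc, smul_eq_mul] at h2
      have e1 : (B + 1 - 1) * (κ0 + 1) = B * κ0 + B := by
        rw [Nat.add_sub_cancel]
        ring
      rw [e1] at h2
      omega
    have hbd := bad_embs T L b M p π c l (fun x hx => (hpop.within x hx).2.1) hpop.noncross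
    obtain ⟨e, he1, he2⟩ := exists_emb hpM (by omega) (fun i => HM.crs T L b π c i) hc3 hκ
      {e : Fin p ↪ Fin M | ∃ t t', (t = t' ∨ (t, t') ∈ l) ∧ Cvd T L b c π e t t'} (by
        have h1 : 3 * (∑ i : Fin M, crs T L b π c i + 2) * (2 * k).descFactorial p ≤
            3 * (κ0 + 2) * (2 * k).descFactorial p :=
          Nat.mul_le_mul_right _ (Nat.mul_le_mul_left _ (by omega))
        have h2 : 2 * (3 * (κ0 + 2) * (2 * k).descFactorial p) =
            6 * (κ0 + 2) * (2 * k).descFactorial p := by ring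
        omega)
    obtain ⟨ℓ, hℓ1, hℓ2⟩ := CoverW_labs T L b c e π
    have hh : HistG T (κ + 1) ∅ ℓ := ⟨hℓ2.1, hℓ2.2.trans (by
      have h3 : ∑ j : Fin p, crs T L b π c (e j) ≤ κ := he2
      omega)⟩
    have hnc : ∀ t t', t < T → t' < T → (t = t' ∨ (t, t') ∈ l) →
        ∃ j, j ∉ ℓ t ∧ j ∉ ℓ t' := by
      intro t t' ht ht' htt
      by_contra hcon
      push Not at hcon
      refine he1 ⟨t, t', htt, ht, ht', fun j => ?_⟩
      by_cases hj : j ∈ ℓ t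
      · left
        rw [← hℓ1 t ht, CoverW_mem] at hj
        exact hj
      · right
        have hj' := hcon j hj
        rw [← hℓ1 t' ht', CoverW_mem] at hj'
        exact hj'
    have hne : ∀ t, ∃ j, j ∉ ℓ t := by
      intro t
      rcases Nat.lt_or_ge t T with ht | ht
      · obtain ⟨j, hj, -⟩ := hnc t t ht ht (Or.inl rfl)
        exact ⟨j, hj⟩
      · refine ⟨⟨0, hp⟩, ?_⟩
        rw [hℓ2.1 t ht]
        exact Finset.notMem_empty _
    have hQ : ∀ x ∈ l, ∃ j, j ∉ ℓ x.1 ∧ j ∉ ℓ x.2 := by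
      intro x hx
      obtain ⟨-, h1, h2⟩ := hpop.within x hx
      rcases h2.lt_or_eq with h3 | h3
      · exact hnc x.1 x.2 (lt_of_le_of_lt h1 h3) h3 (Or.inr hx)
      · obtain ⟨j, hj⟩ := hne x.1
        refine ⟨j, hj, ?_⟩
        rw [hℓ2.1 x.2 h3.ge]
        exact Finset.notMem_empty _
    have hpop' : ST.Pop (P.rel T (CoverW_R L b c k e ℓ) fun _ => x) T
        (fun _ => false) 0 (HM.cst h q) none T (HM.cst h' q') l := by
      refine HM.Pop_mono ?_ hpop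
      rintro t ht s g mv ⟨h1, hd, q1, g1, mv1, hR, e1, e2, e3, e4⟩
      refine ⟨h1, hd, q1, g1, mv1, ?_, e1, e2, e3, e4⟩
      rw [hR]
      exact hℓ1 t ht
    obtain ⟨s, hs, hsQ⟩ := exists_dvE (HM.chg_mono ℓ)
      (fun t t' => ∃ j, j ∉ ℓ t ∧ j ∉ ℓ t') hpop' hQ
    obtain ⟨c, rfl⟩ : ∃ c', c = c' + 1 := ⟨c - 1, by omega⟩
    have ht : CoverW_Trc P T L b (c + 1) x e ℓ (h, q) (h', q') s := ⟨hst, hac, hs, hne, hsQ⟩
    obtain ⟨h1, h2⟩ := hsz hh ht
    refine ⟨⟨_, ?_⟩, c, e, ℓ, (h, q), (h', q'), s, by omega, hh, ht, rfl⟩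
    exact CoverW_lt2 (CoverW_lt2 (CoverW_lt2 (CoverW_lt2 (CoverW_lt2 (by omega) (hElt e))
      (hHlt ℓ hh)) (HM.cst h q).2) (HM.cst h' q').2) (hlt s h1 h2)

end Pool.Agent.SW
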