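import Mathlib
import Pool.Agent.Lib.MP_69a69c_lc_SW.Defs

/-!
# The numbers of columns
-/

set_option autoImplicit false

namespace Pool.Agent.SW

/-- the ones of a column outside the blocks `e k` -/
private def outc {P M : ℕ} (e : Fin (P + 1) ↪ Fin M) (c : Fin M → Bool) : ℕ :=
  (Finset.univ.filter fun i => (∀ k, e k ≠ i) ∧ c i = true).card

/-- the ones of a column in the blocks `e k` -/
private def inc {P M : ℕ} (e : Fin (P + 1) ↪ Fin M) (c : Fin M → Bool) : ℕ :=
  (Finset.univ.filter fun k => c (e k) = true).card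

private theorem cnt_split {P M : ℕ} (e : Fin (P + 1) ↪ Fin M) (c : Fin M → Bool) :
    cnt c = outc e c + inc e c := by
  unfold cnt outc inc
  have h2 : (Finset.univ.filter fun k => c (e k) = true).card =
      ((Finset.univ.filter fun i => c i = true).filter fun i => ¬ ∀ k, e k ≠ i).card := by
    rw [← Finset.card_map e]
    congr 1
    ext i
    simp only [Finset.mem_map, Finset.mem_filter, Finset.mem_univ, true_and]
    constructor
    · rintro ⟨k, hk, rfl⟩
      exact ⟨hk, fun h => h k rfl⟩
    · rintro ⟨h1, h2⟩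
      push Not at h2
      obtain ⟨k, hk⟩ := h2
      exact ⟨k, by rw [hk]; exact h1, hk⟩
  have h3 : (Finset.univ.filter fun i => (∀ k, e k ≠ i) ∧ c i = true) =
      ((Finset.univ.filter fun i => c i = true).filter fun i => ∀ k, e k ≠ i) := by
    ext i
    simp only [Finset.mem_filter, Finset.mem_univ, true_and]
    tauto
  rw [h2, h3]
  exact (Finset.card_filter_add_card_filter_not _).symm

/-- a relevant column with ones for all players has a number of ones divisible by `P + 2` -/
theorem allOne {P M : ℕ} (e : Fin (P + 1) ↪ Fin M) (c : Fin M → Bool) (h : Rlv e c)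
    (h1 : ∀ k, c (e k) = true) : P + 2 ∣ cnt c := by
  have h2 : inc e c = P + 1 := by
    unfold inc
    rw [Finset.filter_true_of_mem (fun k _ => h1 k), Finset.card_univ, Fintype.card_fin]
  have h3 : outc e c % (P + 2) = 1 := h
  rw [cnt_split e c, h2]
  apply Nat.dvd_of_mod_eq_zero
  rw [Nat.add_mod, h3, Nat.mod_eq_of_lt (show P + 1 < P + 2 by omega)]
  rw [show 1 + (P + 1) = P + 2 by omega, Nat.mod_self]

/-- the other relevant columns -/
theorem notAll {P M : ℕ} (e : Fin (P + 1) ↪ Fin M) (c : Fin M → Bool) (h : Rlv e c)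
    (h1 : ¬ ∀ k, c (e k) = true) : ¬ P + 2 ∣ cnt c := by
  have h2 : inc e c < P + 1 := by
    unfold inc
    have h4 : (Finset.univ.filter fun k => c (e k) = true) ⊂
        (Finset.univ : Finset (Fin (P + 1))) := by
      rw [Finset.filter_ssubset]
      push Not at h1
      obtain ⟨k, hk⟩ := h1
      exact ⟨k, Finset.mem_univ k, hk⟩
    have h5 := Finset.card_lt_card h4
    rwa [Finset.card_univ, Fintype.card_fin] at h5
  have h3 : outc e c % (P + 2) = 1 := h
  intro h4
  rw [cnt_split e c] at h4
  have h5 := Nat.mod_eq_zero_of_dvd h4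
  rw [Nat.add_mod, h3, Nat.mod_eq_of_lt (show inc e c < P + 2 by omega),
    Nat.mod_eq_of_lt (show 1 + inc e c < P + 2 by omega)] at h5
  omega

/-- `P + 1` further coordinates -/
private theorem exists_outer {P M : ℕ} (hM : 2 * (P + 1) ≤ M) (e : Fin (P + 1) ↪ Fin M) :
    ∃ j : Fin (P + 1) ↪ Fin M, ∀ k l, j k ≠ e l := by
  classical
  obtain ⟨O, hO⟩ : ∃ O : Finset (Fin M), O = Finset.univ \ Finset.univ.map e := ⟨_, rfl⟩
  have h1 : P + 1 ≤ O.card := by
    rw [hO, Finset.card_sdiff_of_subset (Finset.subset_univ _), Finset.card_map,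
      Finset.card_univ, Finset.card_univ, Fintype.card_fin, Fintype.card_fin]
    omega
  have h2 : Nonempty (Fin (P + 1) ↪ O) := by
    apply Function.Embedding.nonempty_of_card_le
    rw [Fintype.card_fin, Fintype.card_coe]
    exact h1
  obtain ⟨f⟩ := h2
  refine ⟨f.trans (Function.Embedding.subtype _), fun k l h => ?_⟩
  have h3 : ((f k : O) : Fin M) ∈ Finset.univ \ Finset.univ.map e := by
    rw [← hO]
    exact (f k).2
  rw [Finset.mem_sdiff] at h3
  apply h3.2
  rw [Finset.mem_map]
  exact ⟨l, Finset.mem_univ l, h.symm⟩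

/-- the ones outside the blocks `e k` and `j k` -/
private def rest {P M : ℕ} (e j : Fin (P + 1) ↪ Fin M) (c : Fin M → Bool) : ℕ :=
  (Finset.univ.filter fun i => ((∀ k, e k ≠ i) ∧ ∀ k, j k ≠ i) ∧ c i = true).card

/-- the number of ones to be placed at the coordinates `j k` -/
private def need {P M : ℕ} (e j : Fin (P + 1) ↪ Fin M) (c : Fin M → Bool) : ℕ :=
  (1 + (P + 2) - rest e j c % (P + 2)) % (P + 2)

open Classical in
/-- the repaired column -/
private noncomputable def fix {P M : ℕ} (e j : Fin (P + 1) ↪ Fin M) (c : Fin M → Bool) :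
    Fin M → Bool := fun i =>
  if h : ∃ k, e k = i then decide ((h.choose : ℕ) < P)
  else if h : ∃ k, j k = i then decide ((h.choose : ℕ) < need e j c)
  else c i

private theorem fix_e {P M : ℕ} (e j : Fin (P + 1) ↪ Fin M) (c : Fin M → Bool)
    (k : Fin (P + 1)) : fix e j c (e k) = decide ((k : ℕ) < P) := by
  unfold fix
  have h : ∃ k', e k' = e k := ⟨k, rfl⟩
  rw [dif_pos h]
  have h1 : h.choose = k := e.injective h.choose_spec
  rw [h1]

private theorem fix_j {P M : ℕ} (e j : Fin (P + 1) ↪ Fin M) (hj : ∀ k l, j k ≠ e l)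
    (c : Fin M → Bool) (k : Fin (P + 1)) :
    fix e j c (j k) = decide ((k : ℕ) < need e j c) := by
  unfold fix
  have h0 : ¬ ∃ k', e k' = j k := by
    rintro ⟨l, hl⟩
    exact hj k l hl.symm
  have h : ∃ k', j k' = j k := ⟨k, rfl⟩
  rw [dif_neg h0, dif_pos h]
  have h1 : h.choose = k := j.injective h.choose_spec
  rw [h1]

private theorem fix_o {P M : ℕ} (e j : Fin (P + 1) ↪ Fin M) (c : Fin M → Bool) (i : Fin M)
    (h1 : ∀ k, e k ≠ i) (h2 : ∀ k, j k ≠ i) : fix e j c i = c i := by
  unfold fix
  rw [dif_neg (by push Not; exact h1), dif_neg (by push Not; exact h2)]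

private theorem fix_rlv {P M : ℕ} (e j : Fin (P + 1) ↪ Fin M) (hj : ∀ k l, j k ≠ e l)
    (c : Fin M → Bool) : Rlv e (fix e j c) := by
  classical
  unfold Rlv
  have h1 : (Finset.univ.filter fun i => (∀ k, e k ≠ i) ∧ fix e j c i = true) =
      (Finset.univ.filter fun i => ((∀ k, e k ≠ i) ∧ ∀ k, j k ≠ i) ∧ c i = true) ∪
      (Finset.univ.filter fun k : Fin (P + 1) => (k : ℕ) < need e j c).map j := by
    ext i
    simp only [Finset.mem_union, Finset.mem_map, Finset.mem_filter, Finset.mem_univ, true_and]
    constructor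
    · rintro ⟨h1, h2⟩
      by_cases h3 : ∀ k, j k ≠ i
      · left
        rw [fix_o e j c i h1 h3] at h2
        exact ⟨⟨h1, h3⟩, h2⟩
      · right
        push Not at h3
        obtain ⟨k, hk⟩ := h3
        refine ⟨k, ?_, hk⟩
        rw [← hk, fix_j e j hj c k] at h2
        exact of_decide_eq_true h2
    · rintro (⟨⟨h1, h3⟩, h2⟩ | ⟨k, hk, rfl⟩)
      · refine ⟨h1, ?_⟩
        rw [fix_o e j c i h1 h3]
        exact h2
      · refine ⟨fun l h => hj k l h.symm, ?_⟩
        rw [fix_j e j hj c k]
        exact decide_eq_true hk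
  have h2 : Disjoint
      (Finset.univ.filter fun i => ((∀ k, e k ≠ i) ∧ ∀ k, j k ≠ i) ∧ c i = true)
      ((Finset.univ.filter fun k : Fin (P + 1) => (k : ℕ) < need e j c).map j) := by
    rw [Finset.disjoint_left]
    intro i hi hi'
    simp only [Finset.mem_map, Finset.mem_filter, Finset.mem_univ, true_and] at hi hi'
    obtain ⟨k, _, hk⟩ := hi'
    exact hi.1.2 k hk
  have h3 : need e j c < P + 2 := Nat.mod_lt _ (by omega)
  have h4 : (Finset.univ.filter fun k : Fin (P + 1) => (k : ℕ) < need e j c).card =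
      need e j c := by
    have h5 : (Finset.univ.filter fun k : Fin (P + 1) => (k : ℕ) < need e j c).card =
        (Finset.range (need e j c)).card := by
      apply Finset.card_bij (fun (k : Fin (P + 1)) _ => (k : ℕ))
      · intro k hk
        rw [Finset.mem_filter] at hk
        exact Finset.mem_range.mpr hk.2
      · intro a _ b _ hab
        exact Fin.ext hab
      · intro b hb
        rw [Finset.mem_range] at hb
        exact ⟨⟨b, by omega⟩, by simp [hb], rfl⟩
    rw [h5, Finset.card_range]
  rw [h1, Finset.card_union_of_disjoint h2, Finset.card_map, h4]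
  change (rest e j c + need e j c) % (P + 2) = 1
  unfold need
  generalize rest e j c = r
  have h6 : r % (P + 2) < P + 2 := Nat.mod_lt _ (by omega)
  rw [Nat.add_mod_mod]
  have h7 : r + (1 + (P + 2) - r % (P + 2)) = 1 + (P + 2) * (r / (P + 2) + 1) := by
    have h8 := Nat.div_add_mod r (P + 2)
    have h9 : (P + 2) * (r / (P + 2) + 1) = (P + 2) * (r / (P + 2)) + (P + 2) := by ring
    omega
  rw [h7, Nat.add_mul_mod_self_left, Nat.mod_eq_of_lt (by omega)]

private theorem card_two {P M : ℕ} (e j : Fin (P + 1) ↪ Fin M) (d : Fin M → Bool)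
    (s : Finset (Fin M → Bool)) (hs : ∀ c ∈ s, fix e j c = d) : s.card ≤ 4 ^ (P + 1) := by
  classical
  have h1 : s.card ≤ Fintype.card ((Fin (P + 1) → Bool) × (Fin (P + 1) → Bool)) := by
    rw [← Finset.card_univ]
    apply Finset.card_le_card_of_injOn (fun c => (fun k => c (e k), fun k => c (j k)))
    · intro c _
      exact Finset.mem_coe.mpr (Finset.mem_univ _)
    · intro c hc c' hc' h
      have hc1 := hs c hc
      have hc2 := hs c' hc'
      rw [Prod.mk.injEq] at h
      funext i
      by_cases h3 : ∀ k, e k ≠ i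
      · by_cases h4 : ∀ k, j k ≠ i
        · rw [← fix_o e j c i h3 h4, ← fix_o e j c' i h3 h4, hc1, hc2]
        · push Not at h4
          obtain ⟨k, rfl⟩ := h4
          exact congrFun h.2 k
      · push Not at h3
        obtain ⟨k, rfl⟩ := h3
        exact congrFun h.1 k
  refine h1.trans (le_of_eq ?_)
  rw [Fintype.card_prod, Fintype.card_fun, Fintype.card_bool, Fintype.card_fin, ← mul_pow]
  norm_num

theorem onePs {P M : ℕ} (hP : 1 ≤ P) (hM : 2 * (P + 1) ≤ M) (e : Fin (P + 1) ↪ Fin M) :
    OneP e ⊆ NzP (P + 2) M ∧ OtP e ⊆ NzP (P + 2) M ∧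
      (NzP (P + 2) M).card ≤ 4 ^ (P + 1) * (OneP e).card ∧
      (NzP (P + 2) M).card ≤ 4 ^ (P + 1) * (OtP e).card := by
  classical
  obtain ⟨j, hj⟩ := exists_outer hM e
  have h3 : (NzP (P + 2) M).card ≤ 4 ^ (P + 1) * (OneP e).card := by
    apply Finset.card_le_mul_card_image_of_maps_to (f := fix e j)
    · intro c _
      unfold OneP
      rw [Finset.mem_filter]
      refine ⟨Finset.mem_univ _, fix_rlv e j hj c, fun k => ?_, ?_⟩
      · rw [fix_e e j c]
        exact decide_eq_true k.2
      · rw [fix_e e j c]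
        simp
    · intro d _
      exact card_two e j d _ fun c hc => (Finset.mem_filter.mp hc).2
  have h4 : (OneP e).card ≤ (OtP e).card := by
    set a : Fin M := e (Fin.castSucc ⟨0, hP⟩) with ha
    apply Finset.card_le_card_of_injOn (fun c => Function.update c a false)
    · intro c hc
      have hc' := (Finset.mem_filter.mp (Finset.mem_coe.mp hc)).2
      rw [Finset.mem_coe]
      unfold OtP
      rw [Finset.mem_filter]
      refine ⟨Finset.mem_univ _, ?_, fun h => ?_⟩
      · have h5 : (Finset.univ.filter fun i => (∀ k, e k ≠ i) ∧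
            Function.update c a false i = true) =
            (Finset.univ.filter fun i => (∀ k, e k ≠ i) ∧ c i = true) := by
          ext i
          simp only [Finset.mem_filter, Finset.mem_univ, true_and]
          constructor
          · rintro ⟨h6, h7⟩
            rw [Function.update_of_ne (fun h8 => h6 _ h8.symm)] at h7
            exact ⟨h6, h7⟩
          · rintro ⟨h6, h7⟩
            rw [Function.update_of_ne (fun h8 => h6 _ h8.symm)]
            exact ⟨h6, h7⟩
        unfold Rlv
        rw [h5]
        exact hc'.1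
      · have h6 : Function.update c a false a = true := h ⟨0, hP⟩
        rw [Function.update_self] at h6
        exact Bool.false_ne_true h6
    · intro c hc c' hc' h
      have h1 := (Finset.mem_filter.mp (Finset.mem_coe.mp hc)).2.2.1 ⟨0, hP⟩
      have h2 := (Finset.mem_filter.mp (Finset.mem_coe.mp hc')).2.2.1 ⟨0, hP⟩
      funext i
      by_cases hi : i = a
      · rw [hi, ha, h1, h2]
      · have h5 := congrFun h i
        simp only at h5
        rwa [Function.update_of_ne hi, Function.update_of_ne hi] at h5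
  refine ⟨fun c hc => ?_, fun c hc => ?_, h3, h3.trans (Nat.mul_le_mul_left _ h4)⟩
  · have hc' := (Finset.mem_filter.mp hc).2
    unfold NzP
    rw [Finset.mem_filter]
    refine ⟨Finset.mem_univ _, notAll e c hc'.1 fun h => ?_⟩
    have h5 := h (Fin.last P)
    rw [hc'.2.2] at h5
    exact Bool.false_ne_true h5
  · have hc' := (Finset.mem_filter.mp hc).2
    unfold NzP
    rw [Finset.mem_filter]
    exact ⟨Finset.mem_univ _, notAll e c hc'.1 fun h => hc'.2 fun k => h _⟩

end Pool.Agent.SW
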