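import Mathlib
import Pool.Agent.Lib.MP_69a69c_lc_SW.PatW
import Pool.Agent.Lib.MP_0a1b52_lc_RQ.Disc

/-!
# Sets which are closed under stars in a class of matrices with given groups
-/

set_option autoImplicit false

namespace Pool.Agent.SW

open Finset

open Classical in
/-- the places of `I` at which the matrix has a relevant column -/
noncomputable def rl {P N M : ℕ} (e : Fin (P + 1) ↪ Fin M) (I : Finset (Fin N))
    (u : Fin N → Fin M → Bool) : Finset (Fin N) := I.filter fun t => Rlv e (u t)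

open Classical in
/-- the places of `I` at which the matrix has a column in `OneP` -/
noncomputable def on {P N M : ℕ} (e : Fin (P + 1) ↪ Fin M) (I : Finset (Fin N))
    (u : Fin N → Fin M → Bool) : Finset (Fin N) := I.filter fun t => u t ∈ OneP e

/-- `u` and `u'` agree except in the blocks `e k` at the places of the groups -/
def Agr {P N M m : ℕ} (e : Fin (P + 1) ↪ Fin M) (γ : Fin N → Option (Fin m))
    (u u' : Fin N → Fin M → Bool) : Prop :=
  ∀ t i, ¬ (γ t ≠ none ∧ ∃ k, e k = i) → u' t i = u t i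

open Classical in
/-- the class of `u` for the groups `γ` -/
noncomputable def cls {P N M m : ℕ} (B : ℕ) (e : Fin (P + 1) ↪ Fin M) (I : Finset (Fin N))
    (γ : Fin N → Option (Fin m)) (u : Fin N → Fin M → Bool) : Finset (Fin N → Fin M → Bool) :=
  univ.filter fun u' => NoC (P + 2) u' ∧ γ ∈ Gam m B (rl e I u') (on e I u') ∧ Agr e γ u u'

private theorem rlv_congr {P M : ℕ} (e : Fin (P + 1) ↪ Fin M) (c c' : Fin M → Bool)
    (h : ∀ i, (∀ k, e k ≠ i) → c i = c' i) : Rlv e c ↔ Rlv e c' := by
  unfold Rlv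
  have : (univ.filter fun i => (∀ k, e k ≠ i) ∧ c i = true) =
      (univ.filter fun i => (∀ k, e k ≠ i) ∧ c' i = true) := by
    apply filter_congr
    intro i _
    constructor
    · rintro ⟨h1, h2⟩
      exact ⟨h1, by rw [← h i h1]; exact h2⟩
    · rintro ⟨h1, h2⟩
      exact ⟨h1, by rw [h i h1]; exact h2⟩
  rw [this]

private theorem mem_oneP {P M : ℕ} (e : Fin (P + 1) ↪ Fin M) (c : Fin M → Bool) :
    c ∈ OneP e ↔ Rlv e c ∧ (∀ k : Fin P, c (e k.castSucc) = true) ∧
      c (e (Fin.last P)) = false := by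
  simp only [OneP, mem_filter, mem_univ, true_and]

private theorem mem_gam {m B N : ℕ} {R C : Finset (Fin N)} {γ : Fin N → Option (Fin m)} :
    γ ∈ Gam m B R C ↔ ∀ j, (Finset.univ.filter fun t => γ t = some j).card = B ∧
    (∀ t, γ t = some j → t ∈ R) ∧ (C.filter fun t => γ t = some j).card = 1 := by
  simp only [Gam, mem_filter, mem_univ, true_and]

private theorem mem_cls {P N M m B : ℕ} (e : Fin (P + 1) ↪ Fin M) (I : Finset (Fin N))
    (γ : Fin N → Option (Fin m)) (u u' : Fin N → Fin M → Bool) :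
    u' ∈ cls B e I γ u ↔ NoC (P + 2) u' ∧ γ ∈ Gam m B (rl e I u') (on e I u') ∧ Agr e γ u u' := by
  simp only [cls, mem_filter, mem_univ, true_and]

private theorem rl_congr {P N M m : ℕ} (e : Fin (P + 1) ↪ Fin M) (I : Finset (Fin N))
    (γ : Fin N → Option (Fin m)) (u u' : Fin N → Fin M → Bool) (h : Agr e γ u u') :
    rl e I u' = rl e I u := by
  classical
  unfold rl
  apply filter_congr
  intro t _
  apply rlv_congr
  intro i hi
  exact h t i fun h1 => by
    obtain ⟨k, hk⟩ := h1.2
    exact hi k hk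

private theorem card_split {N m : ℕ} (γ : Fin N → Option (Fin m)) (C : Finset (Fin N))
    (h : ∀ j, (C.filter fun t => γ t = some j).card = 1) :
    C.card = (C.filter fun t => γ t = none).card + m := by
  classical
  rw [card_eq_sum_card_fiberwise (f := γ) (t := univ) (fun _ _ => mem_univ _)]
  rw [Fintype.sum_option]
  congr 1
  rw [sum_congr rfl fun j _ => h j]
  simp

/-- the numbers of places are the same in a class -/
theorem cls_card {P N M m B : ℕ} (e : Fin (P + 1) ↪ Fin M) (I : Finset (Fin N))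
    (γ : Fin N → Option (Fin m)) (u u' : Fin N → Fin M → Bool)
    (hγ : γ ∈ Gam m B (rl e I u) (on e I u)) (hu : u' ∈ cls B e I γ u) :
    rl e I u' = rl e I u ∧ (on e I u').card = (on e I u).card := by
  classical
  rw [mem_cls] at hu
  obtain ⟨_, h2, h3⟩ := hu
  refine ⟨rl_congr e I γ u u' h3, ?_⟩
  rw [mem_gam] at hγ h2
  rw [card_split γ _ fun j => (hγ j).2.2, card_split γ _ fun j => (h2 j).2.2]
  congr 2
  ext t
  simp only [mem_filter]
  constructor
  · rintro ⟨h4, h5⟩
    refine ⟨?_, h5⟩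
    have : u' t = u t := by
      funext i
      exact h3 t i fun h6 => h6.1 h5
    unfold on at h4 ⊢
    rw [mem_filter] at h4 ⊢
    rw [← this]
    exact h4
  · rintro ⟨h4, h5⟩
    refine ⟨?_, h5⟩
    have : u' t = u t := by
      funext i
      exact h3 t i fun h6 => h6.1 h5
    unfold on at h4 ⊢
    rw [mem_filter] at h4 ⊢
    rw [this]
    exact h4

open Classical in
/-- the matrix with the rows `w k` in the blocks `e k` -/
private noncomputable def mx {P N M : ℕ} (e : Fin (P + 1) ↪ Fin M) (u : Fin N → Fin M → Bool)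
    (w : Fin (P + 1) → Fin N → Bool) : Fin N → Fin M → Bool :=
  fun t i => if h : ∃ k, e k = i then w h.choose t else u t i

private theorem mx_e {P N M : ℕ} (e : Fin (P + 1) ↪ Fin M) (u : Fin N → Fin M → Bool)
    (w : Fin (P + 1) → Fin N → Bool) (t : Fin N) (k : Fin (P + 1)) :
    mx e u w t (e k) = w k t := by
  unfold mx
  have h : ∃ k', e k' = e k := ⟨k, rfl⟩
  rw [dif_pos h]
  have : h.choose = k := e.injective h.choose_spec
  rw [this]

private theorem mx_off {P N M : ℕ} (e : Fin (P + 1) ↪ Fin M) (u : Fin N → Fin M → Bool)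
    (w : Fin (P + 1) → Fin N → Bool) (t : Fin N) (i : Fin M) (hi : ∀ k, e k ≠ i) :
    mx e u w t i = u t i := by
  unfold mx
  rw [dif_neg]
  rintro ⟨k, hk⟩
  exact hi k hk

/-- the rows of the blocks `e k` -/
private def rw' {P N M : ℕ} (e : Fin (P + 1) ↪ Fin M) (v : Fin N → Fin M → Bool) :
    (Fin P → Fin N → Bool) × (Fin N → Bool) :=
  (fun k t => v t (e k.castSucc), fun t => v t (e (Fin.last P)))

/-- all rows -/
private def al' {P N : ℕ} (q : (Fin P → Fin N → Bool) × (Fin N → Bool)) :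
    Fin (P + 1) → Fin N → Bool := Fin.snoc (α := fun _ => Fin N → Bool) q.1 q.2

private theorem al_cast {P N : ℕ} (q : (Fin P → Fin N → Bool) × (Fin N → Bool)) (k : Fin P) :
    al' q k.castSucc = q.1 k := by
  unfold al'
  rw [Fin.snoc_castSucc]

private theorem al_last {P N : ℕ} (q : (Fin P → Fin N → Bool) × (Fin N → Bool)) :
    al' q (Fin.last P) = q.2 := by
  unfold al'
  rw [Fin.snoc_last]

private theorem mx_rw {P N M : ℕ} (e : Fin (P + 1) ↪ Fin M) (u v : Fin N → Fin M → Bool)
    (h : ∀ t i, (∀ k, e k ≠ i) → v t i = u t i) : mx e u (al' (rw' e v)) = v := by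
  funext t i
  by_cases hi : ∃ k, e k = i
  · obtain ⟨k, rfl⟩ := hi
    rw [mx_e]
    induction k using Fin.lastCases with
    | last => rw [al_last]; rfl
    | cast k => rw [al_cast]; rfl
  · push Not at hi
    rw [mx_off e u _ t i hi, h t i hi]

private theorem rw_mx {P N M : ℕ} (e : Fin (P + 1) ↪ Fin M) (u : Fin N → Fin M → Bool)
    (q : (Fin P → Fin N → Bool) × (Fin N → Bool)) : rw' e (mx e u (al' q)) = q := by
  unfold rw'
  apply Prod.ext
  · funext k t
    simp only
    rw [mx_e, al_cast]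
  · funext t
    simp only
    rw [mx_e, al_last]

private theorem mem_adm' {P N m : ℕ} (γ : Fin N → Option (Fin m)) (b : Fin P → Fin N → Bool)
    (bY : Fin N → Bool) (q : (Fin P → Fin N → Bool) × (Fin N → Bool)) :
    q ∈ RQ.Adm γ b bY ↔ RQ.One γ q.1 ∧ (∀ k, RQ.Off γ (b k) (q.1 k)) ∧ RQ.Off γ bY q.2 := by
  classical
  unfold RQ.Adm
  rw [mem_filter]
  simp only [mem_univ, true_and]

/-- the pairs which give the matrices of the class -/
private def Nul {P N m : ℕ} (γ : Fin N → Option (Fin m))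
    (q : (Fin P → Fin N → Bool) × (Fin N → Bool)) : Prop :=
  ∀ t, γ t ≠ none → (∀ k, q.1 k t = true) → q.2 t = false

private theorem mx_cls {P N M m B : ℕ} (e : Fin (P + 1) ↪ Fin M)
    (I : Finset (Fin N)) (γ : Fin N → Option (Fin m)) (u : Fin N → Fin M → Bool)
    (hu : NoC (P + 2) u) (hγ : γ ∈ Gam m B (rl e I u) (on e I u))
    (q : (Fin P → Fin N → Bool) × (Fin N → Bool))
    (hq : q ∈ RQ.Adm γ (fun k t => u t (e k.castSucc)) (fun t => u t (e (Fin.last P))))
    (hn : Nul γ q) : mx e u (al' q) ∈ cls B e I γ u := by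
  classical
  rw [mem_adm'] at hq
  obtain ⟨h1, h2, h3⟩ := hq
  have hag : Agr e γ u (mx e u (al' q)) := by
    intro t i hti
    by_cases hi : ∃ k, e k = i
    · have ht : γ t = none := by
        by_contra h
        exact hti ⟨h, hi⟩
      obtain ⟨k, rfl⟩ := hi
      rw [mx_e]
      induction k using Fin.lastCases with
      | last => rw [al_last]; exact h3 t ht
      | cast k => rw [al_cast]; exact h2 k t ht
    · push Not at hi
      exact mx_off e u _ t i hi
  have hrl := rl_congr e I γ u _ hag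
  rw [mem_gam] at hγ
  have hrlv : ∀ t j, γ t = some j → t ∈ I ∧ Rlv e (mx e u (al' q) t) := by
    intro t j htj
    have h4 := (hγ j).2.1 t htj
    rw [← hrl] at h4
    unfold rl at h4
    rw [mem_filter] at h4
    exact h4
  rw [mem_cls]
  refine ⟨?_, ?_, hag⟩
  · intro t
    cases ht : γ t with
    | none =>
      have : mx e u (al' q) t = u t := by
        funext i
        exact hag t i fun h => h.1 ht
      rw [this]
      exact hu t
    | some j =>
      apply notAll e _ (hrlv t j ht).2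
      intro h5
      have h6 : q.2 t = false := by
        apply hn t (by rw [ht]; exact Option.some_ne_none j)
        intro k
        have := h5 k.castSucc
        rw [mx_e, al_cast] at this
        exact this
      have h7 := h5 (Fin.last P)
      rw [mx_e, al_last, h6] at h7
      exact Bool.false_ne_true h7
  · rw [mem_gam]
    intro j
    refine ⟨(hγ j).1, ?_, ?_⟩
    · rw [hrl]
      exact (hγ j).2.1
    · rw [card_eq_one]
      obtain ⟨t, ⟨ht1, ht2⟩, ht3⟩ := h1 j
      refine ⟨t, ?_⟩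
      ext s
      rw [mem_filter, mem_singleton]
      unfold on
      rw [mem_filter, mem_oneP]
      constructor
      · rintro ⟨⟨_, _, h4, _⟩, h5⟩
        apply ht3 s
        refine ⟨h5, fun k => ?_⟩
        have := h4 k
        rw [mx_e, al_cast] at this
        exact this
      · rintro rfl
        refine ⟨⟨(hrlv s j ht1).1, (hrlv s j ht1).2, fun k => ?_, ?_⟩, ht1⟩
        · rw [mx_e, al_cast]
          exact ht2 k
        · rw [mx_e, al_last]
          exact hn s (by rw [ht1]; exact Option.some_ne_none j) ht2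

private theorem rw_adm {P N M m B : ℕ} (e : Fin (P + 1) ↪ Fin M)
    (I : Finset (Fin N)) (γ : Fin N → Option (Fin m)) (u v : Fin N → Fin M → Bool)
    (hv : v ∈ cls B e I γ u) :
    rw' e v ∈ RQ.Adm γ (fun k t => u t (e k.castSucc)) (fun t => u t (e (Fin.last P))) ∧
      mx e u (al' (rw' e v)) = v := by
  classical
  rw [mem_cls] at hv
  obtain ⟨h1, h2, h3⟩ := hv
  rw [mem_gam] at h2
  refine ⟨?_, mx_rw e u v fun t i hi => h3 t i fun h => ?_⟩
  · rw [mem_adm']
    refine ⟨?_, ?_, ?_⟩
    · intro j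
      obtain ⟨t, ht⟩ := card_eq_one.1 (h2 j).2.2
      have key : ∀ s, (s ∈ on e I v ∧ γ s = some j) ↔ s = t := by
        intro s
        have h4 := Finset.ext_iff.1 ht s
        rw [mem_filter, mem_singleton] at h4
        exact h4
      have ht0 := (key t).2 rfl
      have ht1 := ht0.1
      unfold on at ht1
      rw [mem_filter, mem_oneP] at ht1
      refine ⟨t, ⟨ht0.2, fun k => ht1.2.2.1 k⟩, ?_⟩
      rintro s ⟨hs1, hs2⟩
      apply (key s).1
      refine ⟨?_, hs1⟩
      have hs3 := (h2 j).2.1 s hs1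
      unfold rl at hs3
      rw [mem_filter] at hs3
      unfold on
      rw [mem_filter, mem_oneP]
      refine ⟨hs3.1, hs3.2, fun k => hs2 k, ?_⟩
      by_contra hc
      rw [Bool.not_eq_false] at hc
      apply h1 s
      apply allOne e _ hs3.2
      intro k
      induction k using Fin.lastCases with
      | last => exact hc
      | cast k => exact hs2 k
    · intro k t ht
      exact h3 t _ fun h => h.1 ht
    · intro t ht
      exact h3 t _ fun h => h.1 ht
  · obtain ⟨k, hk⟩ := h.2
    exact hi k hk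

private theorem adm_le {P N M m B : ℕ} (e : Fin (P + 1) ↪ Fin M)
    (I : Finset (Fin N)) (γ : Fin N → Option (Fin m)) (u : Fin N → Fin M → Bool)
    (hu : NoC (P + 2) u) (hγ : γ ∈ Gam m B (rl e I u) (on e I u)) :
    (RQ.Adm γ (fun k t => u t (e k.castSucc)) (fun t => u t (e (Fin.last P)))).card ≤
      2 ^ m * (cls B e I γ u).card := by
  classical
  obtain ⟨y0, hy0⟩ : ∃ y0 : (Fin P → Fin N → Bool) × (Fin N → Bool) →
      (Fin P → Fin N → Bool) × (Fin N → Bool), y0 = fun q =>
      (q.1, fun t => if γ t ≠ none ∧ ∀ k, q.1 k t = true then false else q.2 t) := ⟨_, rfl⟩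
  obtain ⟨bt, hbt⟩ : ∃ bt : (Fin P → Fin N → Bool) × (Fin N → Bool) → Fin m → Bool,
      bt = fun q j => decide (∃ t, γ t = some j ∧ (∀ k, q.1 k t = true) ∧ q.2 t = true) :=
    ⟨_, rfl⟩
  have h1 : ∀ q ∈ RQ.Adm γ (fun k t => u t (e k.castSucc)) (fun t => u t (e (Fin.last P))),
      mx e u (al' (y0 q)) ∈ cls B e I γ u := by
    intro q hq
    apply mx_cls e I γ u hu hγ
    · rw [mem_adm'] at hq ⊢
      refine ⟨?_, ?_, ?_⟩
      · rw [hy0]
        exact hq.1
      · rw [hy0]
        exact hq.2.1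
      · intro t ht
        rw [hy0]
        simp only
        rw [if_neg fun h => h.1 ht]
        exact hq.2.2 t ht
    · intro t ht hk
      rw [hy0] at hk ⊢
      simp only
      rw [if_pos ⟨ht, hk⟩]
  have h2 : Set.InjOn (fun q => (mx e u (al' (y0 q)), bt q))
      (RQ.Adm γ (fun k t => u t (e k.castSucc)) (fun t => u t (e (Fin.last P)))) := by
    intro q hq q' hq' hqq
    rw [mem_coe, mem_adm'] at hq hq'
    simp only [Prod.mk.injEq] at hqq
    have h3 : y0 q = y0 q' := by
      rw [← rw_mx e u (y0 q), hqq.1, rw_mx]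
    rw [hy0] at h3
    simp only [Prod.mk.injEq] at h3
    obtain ⟨h4, h5⟩ := h3
    apply Prod.ext h4
    funext t
    have h6 := congrFun h5 t
    rw [← h4] at h6
    by_cases hc : γ t ≠ none ∧ ∀ k, q.1 k t = true
    · obtain ⟨j, hj⟩ := Option.ne_none_iff_exists'.1 hc.1
      have key : ∀ p : (Fin P → Fin N → Bool) × (Fin N → Bool), RQ.One γ p.1 →
          (∀ k, p.1 k t = true) → (p.2 t = true ↔ bt p j = true) := by
        intro p hp1 hp2
        rw [hbt]
        simp only [decide_eq_true_eq]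
        constructor
        · intro h
          exact ⟨t, hj, hp2, h⟩
        · rintro ⟨s, hs1, hs2, hs3⟩
          obtain ⟨r, _, hr⟩ := hp1 j
          have e1 : s = r := hr s ⟨hs1, hs2⟩
          have e2 : t = r := hr t ⟨hj, hp2⟩
          rw [e2, ← e1]
          exact hs3
      rw [Bool.eq_iff_iff, key q hq.1 hc.2, key q' hq'.1 (by rw [← h4]; exact hc.2), hqq.2]
    · rw [if_neg hc, if_neg hc] at h6
      exact h6
  have h3 := card_le_card_of_injOn (t := cls B e I γ u ×ˢ (univ : Finset (Fin m → Bool)))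
    (fun q => (mx e u (al' (y0 q)), bt q)) (fun q hq => by
      rw [mem_coe, mem_product]
      exact ⟨h1 q hq, mem_univ _⟩) h2
  refine h3.trans (le_of_eq ?_)
  rw [card_product, card_univ]
  simp only [Fintype.card_fun, Fintype.card_bool, Fintype.card_fin]
  ring

/-- the player `k` may complete the matrix inside `Z` -/
private def Cmp {P N M m : ℕ} (e : Fin (P + 1) ↪ Fin M) (γ : Fin N → Option (Fin m))
    (u : Fin N → Fin M → Bool) (Z : Set (Fin N → Fin M → Bool)) (k : Fin (P + 1))
    (w : Fin (P + 1) → Fin N → Bool) : Prop :=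
  ∃ v ∈ Z, (∀ t i, (∀ k', e k' ≠ i) → v t i = u t i) ∧
    (∀ k', k' ≠ k → ∀ t, v t (e k') = w k' t) ∧ ∀ t, γ t = none → v t (e k) = u t (e k)

private theorem cmp_congr {P N M m : ℕ} (e : Fin (P + 1) ↪ Fin M) (γ : Fin N → Option (Fin m))
    (u : Fin N → Fin M → Bool) (Z : Set (Fin N → Fin M → Bool)) (k : Fin (P + 1))
    (w w' : Fin (P + 1) → Fin N → Bool) (h : ∀ k', k' ≠ k → w k' = w' k') :
    Cmp e γ u Z k w ↔ Cmp e γ u Z k w' := by
  unfold Cmp
  constructor
  · rintro ⟨v, h1, h2, h3, h4⟩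
    exact ⟨v, h1, h2, fun k' hk t => by rw [h3 k' hk, h k' hk], h4⟩
  · rintro ⟨v, h1, h2, h3, h4⟩
    exact ⟨v, h1, h2, fun k' hk t => by rw [h3 k' hk, h k' hk], h4⟩

/-- a set which is closed under stars is small in each class -/
theorem cls_star {P N M m : ℕ} (hP : 1 ≤ P) (hm : 1 ≤ m) (e : Fin (P + 1) ↪ Fin M)
    (I : Finset (Fin N)) (γ : Fin N → Option (Fin m)) (u : Fin N → Fin M → Bool)
    (hu : NoC (P + 2) u)
    (hγ : γ ∈ Gam m (4 ^ (P + 3)) (rl e I u) (on e I u)) (Z : Set (Fin N → Fin M → Bool))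
    (hstar : ∀ (u : Fin N → Fin M → Bool) (v : Fin (P + 1) → Fin N → Fin M → Bool),
      (∀ j t i, ¬ (i = e j ∧ t ∈ I) → v j t i = u t i) → (∀ j, v j ∈ Z) → u ∈ Z)
    (hZ : ∀ X ∈ Z, NoC (P + 2) X) [DecidablePred (· ∈ Z)] :
    2 ^ (m + 1) * ((cls (4 ^ (P + 3)) e I γ u).filter (· ∈ Z)).card ≤
      (cls (4 ^ (P + 3)) e I γ u).card := by
  classical
  obtain ⟨A, hA⟩ : ∃ A, A = RQ.Adm γ (fun (k : Fin P) t => u t (e k.castSucc))
    (fun t => u t (e (Fin.last P))) := ⟨_, rfl⟩
  have hγ' := hγ
  rw [mem_gam] at hγ'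
  have hI : ∀ t, γ t ≠ none → t ∈ I := by
    intro t ht
    obtain ⟨j, hj⟩ := Option.ne_none_iff_exists'.1 ht
    have h4 := (hγ' j).2.1 t hj
    unfold rl at h4
    rw [mem_filter] at h4
    exact h4.1
  have hrlv : ∀ t, γ t ≠ none → Rlv e (u t) := by
    intro t ht
    obtain ⟨j, hj⟩ := Option.ne_none_iff_exists'.1 ht
    have h4 := (hγ' j).2.1 t hj
    unfold rl at h4
    rw [mem_filter] at h4
    exact h4.2
  -- the indicator of `Z` is a product
  have hprod : ∀ q ∈ A, (∀ k, Cmp e γ u Z k (al' q)) ↔ mx e u (al' q) ∈ Z := by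
    intro q hq
    rw [hA, mem_adm'] at hq
    constructor
    · intro h
      choose v hv using h
      apply hstar _ v _ fun j => (hv j).1
      intro j t i hji
      by_cases hi : ∃ k, e k = i
      · obtain ⟨k, rfl⟩ := hi
        rw [mx_e]
        by_cases hkj : k = j
        · subst hkj
          have ht : γ t = none := by
            by_contra hc
            exact hji ⟨rfl, hI t hc⟩
          rw [(hv k).2.2.2 t ht]
          induction k using Fin.lastCases with
          | last => rw [al_last]; exact (hq.2.2 t ht).symm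
          | cast k => rw [al_cast]; exact (hq.2.1 k t ht).symm
        · exact (hv j).2.2.1 k hkj t
      · push Not at hi
        rw [mx_off e u _ t i hi]
        exact (hv j).2.1 t i hi
    · intro h k
      refine ⟨_, h, fun t i hi => mx_off e u _ t i hi, fun k' _ t => mx_e e u _ t k', ?_⟩
      intro t ht
      rw [mx_e]
      induction k using Fin.lastCases with
      | last => rw [al_last]; exact hq.2.2 t ht
      | cast k => rw [al_cast]; exact hq.2.1 k t ht
  have hsgn : ∀ q ∈ A, mx e u (al' q) ∈ Z → RQ.sgn γ q.1 q.2 = 1 := by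
    intro q hq hz
    unfold RQ.sgn
    apply prod_eq_one
    intro t _
    rw [if_neg]
    rintro ⟨h1, h2, h3⟩
    apply hZ _ hz t
    apply allOne e
    · rw [rlv_congr e _ (u t) fun i hi => mx_off e u _ t i hi]
      exact hrlv t h1
    · intro k
      rw [mx_e]
      induction k using Fin.lastCases with
      | last => rw [al_last]; exact h3
      | cast k => rw [al_cast]; exact h2 k
  have hdisc := RQ.disc P γ (fun (k : Fin P) t => u t (e k.castSucc))
    (fun t => u t (e (Fin.last P)))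
    (fun k x Y => if Cmp e γ u Z k.castSucc (al' (x, Y)) then (1 : ℝ) else 0)
    (fun x => if Cmp e γ u Z (Fin.last P) (al' (x, fun _ => false)) then (1 : ℝ) else 0)
    (fun k x Y => by split_ifs <;> simp)
    (fun x => by split_ifs <;> simp)
    (fun k x x' Y h => by
      rw [cmp_congr e γ u Z k.castSucc (al' (x, Y)) (al' (x', Y))]
      intro k' hk'
      induction k' using Fin.lastCases with
      | last => rw [al_last, al_last]
      | cast k' =>
        rw [al_cast, al_cast]
        exact h k' fun hc => hk' (by rw [hc]))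
  rw [← hA] at hdisc
  have hsum : ∑ q ∈ A, RQ.sgn γ q.1 q.2 *
      (if Cmp e γ u Z (Fin.last P) (al' (q.1, fun _ => false)) then (1 : ℝ) else 0) *
      ∏ k : Fin P, (if Cmp e γ u Z k.castSucc (al' (q.1, q.2)) then (1 : ℝ) else 0) =
      ((A.filter fun q => mx e u (al' q) ∈ Z).card : ℝ) := by
    rw [card_filter, Nat.cast_sum]
    apply sum_congr rfl
    intro q hq
    have h1 : Cmp e γ u Z (Fin.last P) (al' (q.1, fun _ => false)) ↔
        Cmp e γ u Z (Fin.last P) (al' q) := by
      apply cmp_congr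
      intro k' hk'
      induction k' using Fin.lastCases with
      | last => exact absurd rfl hk'
      | cast k' => rw [al_cast, al_cast]
    rw [prod_ite_zero]
    simp only [prod_const_one, mem_univ, forall_const]
    by_cases hz : mx e u (al' q) ∈ Z
    · have h2 := (hprod q hq).2 hz
      rw [if_pos (h1.2 (h2 _)), if_pos fun k => h2 _, if_pos hz, hsgn q hq hz]
      simp
    · have h2 : ¬ ∀ k, Cmp e γ u Z k (al' q) := fun h => hz ((hprod q hq).1 h)
      rw [if_neg hz]
      by_cases h3 : Cmp e γ u Z (Fin.last P) (al' q)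
      · rw [if_neg (c := ∀ k : Fin P, Cmp e γ u Z k.castSucc (al' (q.1, q.2)))]
        · simp
        · intro h4
          apply h2
          intro k
          induction k using Fin.lastCases with
          | last => exact h3
          | cast k => exact h4 k
      · rw [if_neg (c := Cmp e γ u Z (Fin.last P) (al' (q.1, fun _ => false)))
          fun h => h3 (h1.1 h)]
        simp
  rw [hsum] at hdisc
  have hbc : ∀ j, RQ.bc γ j = 4 ^ (P + 3) := by
    intro j
    have h4 := (hγ' j).1
    unfold RQ.bc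
    convert h4
  have hq : ∀ j : Fin m, ((2 : ℝ) ^ P - 1) / Real.sqrt (RQ.bc γ j) ≤ 1 / 8 := by
    intro j
    rw [hbc j]
    have e1 : Real.sqrt (((4 ^ (P + 3) : ℕ) : ℝ)) = 2 ^ (P + 3) := by
      rw [show (((4 ^ (P + 3) : ℕ) : ℝ)) = ((2 : ℝ) ^ (P + 3)) ^ 2 by
        push_cast
        rw [← pow_mul, mul_comm, pow_mul]
        norm_num]
      exact Real.sqrt_sq (by positivity)
    rw [e1, div_le_div_iff₀ (by positivity) (by norm_num), pow_add]
    have : (0 : ℝ) < 2 ^ P := by positivity
    nlinarith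
  have hq0 : ∀ j : Fin m, 0 ≤ ((2 : ℝ) ^ P - 1) / Real.sqrt (RQ.bc γ j) := by
    intro j
    apply div_nonneg _ (Real.sqrt_nonneg _)
    have : (1 : ℝ) ≤ 2 ^ P := one_le_pow₀ (by norm_num)
    linarith
  have hpr : ∏ j : Fin m, ((2 : ℝ) ^ P - 1) / Real.sqrt (RQ.bc γ j) ≤ (1 / 8) ^ m := by
    refine (prod_le_prod (fun j _ => hq0 j) fun j _ => hq j).trans ?_
    simp
  have hle1 : ((cls (4 ^ (P + 3)) e I γ u).filter (· ∈ Z)).card ≤
      (A.filter fun q => mx e u (al' q) ∈ Z).card := by
    apply card_le_card_of_injOn (rw' e)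
    · intro v hv
      rw [mem_coe, mem_filter] at hv
      rw [mem_coe, mem_filter]
      have h1 := rw_adm e I γ u v hv.1
      rw [hA]
      exact ⟨h1.1, by rw [h1.2]; exact hv.2⟩
    · intro v hv v' hv' hvv
      rw [mem_coe, mem_filter] at hv hv'
      have h1 := (rw_adm e I γ u v hv.1).2
      have h2 := (rw_adm e I γ u v' hv'.1).2
      calc v = mx e u (al' (rw' e v)) := h1.symm
        _ = mx e u (al' (rw' e v')) := by rw [hvv]
        _ = v' := h2
  have hle2 : A.card ≤ 2 ^ m * (cls (4 ^ (P + 3)) e I γ u).card := by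
    rw [hA]
    exact adm_le e I γ u hu hγ
  have h8 : ((A.filter fun q => mx e u (al' q) ∈ Z).card : ℝ) ≤ A.card * (1 / 8) ^ m := by
    refine ((le_abs_self _).trans hdisc).trans ?_
    exact mul_le_mul_of_nonneg_left hpr (Nat.cast_nonneg _)
  have h9 : ((2 ^ (m + 1) * ((cls (4 ^ (P + 3)) e I γ u).filter (· ∈ Z)).card : ℕ) : ℝ) ≤
      ((cls (4 ^ (P + 3)) e I γ u).card : ℝ) := by
    have c1 : (((cls (4 ^ (P + 3)) e I γ u).filter (· ∈ Z)).card : ℝ) ≤
        ((A.filter fun q => mx e u (al' q) ∈ Z).card : ℝ) := by exact_mod_cast hle1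
    have c2 : (A.card : ℝ) ≤ 2 ^ m * ((cls (4 ^ (P + 3)) e I γ u).card : ℝ) := by
      exact_mod_cast hle2
    have c3 : (0 : ℝ) ≤ (1 / 8) ^ m := by positivity
    have c4 : (((cls (4 ^ (P + 3)) e I γ u).filter (· ∈ Z)).card : ℝ) ≤
        2 ^ m * ((cls (4 ^ (P + 3)) e I γ u).card : ℝ) * (1 / 8) ^ m :=
      (c1.trans h8).trans (mul_le_mul_of_nonneg_right c2 c3)
    have c5 : (2 : ℝ) ^ (m + 1) * (2 ^ m * (1 / 8) ^ m) ≤ 1 := by
      obtain ⟨m', rfl⟩ : ∃ m', m = m' + 1 := ⟨m - 1, by omega⟩
      have : (2 : ℝ) ^ (m' + 1 + 1) * (2 ^ (m' + 1) * (1 / 8) ^ (m' + 1)) =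
          (1 / 2) ^ (m' + 1) * 2 := by
        rw [pow_succ (2 : ℝ) (m' + 1), mul_assoc, mul_comm (2 : ℝ) (2 ^ (m' + 1) * _), ← mul_assoc,
          ← mul_assoc, ← mul_pow, ← mul_pow]
        norm_num
      rw [this, pow_succ]
      have h5 : ((1 : ℝ) / 2) ^ m' ≤ 1 := pow_le_one₀ (by norm_num) (by norm_num)
      linarith
    push_cast
    calc (2 : ℝ) ^ (m + 1) * (((cls (4 ^ (P + 3)) e I γ u).filter (· ∈ Z)).card : ℝ)
        ≤ 2 ^ (m + 1) * (2 ^ m * ((cls (4 ^ (P + 3)) e I γ u).card : ℝ) * (1 / 8) ^ m) :=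
          mul_le_mul_of_nonneg_left c4 (by positivity)
      _ = (2 ^ (m + 1) * (2 ^ m * (1 / 8) ^ m)) * ((cls (4 ^ (P + 3)) e I γ u).card : ℝ) := by
          ring
      _ ≤ 1 * ((cls (4 ^ (P + 3)) e I γ u).card : ℝ) :=
          mul_le_mul_of_nonneg_right c5 (Nat.cast_nonneg _)
      _ = _ := one_mul _
  exact_mod_cast h9

end Pool.Agent.SW
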