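import Mathlib
import Pool.Agent.Lib.MP_69a69c_lc_SW.Defs

/-!
# The number of families of groups
-/

set_option autoImplicit false

namespace Pool.Agent.SW

open Finset

/-- a permutation which moves `C` to `C'` and preserves `R` -/
private theorem GamW_perm {N : ℕ} (R C C' : Finset (Fin N)) (hC : C ⊆ R) (hC' : C' ⊆ R)
    (h : C.card = C'.card) :
    ∃ σ : Equiv.Perm (Fin N), (∀ a, σ a ∈ R ↔ a ∈ R) ∧ ∀ a, σ a ∈ C' ↔ a ∈ C := by
  classical
  have key : ∀ c : Bool × Bool,
      Fintype.card {a : Fin N // (decide (a ∈ C), decide (a ∈ R)) = c} =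
        Fintype.card {a : Fin N // (decide (a ∈ C'), decide (a ∈ R)) = c} := by
    rintro ⟨b1, b2⟩
    rw [Fintype.card_subtype, Fintype.card_subtype]
    have e1 : ∀ (C : Finset (Fin N)), C ⊆ R →
        ((univ : Finset (Fin N)).filter fun a =>
          (decide (a ∈ C), decide (a ∈ R)) = (b1, b2)).card =
        if b1 = true then (if b2 = true then C.card else 0)
        else (if b2 = true then R.card - C.card else N - R.card) := by
      intro C hC
      cases b1 <;> cases b2
      · have e2 : ((univ : Finset (Fin N)).filter fun a =>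
            (decide (a ∈ C), decide (a ∈ R)) = (false, false)) = univ \ R := by
          ext a
          simp only [mem_filter, mem_univ, true_and, Prod.mk.injEq, decide_eq_false_iff_not,
            mem_sdiff]
          exact ⟨fun h => h.2, fun h => ⟨fun h' => h (hC h'), h⟩⟩
        rw [e2, card_sdiff_of_subset (subset_univ R), card_univ, Fintype.card_fin]
        simp
      · have e2 : ((univ : Finset (Fin N)).filter fun a =>
            (decide (a ∈ C), decide (a ∈ R)) = (false, true)) = R \ C := by
          ext a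
          simp only [mem_filter, mem_univ, true_and, Prod.mk.injEq, decide_eq_false_iff_not,
            decide_eq_true_eq, mem_sdiff]
          tauto
        rw [e2, card_sdiff_of_subset hC]
        simp
      · have e2 : ((univ : Finset (Fin N)).filter fun a =>
            (decide (a ∈ C), decide (a ∈ R)) = (true, false)) = ∅ := by
          ext a
          simp only [mem_filter, mem_univ, true_and, Prod.mk.injEq, decide_eq_false_iff_not,
            decide_eq_true_eq, notMem_empty, iff_false, not_and, not_not]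
          exact fun h => hC h
        rw [e2]
        simp
      · have e2 : ((univ : Finset (Fin N)).filter fun a =>
            (decide (a ∈ C), decide (a ∈ R)) = (true, true)) = C := by
          ext a
          simp only [mem_filter, mem_univ, true_and, Prod.mk.injEq, decide_eq_true_eq]
          exact ⟨fun h => h.1, fun h => ⟨h, hC h⟩⟩
        rw [e2]
        simp
    rw [e1 C hC, e1 C' hC', h]
  let σ : Fin N ≃ Fin N := Equiv.ofFiberEquiv
    (f := fun a => (decide (a ∈ C), decide (a ∈ R)))
    (g := fun a => (decide (a ∈ C'), decide (a ∈ R)))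
    (fun c => Fintype.equivOfCardEq (key c))
  have hσ : ∀ a, (decide (σ a ∈ C'), decide (σ a ∈ R)) = (decide (a ∈ C), decide (a ∈ R)) :=
    fun a => Equiv.ofFiberEquiv_map
      (f := fun a => (decide (a ∈ C), decide (a ∈ R)))
      (g := fun a => (decide (a ∈ C'), decide (a ∈ R))) _ a
  refine ⟨σ, fun a => ?_, fun a => ?_⟩
  · have := congrArg Prod.snd (hσ a)
    simpa using this
  · have := congrArg Prod.fst (hσ a)
    simpa using this

private theorem GamW_map {m B N : ℕ} {R C C' : Finset (Fin N)} (σ : Equiv.Perm (Fin N))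
    (hR : ∀ a, σ a ∈ R ↔ a ∈ R) (hC : ∀ a, σ a ∈ C' ↔ a ∈ C) {γ : Fin N → Option (Fin m)}
    (h : γ ∈ Gam m B R C) : γ ∘ σ.symm ∈ Gam m B R C' := by
  classical
  unfold Gam at h ⊢
  rw [mem_filter] at h ⊢
  refine ⟨mem_univ _, fun j => ?_⟩
  obtain ⟨h1, h2, h3⟩ := h.2 j
  refine ⟨?_, ?_, ?_⟩
  · rw [← h1]
    refine (card_bij (fun t _ => σ t) ?_ ?_ ?_).symm
    · intro t ht
      rw [mem_filter] at ht ⊢
      exact ⟨mem_univ _, by simpa using ht.2⟩
    · intro a _ b _ hab
      exact σ.injective hab
    · intro b hb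
      rw [mem_filter] at hb
      exact ⟨σ.symm b, by rw [mem_filter]; exact ⟨mem_univ _, hb.2⟩, by simp⟩
  · intro t ht
    have h4 := h2 (σ.symm t) ht
    have h5 := (hR (σ.symm t)).2 h4
    simpa using h5
  · rw [← h3]
    refine (card_bij (fun t _ => σ t) ?_ ?_ ?_).symm
    · intro t ht
      rw [mem_filter] at ht ⊢
      exact ⟨(hC t).2 ht.1, by simpa using ht.2⟩
    · intro a _ b _ hab
      exact σ.injective hab
    · intro b hb
      rw [mem_filter] at hb
      refine ⟨σ.symm b, ?_, by simp⟩
      rw [mem_filter]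
      refine ⟨(hC _).1 ?_, hb.2⟩
      simpa using hb.1

private theorem GamW_le {m B N : ℕ} (R C C' : Finset (Fin N)) (hC : C ⊆ R) (hC' : C' ⊆ R)
    (h : C.card = C'.card) : (Gam m B R C).card ≤ (Gam m B R C').card := by
  obtain ⟨σ, h1, h2⟩ := GamW_perm R C C' hC hC' h
  refine card_le_card_of_injOn (fun γ => γ ∘ σ.symm) (fun γ hγ => GamW_map σ h1 h2 hγ) ?_
  intro γ _ γ' _ hγ
  funext t
  have := congrFun hγ (σ t)
  simpa using this

/-- the number of families of groups depends only on the number of places in `C` -/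
theorem gam_card {m B N : ℕ} (R C C' : Finset (Fin N)) (hC : C ⊆ R) (hC' : C' ⊆ R)
    (h : C.card = C'.card) : (Gam m B R C).card = (Gam m B R C').card :=
  le_antisymm (GamW_le R C C' hC hC' h) (GamW_le R C' C hC' hC h.symm)

theorem gam_nonempty {m B N : ℕ} (hB : 1 ≤ B) (R C : Finset (Fin N)) (hC : C ⊆ R)
    (h1 : m ≤ C.card) (h2 : m * B ≤ (R \ C).card) : (Gam m B R C).Nonempty := by
  classical
  let α : Fin m → Fin N := fun j => C.orderEmbOfCardLe h1 j
  have hα : ∀ j, α j ∈ C := fun j => orderEmbOfCardLe_mem C h1 j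
  have hαi : Function.Injective α := (C.orderEmbOfCardLe h1).injective
  let β : Fin m × Fin B → Fin N := fun p => (R \ C).orderEmbOfCardLe h2 (finProdFinEquiv p)
  have hβ : ∀ p, β p ∈ R \ C := fun p => orderEmbOfCardLe_mem (R \ C) h2 _
  have hβi : Function.Injective β := fun p p' hp =>
    finProdFinEquiv.injective (((R \ C).orderEmbOfCardLe h2).injective hp)
  let ψ : Fin m × Fin B → Fin N := fun p => if p.2.val = 0 then α p.1 else β p
  have hψ0 : ∀ p, p.2.val = 0 → ψ p = α p.1 := fun p hp => by simp [ψ, hp]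
  have hψ1 : ∀ p, p.2.val ≠ 0 → ψ p = β p := fun p hp => by simp [ψ, hp]
  have hβC : ∀ p, β p ∉ C := fun p => (mem_sdiff.1 (hβ p)).2
  have hψi : Function.Injective ψ := by
    intro p p' hp
    by_cases h3 : p.2.val = 0 <;> by_cases h4 : p'.2.val = 0
    · rw [hψ0 p h3, hψ0 p' h4] at hp
      exact Prod.ext (hαi hp) (Fin.ext (h3.trans h4.symm))
    · rw [hψ0 p h3, hψ1 p' h4] at hp
      exact absurd (hp ▸ hα p.1) (hβC p')
    · rw [hψ1 p h3, hψ0 p' h4] at hp
      exact absurd (hp ▸ hα p'.1) (hβC p)
    · rw [hψ1 p h3, hψ1 p' h4] at hp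
      exact hβi hp
  let γ : Fin N → Option (Fin m) := fun t =>
    if h : ∃ p : Fin m × Fin B, ψ p = t then some h.choose.1 else none
  have hγ : ∀ p, γ (ψ p) = some p.1 := by
    intro p
    have hex : ∃ p' : Fin m × Fin B, ψ p' = ψ p := ⟨p, rfl⟩
    have h3 : hex.choose = p := hψi hex.choose_spec
    simp only [γ]
    rw [dif_pos hex, h3]
  have hγ' : ∀ t j, γ t = some j → ∃ i : Fin B, ψ (j, i) = t := by
    intro t j ht
    by_cases hex : ∃ p : Fin m × Fin B, ψ p = t
    · obtain ⟨p, rfl⟩ := hex
      rw [hγ p] at ht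
      have h3 : p.1 = j := Option.some.inj ht
      exact ⟨p.2, by rw [← h3]⟩
    · simp only [γ] at ht
      rw [dif_neg hex] at ht
      cases ht
  refine ⟨γ, ?_⟩
  unfold Gam
  rw [mem_filter]
  refine ⟨mem_univ _, fun j => ⟨?_, ?_, ?_⟩⟩
  · have e : (univ.filter fun t => γ t = some j) = (univ : Finset (Fin B)).image
        fun i => ψ (j, i) := by
      ext t
      rw [mem_filter, mem_image]
      constructor
      · rintro ⟨_, ht⟩
        obtain ⟨i, hi⟩ := hγ' t j ht
        exact ⟨i, mem_univ _, hi⟩
      · rintro ⟨i, _, rfl⟩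
        exact ⟨mem_univ _, hγ (j, i)⟩
    rw [e, card_image_of_injective, card_univ, Fintype.card_fin]
    intro i i' hi
    exact congrArg Prod.snd (hψi hi)
  · intro t ht
    obtain ⟨i, rfl⟩ := hγ' t j ht
    by_cases h3 : i.val = 0
    · rw [hψ0 (j, i) h3]
      exact hC (hα j)
    · rw [hψ1 (j, i) h3]
      exact (mem_sdiff.1 (hβ (j, i))).1
  · have e : (C.filter fun t => γ t = some j) = {ψ (j, ⟨0, hB⟩)} := by
      ext t
      rw [mem_filter, mem_singleton]
      constructor
      · rintro ⟨htC, ht⟩
        obtain ⟨i, rfl⟩ := hγ' t j ht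
        by_cases h3 : i.val = 0
        · congr 2
          exact Fin.ext h3
        · rw [hψ1 (j, i) h3] at htC
          exact absurd htC (hβC _)
      · rintro rfl
        refine ⟨?_, hγ _⟩
        rw [hψ0 _ rfl]
        exact hα j
    rw [e, card_singleton]

end Pool.Agent.SW
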