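import Mathlib
import Pool.Agent.Lib.MP_69a69c_lc_SW.Defs

/-!
# Few words have few letters of a given kind
-/

set_option autoImplicit false

namespace Pool.Agent.SW

open Finset

private theorem tw_key (a X Y S : ℕ) (ha1 : 1 ≤ a) (hX : X ≤ a * Y) (hS : S + Y = 2 * X) :
    S ^ (2 * a) * 2 ≤ (2 * X) ^ (2 * a) := by
  have hx : (0 : ℝ) < 2 * a := by
    have : (1 : ℝ) ≤ a := by exact_mod_cast ha1
    linarith
  have hXr : (X : ℝ) ≤ a * Y := by exact_mod_cast hX
  have hSr : (S : ℝ) + Y = 2 * X := by exact_mod_cast hS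
  have hX0 : (0 : ℝ) ≤ X := Nat.cast_nonneg _
  have h1 : 1 - 1 / (2 * (a : ℝ)) ≤ Real.exp (-(1 / (2 * (a : ℝ)))) :=
    Real.one_sub_le_exp_neg _
  have h2 : (S : ℝ) ≤ 2 * X * Real.exp (-(1 / (2 * (a : ℝ)))) := by
    have h3 : (S : ℝ) ≤ 2 * X * (1 - 1 / (2 * (a : ℝ))) := by
      have h4 : 2 * (X : ℝ) * (1 - 1 / (2 * (a : ℝ))) = 2 * X - X / a := by
        have ha0 : (a : ℝ) ≠ 0 := by
          intro h
          rw [h] at hx
          simp at hx
        field_simp
      rw [h4]
      have h5 : (X : ℝ) / a ≤ Y := by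
        rw [div_le_iff₀ (by linarith)]
        linarith
      linarith
    exact h3.trans (mul_le_mul_of_nonneg_left h1 (by linarith))
  have h6 : (S : ℝ) ^ (2 * a) ≤ (2 * X) ^ (2 * a) * Real.exp (-1) := by
    have h7 := pow_le_pow_left₀ (Nat.cast_nonneg S) h2 (2 * a)
    rw [mul_pow, ← Real.exp_nat_mul] at h7
    have h8 : ((2 * a : ℕ) : ℝ) * (-(1 / (2 * (a : ℝ)))) = -1 := by
      push_cast
      field_simp
    rw [h8] at h7
    exact h7
  have h9 : Real.exp (-1) ≤ 1 / 2 := by
    rw [Real.exp_neg, inv_eq_one_div]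
    have h10 := Real.add_one_le_exp (1 : ℝ)
    exact one_div_le_one_div_of_le (by norm_num) (by linarith)
  have h11 : (0 : ℝ) ≤ (2 * X) ^ (2 * a) := by positivity
  have h12 : (S : ℝ) ^ (2 * a) * 2 ≤ (2 * X) ^ (2 * a) := by
    have h13 := mul_le_mul_of_nonneg_left h9 h11
    linarith
  exact_mod_cast h12

theorem tailW {α : Type} [Fintype α] [DecidableEq α] (N a s r : ℕ) (ha1 : 1 ≤ a)
    (Nz A : Finset α) (hA : A ⊆ Nz) (ha : Nz.card ≤ a * A.card) (I : Finset (Fin N))
    (hI : 2 * a * (s + r) ≤ I.card) :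
    2 ^ r * ((Fintype.piFinset fun _ : Fin N => Nz).filter fun u =>
      (I.filter fun t => u t ∈ A).card < s).card ≤
      (Fintype.piFinset fun _ : Fin N => Nz).card := by
  have hfilt : Nz.filter (fun c => c ∈ A) = A := by
    rw [Finset.filter_mem_eq_inter]
    exact Finset.inter_eq_right.mpr hA
  have hsplit := Finset.card_filter_add_card_filter_not (s := Nz) (fun c => c ∈ A)
  rw [hfilt] at hsplit
  have hsum : ∀ t : Fin N, (∑ c ∈ Nz, if t ∈ I then (if c ∈ A then 1 else 2) else 1) =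
      if t ∈ I then 2 * Nz.card - A.card else Nz.card := by
    intro t
    by_cases ht : t ∈ I
    · simp only [ht, if_true]
      rw [Finset.sum_ite, Finset.sum_const, Finset.sum_const, hfilt]
      simp only [smul_eq_mul, mul_one]
      omega
    · simp only [ht, if_false, Finset.sum_const, smul_eq_mul, mul_one]
  have hprod := Finset.prod_univ_sum (fun _ : Fin N => Nz)
    (fun (t : Fin N) (c : α) => if t ∈ I then (if c ∈ A then (1 : ℕ) else 2) else 1)
  simp only [hsum] at hprod
  rw [Finset.prod_ite, Finset.prod_const, Finset.prod_const] at hprod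
  have hI1 : (univ.filter fun t : Fin N => t ∈ I).card = I.card := by
    congr 1
    ext t
    simp
  have hI2 := Finset.card_filter_add_card_filter_not (s := (univ : Finset (Fin N)))
    (fun t => t ∈ I)
  rw [hI1, Finset.card_univ, Fintype.card_fin] at hI2
  rw [hI1] at hprod
  have hw : ∀ u : Fin N → α, (I.filter fun t => u t ∈ A).card < s →
      2 ^ (I.card - s) ≤
        ∏ t, (if t ∈ I then (if u t ∈ A then (1 : ℕ) else 2) else 1) := by
    intro u hu
    have h1 : (∏ t, (if t ∈ I then (if u t ∈ A then (1 : ℕ) else 2) else 1)) =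
        ∏ t ∈ I, (if u t ∈ A then (1 : ℕ) else 2) := by
      rw [Finset.prod_ite_mem, Finset.univ_inter]
    rw [h1, Finset.prod_ite, Finset.prod_const, Finset.prod_const, one_pow, one_mul]
    have h2 := Finset.card_filter_add_card_filter_not (s := I) (fun t => u t ∈ A)
    exact Nat.pow_le_pow_right (by norm_num) (by omega)
  have hbad : ((Fintype.piFinset fun _ : Fin N => Nz).filter fun u =>
      (I.filter fun t => u t ∈ A).card < s).card * 2 ^ (I.card - s) ≤
      ∑ u ∈ Fintype.piFinset fun _ : Fin N => Nz,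
        ∏ t, (if t ∈ I then (if u t ∈ A then (1 : ℕ) else 2) else 1) := by
    rw [← smul_eq_mul, ← Finset.sum_const]
    refine (Finset.sum_le_sum fun u hu => ?_).trans
      (Finset.sum_le_sum_of_subset (Finset.filter_subset _ _))
    exact hw u (Finset.mem_filter.mp hu).2
  rw [← hprod] at hbad
  have hcard : (Fintype.piFinset fun _ : Fin N => Nz).card = Nz.card ^ N := by
    rw [Fintype.card_piFinset, Finset.prod_const, Finset.card_univ, Fintype.card_fin]
  rw [hcard]
  set X := Nz.card with hXd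
  set Y := A.card with hYd
  set bad := ((Fintype.piFinset fun _ : Fin N => Nz).filter fun u =>
      (I.filter fun t => u t ∈ A).card < s).card with hbd
  set i := I.card with hid
  have hYX : Y ≤ X := Finset.card_le_card hA
  have hkey := tw_key a X Y (2 * X - Y) ha1 ha (by omega)
  have hsr : s + r ≤ 2 * a * (s + r) := by
    nlinarith
  have hkey2 : (2 * X - Y) ^ i * 2 ^ (s + r) ≤ (2 * X) ^ i := by
    obtain ⟨j, hj⟩ := Nat.exists_eq_add_of_le hI
    have h1 : ((2 * X - Y) ^ (2 * a) * 2) ^ (s + r) ≤ ((2 * X) ^ (2 * a)) ^ (s + r) :=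
      Nat.pow_le_pow_left hkey _
    rw [mul_pow, ← pow_mul, ← pow_mul] at h1
    have h2 : (2 * X - Y) ^ j ≤ (2 * X) ^ j := Nat.pow_le_pow_left (by omega) _
    have h3 := Nat.mul_le_mul h1 h2
    rw [hj]
    calc (2 * X - Y) ^ (2 * a * (s + r) + j) * 2 ^ (s + r)
        = (2 * X - Y) ^ (2 * a * (s + r)) * 2 ^ (s + r) * (2 * X - Y) ^ j := by
          rw [pow_add]; ring
      _ ≤ (2 * X) ^ (2 * a * (s + r)) * (2 * X) ^ j := h3
      _ = (2 * X) ^ (2 * a * (s + r) + j) := (pow_add _ _ _).symm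
  have hrest : (univ.filter fun t : Fin N => t ∉ I).card = N - i := by omega
  rw [hrest] at hbad
  have hiN : i ≤ N := by omega
  have h4 : bad * 2 ^ (i - s) * 2 ^ (s + r) ≤ (2 * X) ^ i * X ^ (N - i) := by
    calc _ ≤ (2 * X - Y) ^ i * X ^ (N - i) * 2 ^ (s + r) := Nat.mul_le_mul_right _ hbad
      _ = (2 * X - Y) ^ i * 2 ^ (s + r) * X ^ (N - i) := by ring
      _ ≤ _ := Nat.mul_le_mul_right _ hkey2
  have h5 : bad * 2 ^ (i - s) * 2 ^ (s + r) = (2 ^ r * bad) * 2 ^ i := by
    have h6 : 2 ^ (i - s) * 2 ^ (s + r) = 2 ^ r * 2 ^ i := by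
      rw [← pow_add, ← pow_add]
      congr 1
      omega
    rw [mul_assoc, h6]
    ring
  have h7 : (2 * X) ^ i * X ^ (N - i) = X ^ N * 2 ^ i := by
    have h8 : X ^ N = X ^ i * X ^ (N - i) := by
      rw [← pow_add]
      congr 1
      omega
    rw [mul_pow, h8]
    ring
  rw [h5, h7] at h4
  exact Nat.le_of_mul_le_mul_right h4 (by positivity)

end Pool.Agent.SW
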