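import Mathlib
import Pool.Agent.Lib.MP_69a69c_lc_SW.TailW
import Pool.Agent.Lib.MP_69a69c_lc_SW.GamW
import Pool.Agent.Lib.MP_69a69c_lc_SW.ClsW

/-!
# The measure of sets which are closed under stars
-/

set_option autoImplicit false

namespace Pool.Agent.SW

open Finset

section

variable {P N M m : ℕ}

open Classical in
/-- the families of groups of a matrix -/
private noncomputable def mwG (B m : ℕ) {P N M : ℕ} (e : Fin (P + 1) ↪ Fin M)
    (I : Finset (Fin N)) (u : Fin N → Fin M → Bool) : Finset (Fin N → Option (Fin m)) :=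
  Gam m B (rl e I u) (on e I u)

private lemma mw_on_sub (e : Fin (P + 1) ↪ Fin M) (I : Finset (Fin N))
    (u : Fin N → Fin M → Bool) : on e I u ⊆ rl e I u := by
  classical
  intro t ht
  simp only [on, rl, OneP, mem_filter, mem_univ, true_and] at ht ⊢
  exact ⟨ht.1, ht.2.1⟩

private lemma mw_ne {B : ℕ} (hB : 1 ≤ B) (e : Fin (P + 1) ↪ Fin M) (I : Finset (Fin N))
    (u : Fin N → Fin M → Bool)
    (h1 : ¬ (I.filter fun t => u t ∈ OneP e).card < m)
    (h2 : ¬ (I.filter fun t => u t ∈ OtP e).card < m * B) :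
    (mwG B m e I u).Nonempty := by
  classical
  apply gam_nonempty hB _ _ (mw_on_sub e I u)
  · have : on e I u = I.filter fun t => u t ∈ OneP e := by
      ext t
      simp only [on, mem_filter]
    rw [this]
    omega
  · refine le_trans (not_lt.mp h2) (card_le_card ?_)
    intro t ht
    simp only [OtP, mem_filter, mem_univ, true_and] at ht
    simp only [mem_sdiff, rl, on, OneP, mem_filter, mem_univ, true_and]
    exact ⟨⟨ht.1, ht.2.1⟩, fun h => ht.2.2 h.2.2.1⟩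

/-- the part of a matrix outside the groups -/
private noncomputable def mwK (e : Fin (P + 1) ↪ Fin M) (γ : Fin N → Option (Fin m))
    (u : Fin N → Fin M → Bool) : Fin N → Fin M → Bool := by
  classical
  exact fun t i => if γ t ≠ none ∧ ∃ k, e k = i then false else u t i

private lemma mw_agr (e : Fin (P + 1) ↪ Fin M) (γ : Fin N → Option (Fin m))
    (u u' : Fin N → Fin M → Bool) : Agr e γ u u' ↔ mwK e γ u' = mwK e γ u := by
  classical
  constructor
  · intro h
    funext t i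
    simp only [mwK]
    split_ifs with h1
    · rfl
    · exact h t i h1
  · intro h t i hti
    have h1 := congrFun (congrFun h t) i
    simp only [mwK, if_neg hti] at h1
    exact h1

open Classical in
private lemma mw_cls {B : ℕ} (e : Fin (P + 1) ↪ Fin M) (I : Finset (Fin N))
    (γ : Fin N → Option (Fin m)) (Ω : Finset (Fin N → Fin M → Bool))
    (hΩ : ∀ u, u ∈ Ω ↔ NoC (P + 2) u) (u : Fin N → Fin M → Bool) :
    cls B e I γ u =
      (Ω.filter fun u' => γ ∈ mwG B m e I u').filter fun u' => mwK e γ u' = mwK e γ u := by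
  ext u'
  simp only [cls, mem_filter, mem_univ, true_and, hΩ, mwG, mw_agr, and_assoc]

open Classical in
private lemma mw_gam (hP : 1 ≤ P) (hm : 1 ≤ m) (e : Fin (P + 1) ↪ Fin M)
    (I : Finset (Fin N)) (γ : Fin N → Option (Fin m)) (Ω : Finset (Fin N → Fin M → Bool))
    (hΩ : ∀ u, u ∈ Ω ↔ NoC (P + 2) u)
    (Z : Set (Fin N → Fin M → Bool))
    (hstar : ∀ (u : Fin N → Fin M → Bool) (v : Fin (P + 1) → Fin N → Fin M → Bool),
      (∀ j t i, ¬ (i = e j ∧ t ∈ I) → v j t i = u t i) → (∀ j, v j ∈ Z) → u ∈ Z)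
    (hZ : ∀ X ∈ Z, NoC (P + 2) X) :
    2 ^ (m + 1) * (∑ u ∈ (Ω.filter fun u => γ ∈ mwG (4 ^ (P + 3)) m e I u).filter (· ∈ Z),
      (1 : ℚ) / (mwG (4 ^ (P + 3)) m e I u).card) ≤
      ∑ u ∈ Ω.filter fun u => γ ∈ mwG (4 ^ (P + 3)) m e I u,
        (1 : ℚ) / (mwG (4 ^ (P + 3)) m e I u).card := by
  set A := Ω.filter fun u => γ ∈ mwG (4 ^ (P + 3)) m e I u with hA
  rw [← Finset.sum_fiberwise_of_maps_to (s := A.filter (· ∈ Z)) (t := A.image (mwK e γ))
    (g := mwK e γ) (fun x hx => mem_image_of_mem _ (mem_filter.mp hx).1),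
    ← Finset.sum_fiberwise_of_maps_to (s := A) (t := A.image (mwK e γ))
    (g := mwK e γ) (fun x hx => mem_image_of_mem _ hx), Finset.mul_sum]
  apply Finset.sum_le_sum
  intro y hy
  obtain ⟨u0, hu0, rfl⟩ := mem_image.mp hy
  have hcl := mw_cls (B := 4 ^ (P + 3)) e I γ Ω hΩ u0
  rw [← hA] at hcl
  have hu0' := hu0
  rw [hA, mem_filter, hΩ] at hu0'
  obtain ⟨hno, hγ⟩ := hu0'
  have h1 : ((A.filter (· ∈ Z)).filter fun x => mwK e γ x = mwK e γ u0) =
      (cls (4 ^ (P + 3)) e I γ u0).filter (· ∈ Z) := by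
    rw [hcl]
    ext x
    simp only [mem_filter]
    tauto
  rw [h1, ← hcl]
  have hw : ∀ x ∈ cls (4 ^ (P + 3)) e I γ u0,
      (1 : ℚ) / (mwG (4 ^ (P + 3)) m e I x).card =
        1 / (mwG (4 ^ (P + 3)) m e I u0).card := by
    intro x hx
    obtain ⟨h2, h3⟩ := cls_card e I γ u0 x hγ hx
    have h4 : (mwG (4 ^ (P + 3)) m e I x).card = (mwG (4 ^ (P + 3)) m e I u0).card := by
      unfold mwG
      rw [h2]
      apply gam_card _ _ _ _ (mw_on_sub e I u0) h3
      rw [← h2]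
      exact mw_on_sub e I x
    rw [h4]
  rw [Finset.sum_congr rfl (fun x hx => hw x (mem_filter.mp hx).1), Finset.sum_congr rfl hw,
    Finset.sum_const, Finset.sum_const, nsmul_eq_mul, nsmul_eq_mul, ← mul_assoc]
  apply mul_le_mul_of_nonneg_right _ (by positivity)
  have h5 := cls_star hP hm e I γ u0 hno hγ Z hstar hZ
  exact_mod_cast h5

open Classical in
private lemma mw_all (hP : 1 ≤ P) (hm : 1 ≤ m) (e : Fin (P + 1) ↪ Fin M)
    (I : Finset (Fin N)) (Ω : Finset (Fin N → Fin M → Bool))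
    (hΩ : ∀ u, u ∈ Ω ↔ NoC (P + 2) u)
    (Z : Set (Fin N → Fin M → Bool))
    (hstar : ∀ (u : Fin N → Fin M → Bool) (v : Fin (P + 1) → Fin N → Fin M → Bool),
      (∀ j t i, ¬ (i = e j ∧ t ∈ I) → v j t i = u t i) → (∀ j, v j ∈ Z) → u ∈ Z)
    (hZ : ∀ X ∈ Z, NoC (P + 2) X) :
    2 ^ (m + 1) * ((Ω.filter (· ∈ Z)).filter fun u =>
      (mwG (4 ^ (P + 3)) m e I u).Nonempty).card ≤ Ω.card := by
  have hone : ∀ u : Fin N → Fin M → Bool,
      (∑ _γ ∈ mwG (4 ^ (P + 3)) m e I u, (1 : ℚ) / (mwG (4 ^ (P + 3)) m e I u).card) =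
        if (mwG (4 ^ (P + 3)) m e I u).Nonempty then 1 else 0 := by
    intro u
    rw [Finset.sum_const, nsmul_eq_mul]
    split_ifs with h
    · have h0 : ((mwG (4 ^ (P + 3)) m e I u).card : ℚ) ≠ 0 := by
        exact_mod_cast (Finset.card_pos.mpr h).ne'
      field_simp
    · rw [Finset.not_nonempty_iff_eq_empty] at h
      rw [h]
      simp
  have hL : (∑ u ∈ Ω.filter (· ∈ Z), ∑ _γ ∈ mwG (4 ^ (P + 3)) m e I u,
      (1 : ℚ) / (mwG (4 ^ (P + 3)) m e I u).card) =
      ((Ω.filter (· ∈ Z)).filter fun u => (mwG (4 ^ (P + 3)) m e I u).Nonempty).card := by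
    rw [Finset.sum_congr rfl (fun u _ => hone u), ← Finset.sum_filter, Finset.sum_const,
      nsmul_eq_mul, mul_one]
  have hR : (∑ u ∈ Ω, ∑ _γ ∈ mwG (4 ^ (P + 3)) m e I u,
      (1 : ℚ) / (mwG (4 ^ (P + 3)) m e I u).card) ≤ Ω.card := by
    rw [Finset.sum_congr rfl (fun u _ => hone u), ← Finset.sum_filter, Finset.sum_const,
      nsmul_eq_mul, mul_one]
    exact_mod_cast Finset.card_filter_le _ _
  have hL2 : (∑ u ∈ Ω.filter (· ∈ Z), ∑ _γ ∈ mwG (4 ^ (P + 3)) m e I u,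
      (1 : ℚ) / (mwG (4 ^ (P + 3)) m e I u).card) =
      ∑ γ : Fin N → Option (Fin m),
        ∑ u ∈ (Ω.filter fun u => γ ∈ mwG (4 ^ (P + 3)) m e I u).filter (· ∈ Z),
          (1 : ℚ) / (mwG (4 ^ (P + 3)) m e I u).card := by
    apply Finset.sum_comm'
    intro u γ
    simp only [mem_filter, mem_univ, and_true]
    tauto
  have hR2 : (∑ u ∈ Ω, ∑ _γ ∈ mwG (4 ^ (P + 3)) m e I u,
      (1 : ℚ) / (mwG (4 ^ (P + 3)) m e I u).card) =
      ∑ γ : Fin N → Option (Fin m),
        ∑ u ∈ Ω.filter fun u => γ ∈ mwG (4 ^ (P + 3)) m e I u,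
          (1 : ℚ) / (mwG (4 ^ (P + 3)) m e I u).card := by
    apply Finset.sum_comm'
    intro u γ
    simp only [mem_filter, mem_univ, and_true]
  have hfin : (2 : ℚ) ^ (m + 1) * ((Ω.filter (· ∈ Z)).filter fun u =>
      (mwG (4 ^ (P + 3)) m e I u).Nonempty).card ≤ Ω.card := by
    rw [← hL, hL2, Finset.mul_sum]
    refine le_trans (Finset.sum_le_sum fun γ _ =>
      mw_gam hP hm e I γ Ω hΩ Z hstar hZ) ?_
    rw [← hR2]
    exact hR
  exact_mod_cast hfin

end

theorem measW {P N M m c : ℕ} (hP : 1 ≤ P) (hM : 2 * (P + 1) ≤ M)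
    (hN : 128 * 16 ^ (P + 1) * m ≤ N) (hc : 4 * c ≤ N) (e : Fin (P + 1) ↪ Fin M)
    (Z : Set (Fin N → Fin M → Bool))
    (hstar : ∀ (u : Fin N → Fin M → Bool) (v : Fin (P + 1) → Fin N → Fin M → Bool),
      (∀ (j : Fin (P + 1)) (t : Fin N) (i : Fin M),
        ¬ (i = e j ∧ c ≤ (t : ℕ) ∧ (t : ℕ) + c < N) → v j t i = u t i) →
      (∀ j, v j ∈ Z) → u ∈ Z)
    (hZ : ∀ X ∈ Z, NoC (P + 2) X) :
    2 ^ m * Z.ncard ≤ {X : Fin N → Fin M → Bool | NoC (P + 2) X}.ncard := by
  classical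
  rcases Nat.eq_zero_or_pos m with hm0 | hm
  · subst hm0
    rw [pow_zero, one_mul]
    exact Set.ncard_le_ncard (fun X hX => hZ X hX) (Set.toFinite _)
  set I : Finset (Fin N) := univ.filter fun t : Fin N => c ≤ (t : ℕ) ∧ (t : ℕ) + c < N
    with hI
  set Ω : Finset (Fin N → Fin M → Bool) := Fintype.piFinset fun _ : Fin N => NzP (P + 2) M
    with hΩd
  have hΩ : ∀ u, u ∈ Ω ↔ NoC (P + 2) u := by
    intro u
    rw [hΩd, Fintype.mem_piFinset]
    simp only [NzP, mem_filter, mem_univ, true_and, NoC]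
  have hIc : N - 2 * c ≤ I.card := by
    have h := Finset.card_le_card_of_injOn (s := (univ : Finset (Fin (N - 2 * c)))) (t := I)
      (fun i => (⟨i.1 + c, by omega⟩ : Fin N))
      (by
        intro i _
        simp only [hI, coe_filter, mem_univ, true_and, Set.mem_setOf_eq]
        omega)
      (by
        intro i _ j _ h
        simp only [Fin.mk.injEq] at h
        apply Fin.ext
        omega)
    simpa using h
  obtain ⟨ho1, ho2, ho3, ho4⟩ := onePs hP hM e
  have hq : 1 ≤ 4 ^ (P + 1) := Nat.one_le_pow _ _ (by norm_num)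
  have h16 : 16 ^ (P + 1) = 4 ^ (P + 1) * 4 ^ (P + 1) := by
    rw [← mul_pow]
    norm_num
  have h43 : 4 ^ (P + 3) = 16 * 4 ^ (P + 1) := by
    rw [show P + 3 = (P + 1) + 2 by ring, pow_add]
    ring
  have hbig : 64 * (4 ^ (P + 1) * 4 ^ (P + 1)) * m ≤ I.card := by
    refine le_trans ?_ hIc
    rw [h16] at hN
    have h3 : 128 * (4 ^ (P + 1) * 4 ^ (P + 1)) * m =
        2 * (64 * (4 ^ (P + 1) * 4 ^ (P + 1)) * m) := by ring
    omega
  have hqq : 4 ^ (P + 1) * m ≤ 4 ^ (P + 1) * 4 ^ (P + 1) * m := by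
    nlinarith [Nat.mul_le_mul_right (4 ^ (P + 1) * m) hq]
  have hqm : 4 ^ (P + 1) ≤ 4 ^ (P + 1) * m := Nat.le_mul_of_pos_right _ hm
  have ht1 := tailW N (4 ^ (P + 1)) m (m + 2) hq (NzP (P + 2) M) (OneP e) ho1 ho3 I
    (by
      refine le_trans ?_ hbig
      nlinarith)
  have ht2 := tailW N (4 ^ (P + 1)) (m * 4 ^ (P + 3)) (m + 2) hq (NzP (P + 2) M) (OtP e)
    ho2 ho4 I
    (by
      refine le_trans ?_ hbig
      rw [h43]
      nlinarith)
  rw [← hΩd] at ht1 ht2
  have hcore := mw_all hP hm e I Ω hΩ Z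
    (by
      intro u v h1 h2
      apply hstar u v _ h2
      intro j t i h3
      apply h1
      intro h4
      apply h3
      refine ⟨h4.1, ?_⟩
      have h5 := h4.2
      rw [hI, mem_filter] at h5
      exact h5.2) hZ
  have hZc : Z.ncard = (Ω.filter (· ∈ Z)).card := by
    rw [← Set.ncard_coe_finset]
    congr 1
    ext X
    simp only [coe_filter, Set.mem_setOf_eq, hΩ]
    exact ⟨fun h => ⟨hZ X h, h⟩, fun h => h.2⟩
  have hΩc : {X : Fin N → Fin M → Bool | NoC (P + 2) X}.ncard = Ω.card := by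
    rw [← Set.ncard_coe_finset]
    congr 1
    ext X
    simp only [Set.mem_setOf_eq, mem_coe, hΩ]
  rw [hZc, hΩc]
  have hsub : (Ω.filter (· ∈ Z)).card ≤
      ((Ω.filter (· ∈ Z)).filter fun u => (mwG (4 ^ (P + 3)) m e I u).Nonempty).card +
      (Ω.filter fun u => (I.filter fun t => u t ∈ OneP e).card < m).card +
      (Ω.filter fun u => (I.filter fun t => u t ∈ OtP e).card < m * 4 ^ (P + 3)).card := by
    refine le_trans (card_le_card ?_) (card_union_le _ _) |>.trans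
      (Nat.add_le_add_right (card_union_le _ _) _)
    intro u hu
    simp only [mem_union, mem_filter]
    rw [mem_filter] at hu
    by_cases h1 : (I.filter fun t => u t ∈ OneP e).card < m
    · exact Or.inl (Or.inr ⟨hu.1, h1⟩)
    by_cases h2 : (I.filter fun t => u t ∈ OtP e).card < m * 4 ^ (P + 3)
    · exact Or.inr ⟨hu.1, h2⟩
    exact Or.inl (Or.inl ⟨hu, mw_ne (Nat.one_le_pow _ _ (by norm_num)) e I u h1 h2⟩)
  have e1 : 2 ^ (m + 2) = 4 * 2 ^ m := by ring
  have e2 : 2 ^ (m + 1) = 2 * 2 ^ m := by ring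
  rw [e1] at ht1 ht2
  rw [e2] at hcore
  have h6 := Nat.mul_le_mul_left (2 ^ m) hsub
  nlinarith

end Pool.Agent.SW
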