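import Mathlib
import Pool.Agent.Lib.MP_69a69c_lc_SW.Defs

/-!
# Inputs with given matrices
-/

set_option autoImplicit false

namespace Pool.Agent.SW

open Pool.Agent.LT (Inp)
open Pool.Agent.HM (InI)

private theorem EncW_two_log (n : ℕ) : 2 * Nat.log 2 n ≤ n := by
  rcases Nat.lt_or_ge n 4 with h | h
  · interval_cases n <;> decide
  · have h1 : 2 ^ Nat.log 2 n ≤ n := Nat.pow_log_le_self 2 (by omega)
    have h2 : ∀ m : ℕ, 2 ≤ m → 2 * m ≤ 2 ^ m := by
      intro m hm
      induction m, hm using Nat.le_induction with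
      | base => norm_num
      | succ m hm ih =>
        rw [pow_succ]
        omega
    have h3 : 2 ≤ Nat.log 2 n := Nat.le_log_of_pow_le (by norm_num) (by norm_num; exact h)
    exact (h2 _ h3).trans h1

private theorem EncW_count (m q : ℕ) (hq : q ≤ m) :
    ∑ i ∈ Finset.range m, (decide (i < q)).toNat = q := by
  have h1 : ∀ i ∈ Finset.range m, (decide (i < q)).toNat = if i < q then 1 else 0 := by
    intro i _
    by_cases h : i < q <;> simp [h]
  rw [Finset.sum_congr rfl h1, ← Finset.sum_filter, Finset.sum_const, smul_eq_mul, mul_one]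
  have h3 : (Finset.range m).filter (fun i => i < q) = Finset.range q := by
    ext i
    simp only [Finset.mem_filter, Finset.mem_range]
    omega
  rw [h3, Finset.card_range]

private theorem EncW_ones0 {n p g N M : ℕ} (hp : p ≤ Nat.log 2 n) (X : Fin N → Fin M → Bool) :
    onesIn (encW n p g X) 0 (Nat.log 2 n) = p := by
  have hL := EncW_two_log n
  have h1 : ∀ i ∈ Finset.range (Nat.log 2 n),
      (ST.getBit (encW n p g X) (0 + i)).toNat = (decide (i < p)).toNat := by
    intro i hi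
    have hi' := Finset.mem_range.1 hi
    have hin : i < n := by omega
    rw [Nat.zero_add]
    unfold ST.getBit
    rw [dif_pos hin]
    unfold encW
    rw [if_pos (show ((⟨i, hin⟩ : Fin n) : ℕ) < Nat.log 2 n from hi')]
  unfold onesIn
  rw [Finset.sum_congr rfl h1, EncW_count _ _ hp]

private theorem EncW_ones1 {n p g N M : ℕ} (hg : g ≤ Nat.log 2 n) (X : Fin N → Fin M → Bool) :
    onesIn (encW n p g X) (Nat.log 2 n) (Nat.log 2 n) = g := by
  have hL := EncW_two_log n
  have h1 : ∀ i ∈ Finset.range (Nat.log 2 n),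
      (ST.getBit (encW n p g X) (Nat.log 2 n + i)).toNat = (decide (i < g)).toNat := by
    intro i hi
    have hi' := Finset.mem_range.1 hi
    have hin : Nat.log 2 n + i < n := by omega
    unfold ST.getBit
    rw [dif_pos hin]
    unfold encW
    rw [if_neg (show ¬ ((⟨Nat.log 2 n + i, hin⟩ : Fin n) : ℕ) < Nat.log 2 n by
        simp only; omega),
      if_pos (show ((⟨Nat.log 2 n + i, hin⟩ : Fin n) : ℕ) < 2 * Nat.log 2 n by
        simp only; omega)]
    congr 1
    simp only [decide_eq_decide]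
    omega
  unfold onesIn
  rw [Finset.sum_congr rfl h1, EncW_count _ _ hg]

private theorem EncW_bit {n p g N M : ℕ} (h : M * N ≤ n - 2 * Nat.log 2 n)
    (X : Fin N → Fin M → Bool) (t : Fin N) (j : Fin M) :
    ST.getBit (encW n p g X) (2 * Nat.log 2 n + (j : ℕ) * N + t) = X t j := by
  have hL := EncW_two_log n
  have ht := t.2
  have hj := j.2
  have h2 : ((j : ℕ) + 1) * N ≤ M * N := Nat.mul_le_mul_right _ hj
  have h3 : ((j : ℕ) + 1) * N = (j : ℕ) * N + N := by ring
  have hc : 2 * Nat.log 2 n + (j : ℕ) * N + t < n := by omega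
  have e0 : 2 * Nat.log 2 n + (j : ℕ) * N + (t : ℕ) - 2 * Nat.log 2 n =
      (t : ℕ) + (j : ℕ) * N := by omega
  have hN : 0 < N := by omega
  have e1 : (2 * Nat.log 2 n + (j : ℕ) * N + (t : ℕ) - 2 * Nat.log 2 n) / N = j := by
    rw [e0, Nat.add_mul_div_right _ _ hN, Nat.div_eq_of_lt ht, Nat.zero_add]
  have e2 : (2 * Nat.log 2 n + (j : ℕ) * N + (t : ℕ) - 2 * Nat.log 2 n) % N = t := by
    rw [e0, Nat.add_mul_mod_self_right, Nat.mod_eq_of_lt ht]
  unfold ST.getBit
  rw [dif_pos hc]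
  unfold encW
  rw [if_neg (show ¬ ((⟨_, hc⟩ : Fin n) : ℕ) < Nat.log 2 n by simp only; omega),
    if_neg (show ¬ ((⟨_, hc⟩ : Fin n) : ℕ) < 2 * Nat.log 2 n by simp only; omega), dif_pos]
  · congr 1
    · exact Fin.ext e2
    · exact Fin.ext e1
  · refine ⟨?_, ?_⟩
    · simp only
      rw [e2]
      exact ht
    · simp only
      rw [e1]
      exact hj

private theorem EncW_sum {n p g N M : ℕ} (h : M * N ≤ n - 2 * Nat.log 2 n)
    (X : Fin N → Fin M → Bool) (t : Fin N) :
    ∑ j ∈ Finset.range M,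
      (ST.getBit (encW n p g X) (2 * Nat.log 2 n + j * N + t)).toNat = cnt (X t) := by
  rw [Finset.sum_range]
  unfold cnt
  rw [Finset.card_filter]
  refine Finset.sum_congr rfl fun j _ => ?_
  rw [EncW_bit h X t j]
  cases X t j <;> simp

theorem langW_encW {n p g N M : ℕ} (hp : p ≤ Nat.log 2 n) (hg : g ≤ Nat.log 2 n)
    (hM : M = 2 ^ g) (hN : N = (n - 2 * Nat.log 2 n) / 2 ^ g) (X : Fin N → Fin M → Bool) :
    langW n (encW n p g X) = false ↔ NoC (p + 1) X := by
  have hMN : M * N ≤ n - 2 * Nat.log 2 n := by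
    rw [hM, hN]
    exact Nat.mul_div_le _ _
  unfold langW NoC
  rw [EncW_ones0 hp, EncW_ones1 hg, ← hN, ← hM, decide_eq_false_iff_not]
  constructor
  · intro hh t ht
    refine hh ⟨t, t.2, ?_⟩
    rw [EncW_sum hMN X t]
    exact ht
  · rintro hh ⟨t, ht, h1⟩
    have h2 := EncW_sum (p := p) (g := g) hMN X ⟨t, ht⟩
    simp only at h2
    rw [h2] at h1
    exact hh ⟨t, ht⟩ h1

/-- a change of the bits of block `j` changes only cells of this block outside the margins -/
theorem encW_agree {n p g N M c : ℕ} (X Y : Fin N → Fin M → Bool) (j : Fin M)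
    (hXY : ∀ (t : Fin N) (i : Fin M), ¬ (i = j ∧ c ≤ (t : ℕ) ∧ (t : ℕ) + c < N) → Y t i = X t i)
    (e : Fin n) (he : ¬ InI (2 * Nat.log 2 n) N c j e) :
    encW n p g Y e = encW n p g X e := by
  unfold encW
  by_cases h0 : (e : ℕ) < Nat.log 2 n
  · rw [if_pos h0, if_pos h0]
  rw [if_neg h0, if_neg h0]
  by_cases h1 : (e : ℕ) < 2 * Nat.log 2 n
  · rw [if_pos h1, if_pos h1]
  rw [if_neg h1, if_neg h1]
  by_cases h : ((e : ℕ) - 2 * Nat.log 2 n) % N < N ∧ ((e : ℕ) - 2 * Nat.log 2 n) / N < M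
  · rw [dif_pos h, dif_pos h]
    refine hXY _ _ ?_
    rintro ⟨hj, hc1, hc2⟩
    apply he
    have hj' : ((e : ℕ) - 2 * Nat.log 2 n) / N = j := congrArg Fin.val hj
    have h2 := Nat.div_add_mod ((e : ℕ) - 2 * Nat.log 2 n) N
    simp only at hc1 hc2
    rw [hj', Nat.mul_comm N (j : ℕ)] at h2
    unfold InI
    rw [Nat.add_mul, Nat.one_mul]
    constructor <;> omega
  · rw [dif_neg h, dif_neg h]

end Pool.Agent.SW
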