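import Mathlib
import Pool.Agent.Lib.MP_69a69c_lc_SW.CoverW
import Pool.Agent.Lib.MP_69a69c_lc_SW.MeasW
import Pool.Agent.Lib.MP_69a69c_lc_SW.EncW

/-!
# The lower bound, with parameters
-/

set_option autoImplicit false

namespace Pool.Agent.SW

open Pool.Agent.LT (Inp)
open Pool.Agent.HM (HeadDet HeadNondet)

/-- there is a matrix without columns whose number of ones is divisible by `P + 2` -/
private theorem LowerW_pos {P N M : ℕ} (hM : 1 ≤ M) :
    0 < {X : Fin N → Fin M → Bool | NoC (P + 2) X}.ncard := by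
  rw [Set.ncard_pos (Set.toFinite _)]
  refine ⟨fun _ i => decide (i = ⟨0, hM⟩), fun t h => ?_⟩
  have h1 : cnt (fun i : Fin M => decide (i = ⟨0, hM⟩)) = 1 := by
    unfold cnt
    rw [Finset.card_eq_one]
    refine ⟨⟨0, hM⟩, ?_⟩
    ext i
    simp
  rw [h1] at h
  have h2 := Nat.le_of_dvd (by norm_num) h
  omega

/-- few small sets do not cover -/
private theorem LowerW_count {P N M m Θ : ℕ} (hM : 1 ≤ M)
    (Z : Fin Θ → Set (Fin N → Fin M → Bool))
    (hZ : ∀ θ, 2 ^ m * (Z θ).ncard ≤ {X : Fin N → Fin M → Bool | NoC (P + 2) X}.ncard)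
    (hcov : ∀ X : Fin N → Fin M → Bool, NoC (P + 2) X → ∃ θ, X ∈ Z θ) : 2 ^ m ≤ Θ := by
  have h0 := LowerW_pos (P := P) (N := N) hM
  set U : Set (Fin N → Fin M → Bool) := {X | NoC (P + 2) X} with hU
  have h1 : U.ncard ≤ ∑ θ, (Z θ).ncard := by
    classical
    have h2 : U ⊆ ⋃ θ, Z θ := fun X hX => Set.mem_iUnion.2 (hcov X hX)
    calc U.ncard ≤ (⋃ θ, Z θ).ncard := Set.ncard_le_ncard h2 (Set.toFinite _)
      _ ≤ ∑ θ, (Z θ).ncard := Set.ncard_iUnion_le_of_fintype Z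
  have h2 : 2 ^ m * U.ncard ≤ Θ * U.ncard := by
    calc 2 ^ m * U.ncard ≤ 2 ^ m * ∑ θ, (Z θ).ncard := Nat.mul_le_mul_left _ h1
      _ = ∑ θ, 2 ^ m * (Z θ).ncard := by rw [Finset.mul_sum]
      _ ≤ ∑ _θ : Fin Θ, U.ncard := Finset.sum_le_sum fun θ _ => hZ θ
      _ = Θ * U.ncard := by simp
  exact Nat.le_of_mul_le_mul_right h2 h0

/-- `P + 1` players, `2 ^ g` blocks of length `N` -/
theorem lowerPar {n k T S w P g N B κ0 κ m : ℕ} (hP : 1 ≤ P) (hPn : P + 1 ≤ Nat.log 2 n)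
    (hg : g ≤ Nat.log 2 n) (hM : 2 * (P + 1) ≤ 2 ^ g)
    (hN : N = (n - 2 * Nat.log 2 n) / 2 ^ g) (hS : 1 ≤ S) (hn : n ≤ 2 ^ S) (hw : w ≤ 2 ^ S)
    (hT : T ≤ 2 ^ (2 * S)) (hB : 1 ≤ B) (hBN : 4 * B ≤ N) (hTB : T ≤ B * κ0)
    (hκ : 2 * (P + 1) * κ0 ≤ κ * 2 ^ g)
    (hbad : 6 * (κ0 + 2) * (2 * k).descFactorial (P + 1) ≤ (2 ^ g).descFactorial (P + 1))
    (hm : 128 * 16 ^ (P + 1) * m ≤ N) (hlt : 256 * (k + P + 2) * (κ + 1) * S < m) :
    ¬ HeadNondet (fun x => !langW n x) k T w ∧ ¬ HeadDet (langW n) k T w := by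
  have key : ¬ HeadNondet (fun x => !langW n x) k T w := by
    rintro ⟨P0, hP0⟩
    have hlog : Nat.log 2 n ≤ S := by
      calc Nat.log 2 n ≤ Nat.log 2 (2 ^ S) := Nat.log_mono_right hn
        _ = S := Nat.log_pow (by norm_num) S
    have hNn : N ≤ n := by
      rw [hN]
      exact (Nat.div_le_self _ _).trans (Nat.sub_le _ _)
    obtain ⟨Θ, Tr, hΘ, hst, hacc, hcov⟩ := coverW k n T S w (2 * Nat.log 2 n) N (2 ^ g) (P + 1)
      B κ0 κ P0 (by omega) (by omega) hS hn hw hT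
      (Nat.pow_le_pow_right (by norm_num) (hg.trans hlog)) hB (by omega) hTB hκ hbad
    have hle : 2 ^ m ≤ Θ := by
      refine LowerW_count (P := P) (N := N) (M := 2 ^ g) (Nat.one_le_two_pow)
        (fun θ => {X | Tr θ (encW n (P + 1) g X)}) (fun θ => ?_) (fun X hX => ?_)
      · obtain ⟨c, hc1, hcB, e, hstar⟩ := hst θ
        refine measW (c := c) hP hM hm (by omega) e _ (fun u v hv hR => ?_) (fun X hX => ?_)
        · exact hstar (encW n (P + 1) g u) (fun j => encW n (P + 1) g (v j))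
            (fun j i hi => encW_agree u (v j) (e j) (hv j) i hi) hR
        · have h1 := (hP0 _).2 (hacc θ _ hX)
          rw [Bool.not_eq_true'] at h1
          exact (langW_encW hPn hg rfl hN X).1 h1
      · have h1 := (langW_encW hPn hg rfl hN X).2 hX
        exact hcov _ ((hP0 _).1 (by simp [h1]))
    have h1 : 2 ^ (256 * (k + (P + 1) + 1) * (κ + 1) * S) < 2 ^ m :=
      Nat.pow_lt_pow_right (by norm_num) hlt
    omega
  refine ⟨key, ?_⟩
  rintro ⟨P0, hP0⟩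
  refine key ⟨P0.toN false, fun x => ?_⟩
  rw [HM.toN_accepts]
  constructor
  · intro h
    rw [Bool.not_eq_true'] at h
    have := hP0 x
    rwa [h] at this
  · intro h
    rw [Bool.not_eq_true']
    exact HM.outputs_unique P0 T x (hP0 x) h

end Pool.Agent.SW
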