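import Mathlib

/-!
# The parameters
-/

set_option autoImplicit false

namespace Pool.Agent.SW

/-- the conditions of `lowerPar` for `P + 1` players -/
def Par (n k T S P g N B κ0 κ m : ℕ) : Prop :=
  P + 1 ≤ Nat.log 2 n ∧ g ≤ Nat.log 2 n ∧ 2 * (P + 1) ≤ 2 ^ g ∧
    N = (n - 2 * Nat.log 2 n) / 2 ^ g ∧ 1 ≤ B ∧ 4 * B ≤ N ∧ T ≤ B * κ0 ∧
    2 * (P + 1) * κ0 ≤ κ * 2 ^ g ∧
    6 * (κ0 + 2) * (2 * k).descFactorial (P + 1) ≤ (2 ^ g).descFactorial (P + 1) ∧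
    128 * 16 ^ (P + 1) * m ≤ N ∧ 256 * (k + P + 2) * (κ + 1) * S < m

private theorem four_mul_le_pow (l : ℕ) : 4 * (l + 4) ≤ 2 ^ (l + 4) := by
  induction l with
  | zero => norm_num
  | succ l ih =>
    have h : 2 ^ (l + 1 + 4) = 2 * 2 ^ (l + 4) := by ring
    omega

private theorem log_le {n : ℕ} (hn : 16 ≤ n) : 4 * Nat.log 2 n ≤ n := by
  have h1 : 4 ≤ Nat.log 2 n := by
    apply Nat.le_log_of_pow_le (by norm_num)
    omega
  have h2 : 2 ^ Nat.log 2 n ≤ n := Nat.pow_log_le_self 2 (by omega)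
  obtain ⟨l, hl⟩ := Nat.exists_eq_add_of_le h1
  have h3 := four_mul_le_pow l
  rw [hl, Nat.add_comm 4 l] at h2 ⊢
  omega

private theorem par_of {n k T S P g : ℕ} (h1 : 2 * (P + 1) ≤ 2 ^ g) (h2 : 32 * 2 ^ g ≤ n)
    (hT : n ≤ T) (hS : 1 ≤ S) (hP : 2 ^ (P + 1) ≤ n)
    (hbad : 1152 * 2 ^ g * T * (2 * k).descFactorial (P + 1) ≤
      n * (2 ^ g).descFactorial (P + 1))
    (hm : 2 ^ 25 * 16 ^ (P + 1) * (P + 1) * (k + P + 2) * 2 ^ g * S * T ≤ n ^ 2) :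
    ∃ N B κ0 κ m : ℕ, Par n k T S P g N B κ0 κ m := by
  have hgn : 2 ^ g ≤ n := by omega
  unfold Par
  have hPl : P + 1 ≤ Nat.log 2 n := Nat.le_log_of_pow_le (by norm_num) hP
  have hgl : g ≤ Nat.log 2 n := Nat.le_log_of_pow_le (by norm_num) hgn
  generalize 2 ^ g = M at *
  have hM2 : 2 ≤ M := by omega
  have hn : 64 ≤ n := by omega
  have hlog : 4 * Nat.log 2 n ≤ n := log_le (by omega)
  obtain ⟨N, hN⟩ : ∃ N, N = (n - 2 * Nat.log 2 n) / M := ⟨_, rfl⟩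
  have hNn : N ≤ n := by
    rw [hN]
    exact (Nat.div_le_self _ _).trans (Nat.sub_le _ _)
  have hNM : n ≤ 4 * (M * N) := by
    have h3 : n - 2 * Nat.log 2 n < M * (N + 1) := by
      rw [hN]
      exact Nat.lt_mul_div_succ _ (by omega)
    have h4 : M * (N + 1) = M * N + M := by ring
    omega
  have hN8 : 8 ≤ N := by
    by_contra hc
    have h3 : M * N ≤ M * 7 := Nat.mul_le_mul_left _ (by omega)
    omega
  obtain ⟨B, hB⟩ : ∃ B, B = N / 4 := ⟨_, rfl⟩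
  have hB1 : 1 ≤ B := by omega
  have hB4 : 4 * B ≤ N := by omega
  have hB8 : N ≤ 8 * B := by omega
  have hnB : n ≤ 32 * (M * B) := by
    have h3 : M * N ≤ M * (8 * B) := Nat.mul_le_mul_left _ hB8
    have h4 : M * (8 * B) = 8 * (M * B) := by ring
    omega
  obtain ⟨κ0, hκ0⟩ : ∃ κ0, κ0 = T / B + 1 := ⟨_, rfl⟩
  have hκ1 : 1 ≤ κ0 := by
    rw [hκ0]
    exact Nat.succ_le_succ (Nat.zero_le _)
  have hTκ : T ≤ B * κ0 := by
    rw [hκ0]
    exact (Nat.lt_mul_div_succ _ (by omega)).le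
  have hBκ : B * κ0 ≤ 2 * T := by
    have h3 : B * (T / B) ≤ T := Nat.mul_div_le _ _
    have h4 : B * κ0 = B * (T / B) + B := by rw [hκ0]; ring
    omega
  have hnκ : n * κ0 ≤ 64 * (M * T) := by
    calc n * κ0 ≤ 32 * (M * B) * κ0 := Nat.mul_le_mul_right _ hnB
      _ = 32 * M * (B * κ0) := by ring
      _ ≤ 32 * M * (2 * T) := Nat.mul_le_mul_left _ hBκ
      _ = 64 * (M * T) := by ring
  obtain ⟨κ, hκ⟩ : ∃ κ, κ = 2 * (P + 1) * κ0 / M + 1 := ⟨_, rfl⟩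
  have hκa : 2 * (P + 1) * κ0 ≤ κ * M := by
    rw [hκ, Nat.mul_comm _ M]
    exact (Nat.lt_mul_div_succ _ (by omega)).le
  have hκb : M * (κ + 1) ≤ 2 * (P + 1) * κ0 + 2 * M := by
    have h3 : M * (2 * (P + 1) * κ0 / M) ≤ 2 * (P + 1) * κ0 := Nat.mul_div_le _ _
    have h4 : M * (κ + 1) = M * (2 * (P + 1) * κ0 / M) + 2 * M := by rw [hκ]; ring
    omega
  have hκc : n * (κ + 1) ≤ 130 * ((P + 1) * T) := by
    refine Nat.le_of_mul_le_mul_left ?_ (show 0 < M by omega)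
    calc M * (n * (κ + 1)) = n * (M * (κ + 1)) := by ring
      _ ≤ n * (2 * (P + 1) * κ0 + 2 * M) := Nat.mul_le_mul_left _ hκb
      _ = 2 * (P + 1) * (n * κ0) + 2 * M * n := by ring
      _ ≤ 2 * (P + 1) * (64 * (M * T)) + 2 * M * (1 * T) := by
          refine Nat.add_le_add (Nat.mul_le_mul_left _ hnκ) (Nat.mul_le_mul_left _ ?_)
          omega
      _ ≤ 2 * (P + 1) * (64 * (M * T)) + 2 * M * ((P + 1) * T) := by
          refine Nat.add_le_add_left (Nat.mul_le_mul_left _ (Nat.mul_le_mul_right _ ?_)) _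
          omega
      _ = M * (130 * ((P + 1) * T)) := by ring
  obtain ⟨Q, hQ⟩ : ∃ Q, Q = 16 ^ (P + 1) := ⟨_, rfl⟩
  have hQ1 : 0 < Q := by rw [hQ]; positivity
  obtain ⟨m, hmdef⟩ : ∃ m, m = N / (128 * Q) := ⟨_, rfl⟩
  refine ⟨N, B, κ0, κ, m, hPl, hgl, h1, hN, hB1, hB4, hTκ, hκa, ?_, ?_, ?_⟩
  · refine Nat.le_of_mul_le_mul_left ?_ (show 0 < n by omega)
    generalize (2 * k).descFactorial (P + 1) = D1 at *
    generalize M.descFactorial (P + 1) = D2 at *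
    have h3 : n * (κ0 + 2) ≤ 192 * (M * T) := by
      calc n * (κ0 + 2) ≤ n * (3 * κ0) := Nat.mul_le_mul_left _ (by omega)
        _ = 3 * (n * κ0) := by ring
        _ ≤ 3 * (64 * (M * T)) := Nat.mul_le_mul_left _ hnκ
        _ = 192 * (M * T) := by ring
    calc n * (6 * (κ0 + 2) * D1) = 6 * D1 * (n * (κ0 + 2)) := by ring
      _ ≤ 6 * D1 * (192 * (M * T)) := Nat.mul_le_mul_left _ h3
      _ = 1152 * M * T * D1 := by ring
      _ ≤ n * D2 := hbad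
  · rw [← hQ, hmdef]
    exact Nat.mul_div_le _ _
  · rw [← hQ] at hm
    rw [hmdef, Nat.lt_iff_add_one_le, Nat.le_div_iff_mul_le (by omega)]
    refine Nat.le_of_mul_le_mul_left ?_ (show 0 < 4 * M by omega)
    refine le_trans ?_ (hNM.trans (le_of_eq (by ring)))
    refine Nat.le_of_mul_le_mul_left ?_ (show 0 < n by omega)
    have h3 : 1 ≤ (k + P + 2) * (κ + 1) * S := by
      have h4 : 0 < (k + P + 2) * (κ + 1) * S := by positivity
      exact h4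
    calc n * (4 * M * ((256 * (k + P + 2) * (κ + 1) * S + 1) * (128 * Q)))
        = 512 * (n * M * Q) * (256 * ((k + P + 2) * (κ + 1) * S) + 1) := by ring
      _ ≤ 512 * (n * M * Q) * (257 * ((k + P + 2) * (κ + 1) * S)) :=
          Nat.mul_le_mul_left _ (by omega)
      _ = 131584 * (M * Q * (k + P + 2) * S) * (n * (κ + 1)) := by ring
      _ ≤ 131584 * (M * Q * (k + P + 2) * S) * (130 * ((P + 1) * T)) :=
          Nat.mul_le_mul_left _ hκc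
      _ = 17105920 * (Q * (P + 1) * (k + P + 2) * M * S * T) := by ring
      _ ≤ 2 ^ 25 * (Q * (P + 1) * (k + P + 2) * M * S * T) :=
          Nat.mul_le_mul_right _ (by norm_num)
      _ = 2 ^ 25 * Q * (P + 1) * (k + P + 2) * M * S * T := by ring
      _ ≤ n ^ 2 := hm
      _ = n * n := by ring

/-- few heads: `2 * k + 2` players -/
theorem numFew : ∃ C : ℕ, ∀ n k T S : ℕ, 1 ≤ n → n ≤ T → 1 ≤ S →
    C ^ (k + 1) * T * S ≤ n ^ 2 → ∃ g N B κ0 κ m : ℕ, Par n k T S (2 * k + 1) g N B κ0 κ m := by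
  refine ⟨2 ^ 42, fun n k T S hn hT hS h => ?_⟩
  obtain ⟨A, hA⟩ : ∃ A, A = 2 ^ (k + 1) := ⟨_, rfl⟩
  have hA2 : 2 ≤ A := by
    rw [hA, pow_succ]
    have := Nat.one_le_two_pow (n := k)
    omega
  have hkA : k + 1 ≤ A := by
    rw [hA]
    exact Nat.lt_two_pow_self.le
  have hC : (2 ^ 42) ^ (k + 1) = A ^ 42 := by rw [hA, ← pow_mul, ← pow_mul, Nat.mul_comm]
  rw [hC] at h
  have hAn : A ^ 42 ≤ n := by
    refine Nat.le_of_mul_le_mul_right ?_ (show 0 < n by omega)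
    calc A ^ 42 * n ≤ A ^ 42 * T := Nat.mul_le_mul_left _ hT
      _ = A ^ 42 * T * 1 := by ring
      _ ≤ A ^ 42 * T * S := Nat.mul_le_mul_left _ hS
      _ ≤ n ^ 2 := h
      _ = n * n := by ring
  have hclog : 2 ^ Nat.clog 2 (4 * (k + 1)) ≤ 8 * (k + 1) := by
    have h3 := Nat.pow_pred_clog_lt_self (b := 2) (by norm_num) (x := 4 * (k + 1)) (by omega)
    have h4 : 0 < Nat.clog 2 (4 * (k + 1)) := Nat.clog_pos (by norm_num) (by omega)
    obtain ⟨c, hc⟩ : ∃ c, Nat.clog 2 (4 * (k + 1)) = c + 1 :=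
      ⟨_, (Nat.succ_pred_eq_of_pos h4).symm⟩
    rw [hc] at h3 ⊢
    rw [Nat.pred_succ] at h3
    rw [pow_succ]
    omega
  have hclog2 : 4 * (k + 1) ≤ 2 ^ Nat.clog 2 (4 * (k + 1)) := Nat.le_pow_clog (by norm_num) _
  have hM8 : 2 ^ Nat.clog 2 (4 * (k + 1)) ≤ 8 * A := hclog.trans (by omega)
  refine ⟨Nat.clog 2 (4 * (k + 1)), par_of ?_ ?_ hT hS ?_ ?_ ?_⟩
  · omega
  · calc 32 * 2 ^ Nat.clog 2 (4 * (k + 1)) ≤ 32 * (8 * A) := Nat.mul_le_mul_left _ hM8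
      _ = 2 ^ 8 * A := by ring
      _ ≤ A ^ 41 * A := Nat.mul_le_mul_right _ ?_
      _ = A ^ 42 := by ring
      _ ≤ n := hAn
    calc 2 ^ 8 ≤ 2 ^ 41 := by norm_num
      _ ≤ A ^ 41 := Nat.pow_le_pow_left hA2 _
  · calc 2 ^ (2 * k + 1 + 1) = A ^ 2 := by rw [hA, ← pow_mul]; congr 1; ring
      _ ≤ A ^ 42 := Nat.pow_le_pow_right (by omega) (by norm_num)
      _ ≤ n := hAn
  · have h3 : (2 * k).descFactorial (2 * k + 1 + 1) = 0 :=
      Nat.descFactorial_eq_zero_iff_lt.mpr (by omega)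
    rw [h3, Nat.mul_zero]
    exact Nat.zero_le _
  · have h3 : 16 ^ (2 * k + 1 + 1) = A ^ 8 := by
      rw [hA, ← pow_mul, show (16 : ℕ) = 2 ^ 4 by norm_num, ← pow_mul]
      congr 1
      ring
    rw [h3]
    generalize 2 ^ Nat.clog 2 (4 * (k + 1)) = M at *
    calc 2 ^ 25 * A ^ 8 * (2 * k + 1 + 1) * (k + (2 * k + 1) + 2) * M * S * T
        = 2 ^ 25 * A ^ 8 * (6 * ((k + 1) * (k + 1) * M)) * (T * S) := by ring
      _ ≤ 2 ^ 25 * A ^ 8 * (8 * (A * A * (8 * A))) * (T * S) := by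
          refine Nat.mul_le_mul_right _ (Nat.mul_le_mul_left _ (Nat.mul_le_mul (by norm_num) ?_))
          exact Nat.mul_le_mul (Nat.mul_le_mul hkA hkA) hM8
      _ = 2 ^ 31 * (A ^ 11 * (T * S)) := by ring
      _ ≤ A ^ 31 * (A ^ 11 * (T * S)) := Nat.mul_le_mul_right _ (Nat.pow_le_pow_left hA2 _)
      _ = A ^ 42 * T * S := by ring
      _ ≤ n ^ 2 := h

private theorem exists_pow {n k p T : ℕ} (hn : 1 ≤ n) (hk : 1 ≤ k) (hp : 1 ≤ p) (hT : n ≤ T) :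
    ∃ g : ℕ, 2 * (p + 1) ≤ 2 ^ g ∧ 2 ^ (8 * (p + 1)) * T * k ^ (p + 1) ≤ n * (2 ^ g) ^ p ∧
      n * (2 ^ g) ^ p ≤ 2 ^ (9 * (p + 1) ^ 2) * T * k ^ (p + 1) := by
  classical
  have hex : ∃ g : ℕ, 2 * (p + 1) ≤ 2 ^ g ∧
      2 ^ (8 * (p + 1)) * T * k ^ (p + 1) ≤ n * (2 ^ g) ^ p := by
    refine ⟨2 * (p + 1) + 2 ^ (8 * (p + 1)) * T * k ^ (p + 1), ?_, ?_⟩
    · exact (Nat.le_add_right _ _).trans Nat.lt_two_pow_self.le
    · generalize 2 ^ (8 * (p + 1)) * T * k ^ (p + 1) = X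
      calc X ≤ 2 * (p + 1) + X := Nat.le_add_left _ _
        _ ≤ 2 ^ (2 * (p + 1) + X) := Nat.lt_two_pow_self.le
        _ ≤ (2 ^ (2 * (p + 1) + X)) ^ p := Nat.le_self_pow (by omega) _
        _ = 1 * (2 ^ (2 * (p + 1) + X)) ^ p := by ring
        _ ≤ n * (2 ^ (2 * (p + 1) + X)) ^ p := Nat.mul_le_mul_right _ hn
  obtain ⟨g, hg, hmin⟩ : ∃ g : ℕ, (2 * (p + 1) ≤ 2 ^ g ∧
      2 ^ (8 * (p + 1)) * T * k ^ (p + 1) ≤ n * (2 ^ g) ^ p) ∧ ∀ g' < g, ¬(2 * (p + 1) ≤ 2 ^ g' ∧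
      2 ^ (8 * (p + 1)) * T * k ^ (p + 1) ≤ n * (2 ^ g') ^ p) :=
    ⟨Nat.find hex, Nat.find_spec hex, fun g' hg' => Nat.find_min hex hg'⟩
  refine ⟨g, hg.1, hg.2, ?_⟩
  have hg0 : g ≠ 0 := by
    rintro rfl
    have := hg.1
    omega
  obtain ⟨g', rfl⟩ := Nat.exists_eq_succ_of_ne_zero hg0
  have hm := hmin g' (Nat.lt_succ_self _)
  have hk1 : 1 ≤ k ^ (p + 1) := Nat.one_le_pow _ _ hk
  by_cases hc : 2 * (p + 1) ≤ 2 ^ g'
  · have h3 : n * (2 ^ g') ^ p ≤ 2 ^ (8 * (p + 1)) * T * k ^ (p + 1) := by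
      by_contra hcon
      exact hm ⟨hc, by omega⟩
    calc n * (2 ^ g'.succ) ^ p = 2 ^ p * (n * (2 ^ g') ^ p) := by
          rw [Nat.succ_eq_add_one, pow_succ, mul_pow]; ring
      _ ≤ 2 ^ p * (2 ^ (8 * (p + 1)) * T * k ^ (p + 1)) := Nat.mul_le_mul_left _ h3
      _ = 2 ^ (p + 8 * (p + 1)) * (T * k ^ (p + 1)) := by rw [pow_add]; ring
      _ ≤ 2 ^ (9 * (p + 1) ^ 2) * (T * k ^ (p + 1)) :=
          Nat.mul_le_mul_right _ (Nat.pow_le_pow_right (by norm_num) (by nlinarith))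
      _ = 2 ^ (9 * (p + 1) ^ 2) * T * k ^ (p + 1) := by ring
  · have h4 : 2 ^ g'.succ ≤ 4 * (p + 1) := by
      rw [Nat.succ_eq_add_one, pow_succ]
      omega
    have h5 : 4 * (p + 1) ≤ 2 ^ (2 + (p + 1)) := by
      rw [pow_add]
      exact Nat.mul_le_mul_left _ Nat.lt_two_pow_self.le
    calc n * (2 ^ g'.succ) ^ p ≤ T * (2 ^ (2 + (p + 1))) ^ p :=
          Nat.mul_le_mul hT (Nat.pow_le_pow_left (h4.trans h5) _)
      _ = 2 ^ ((2 + (p + 1)) * p) * (T * 1) := by rw [pow_mul]; ring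
      _ ≤ 2 ^ (9 * (p + 1) ^ 2) * (T * k ^ (p + 1)) := by
          refine Nat.mul_le_mul (Nat.pow_le_pow_right (by norm_num) (by nlinarith)) ?_
          exact Nat.mul_le_mul_left _ hk1
      _ = 2 ^ (9 * (p + 1) ^ 2) * T * k ^ (p + 1) := by ring

/-- many heads: `p` players -/
theorem numMany : ∃ C : ℕ, ∀ n k p T S : ℕ, 1 ≤ n → 1 ≤ k → 2 ≤ p → n ≤ T → 1 ≤ S →
    C ^ (p ^ 2) * k ^ (2 * p - 1) * T ^ p * S ^ (p - 1) ≤ n ^ (2 * p - 1) →
    ∃ g N B κ0 κ m : ℕ, Par n k T S (p - 1) g N B κ0 κ m := by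
  refine ⟨2 ^ 28, fun n k p T S hn hk hp hT hS h => ?_⟩
  obtain ⟨P, rfl⟩ : ∃ P, p = P + 1 := ⟨p - 1, by omega⟩
  have hP1 : 1 ≤ P := by omega
  have e1 : 2 * (P + 1) - 1 = 2 * P + 1 := by omega
  have e2 : P + 1 - 1 = P := by omega
  rw [e1, e2] at h
  rw [e2]
  obtain ⟨g, hg1, hg2, hg3⟩ := exists_pow (p := P) hn hk hP1 hT
  have hM0 : 0 < 2 ^ g := by positivity
  -- the main bound
  have hmain : 2 ^ (19 * (P + 1)) * k * 2 ^ g * S * T ≤ n ^ 2 := by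
    have h3 : n * (2 ^ (19 * (P + 1)) * k * 2 ^ g * S * T) ^ P ≤ n * (n ^ 2) ^ P := by
      calc n * (2 ^ (19 * (P + 1)) * k * 2 ^ g * S * T) ^ P
          = 2 ^ (19 * (P + 1) * P) * (k ^ P * S ^ P * T ^ P) * (n * (2 ^ g) ^ P) := by
            rw [mul_pow, mul_pow, mul_pow, mul_pow, ← pow_mul 2 (19 * (P + 1)) P]; ring
        _ ≤ 2 ^ (19 * (P + 1) ^ 2) * (k ^ P * S ^ P * T ^ P) *
            (2 ^ (9 * (P + 1) ^ 2) * T * k ^ (P + 1)) := by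
            refine Nat.mul_le_mul (Nat.mul_le_mul_right _ ?_) hg3
            exact Nat.pow_le_pow_right (by norm_num) (by nlinarith)
        _ = (2 ^ 28) ^ ((P + 1) ^ 2) * k ^ (2 * P + 1) * T ^ (P + 1) * S ^ P := by
            have e3 : (2 ^ 28) ^ ((P + 1) ^ 2) =
                2 ^ (19 * (P + 1) ^ 2) * 2 ^ (9 * (P + 1) ^ 2) := by
              rw [← pow_add, ← pow_mul]; congr 1; ring
            rw [e3]
            ring
        _ ≤ n ^ (2 * P + 1) := h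
        _ = n * (n ^ 2) ^ P := by ring
    have h4 := Nat.le_of_mul_le_mul_left h3 (show 0 < n by omega)
    exact (Nat.pow_le_pow_iff_left (by omega)).mp h4
  obtain ⟨M, hM⟩ : ∃ M, M = 2 ^ g := ⟨_, rfl⟩
  rw [← hM] at hg1 hg2 hM0 hmain
  have hA32 : 32 ≤ 2 ^ (19 * (P + 1)) := by
    calc 32 = 2 ^ 5 := by norm_num
      _ ≤ 2 ^ (19 * (P + 1)) := Nat.pow_le_pow_right (by norm_num) (by omega)
  have hMn : 2 ^ (19 * (P + 1)) * M ≤ n := by
    refine Nat.le_of_mul_le_mul_right ?_ (show 0 < n by omega)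
    calc 2 ^ (19 * (P + 1)) * M * n = 2 ^ (19 * (P + 1)) * M * (1 * 1) * n := by ring
      _ ≤ 2 ^ (19 * (P + 1)) * M * (k * S) * T :=
          Nat.mul_le_mul (Nat.mul_le_mul_left _ (Nat.mul_le_mul hk hS)) hT
      _ = 2 ^ (19 * (P + 1)) * k * M * S * T := by ring
      _ ≤ n ^ 2 := hmain
      _ = n * n := by ring
  refine ⟨g, par_of ?_ ?_ hT hS ?_ ?_ ?_⟩
  · rw [← hM]
    exact hg1
  · rw [← hM]
    exact (Nat.mul_le_mul_right _ hA32).trans hMn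
  · calc 2 ^ (P + 1) ≤ 2 ^ (19 * (P + 1)) := Nat.pow_le_pow_right (by norm_num) (by omega)
      _ = 2 ^ (19 * (P + 1)) * 1 := by ring
      _ ≤ 2 ^ (19 * (P + 1)) * M := Nat.mul_le_mul_left _ hM0
      _ ≤ n := hMn
  · rw [← hM]
    have hD1 : (2 * k).descFactorial (P + 1) ≤ (2 * k) ^ (P + 1) :=
      Nat.descFactorial_le_pow _ _
    have hD2 : (M + 1 - (P + 1)) ^ (P + 1) ≤ M.descFactorial (P + 1) :=
      Nat.pow_sub_le_descFactorial _ _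
    have hD3 : M ^ (P + 1) ≤ 2 ^ (P + 1) * M.descFactorial (P + 1) := by
      calc M ^ (P + 1) ≤ (2 * (M + 1 - (P + 1))) ^ (P + 1) :=
            Nat.pow_le_pow_left (by omega) _
        _ = 2 ^ (P + 1) * (M + 1 - (P + 1)) ^ (P + 1) := mul_pow _ _ _
        _ ≤ 2 ^ (P + 1) * M.descFactorial (P + 1) := Nat.mul_le_mul_left _ hD2
    refine Nat.le_of_mul_le_mul_left ?_ (show 0 < 2 ^ (P + 1) by positivity)
    have e3 : 1152 * (2 ^ (P + 1) * 2 ^ (P + 1)) ≤ 2 ^ (8 * (P + 1)) := by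
      have e4 : 2 ^ (8 * (P + 1)) = 2 ^ (6 * (P + 1)) * (2 ^ (P + 1) * 2 ^ (P + 1)) := by
        rw [← pow_add, ← pow_add]; congr 1; ring
      rw [e4]
      refine Nat.mul_le_mul_right _ ?_
      calc 1152 ≤ 2 ^ 12 := by norm_num
        _ ≤ 2 ^ (6 * (P + 1)) := Nat.pow_le_pow_right (by norm_num) (by omega)
    calc 2 ^ (P + 1) * (1152 * M * T * (2 * k).descFactorial (P + 1))
        ≤ 2 ^ (P + 1) * (1152 * M * T * (2 * k) ^ (P + 1)) :=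
          Nat.mul_le_mul_left _ (Nat.mul_le_mul_left _ hD1)
      _ = 1152 * (2 ^ (P + 1) * 2 ^ (P + 1)) * (M * T * k ^ (P + 1)) := by
          rw [mul_pow]; ring
      _ ≤ 2 ^ (8 * (P + 1)) * (M * T * k ^ (P + 1)) := Nat.mul_le_mul_right _ e3
      _ = M * (2 ^ (8 * (P + 1)) * T * k ^ (P + 1)) := by ring
      _ ≤ M * (n * M ^ P) := Nat.mul_le_mul_left _ hg2
      _ = n * M ^ (P + 1) := by ring
      _ ≤ n * (2 ^ (P + 1) * M.descFactorial (P + 1)) := Nat.mul_le_mul_left _ hD3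
      _ = 2 ^ (P + 1) * (n * M.descFactorial (P + 1)) := by ring
  · rw [← hM]
    have e5 : P + 1 ≤ 2 ^ (P + 1) := Nat.lt_two_pow_self.le
    have e6 : k + P + 2 ≤ 2 * k * (P + 1) := by
      obtain ⟨a, rfl⟩ := Nat.exists_eq_add_of_le hk
      obtain ⟨b, rfl⟩ := Nat.exists_eq_add_of_le hP1
      have e7 : 2 * (1 + a) * (1 + b + 1) = 2 * (a * b) + 4 * a + 2 * b + 4 := by ring
      rw [e7]
      omega
    have e7 : 16 ^ (P + 1) = 2 ^ (4 * (P + 1)) := by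
      rw [show (16 : ℕ) = 2 ^ 4 by norm_num, ← pow_mul]
    calc 2 ^ 25 * 16 ^ (P + 1) * (P + 1) * (k + P + 2) * M * S * T
        = 2 ^ 25 * 16 ^ (P + 1) * ((P + 1) * (k + P + 2)) * (M * S * T) := by ring
      _ ≤ 2 ^ 25 * 16 ^ (P + 1) * (2 ^ (P + 1) * (2 * k * 2 ^ (P + 1))) * (M * S * T) := by
          refine Nat.mul_le_mul_right _ (Nat.mul_le_mul_left _ (Nat.mul_le_mul e5 ?_))
          exact e6.trans (Nat.mul_le_mul_left _ e5)
      _ = 2 ^ (26 + 6 * (P + 1)) * (k * M * S * T) := by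
          have e8 : 2 ^ (26 + 6 * (P + 1)) =
              2 ^ 25 * 2 ^ (4 * (P + 1)) * (2 ^ (P + 1) * 2 ^ (P + 1)) * 2 := by
            rw [← pow_add, ← pow_add, ← pow_add, ← pow_succ]; congr 1; ring
          rw [e7, e8]
          ring
      _ ≤ 2 ^ (19 * (P + 1)) * (k * M * S * T) :=
          Nat.mul_le_mul_right _ (Nat.pow_le_pow_right (by norm_num) (by omega))
      _ = 2 ^ (19 * (P + 1)) * k * M * S * T := by ring
      _ ≤ n ^ 2 := hmain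

end Pool.Agent.SW
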