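import Mathlib
import Pool.Agent.Lib.MP_69a69c_lc_SH.PathN
import Pool.Agent.Lib.MP_69a69c_lc_SW.Defs

/-!
# One head, no stack, no oracle: `n ^ 2 / S` head moves suffice
-/

set_option autoImplicit false

namespace Pool.Agent.SW

open Pool.Agent.LT (Inp)
open Pool.Agent.ST (getBit)
open Pool.Agent.HM (nbr)
open Pool.Agent.SH (HeadDetN headDetN_of_path)

/-! ### The path -/

private lemma succ_cases (m : ℕ) (hm : 0 < m) (t : ℕ) :
    ((t + 1) % m = t % m + 1 ∧ (t + 1) / m = t / m ∧ t % m + 1 < m) ∨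
      ((t + 1) % m = 0 ∧ (t + 1) / m = t / m + 1 ∧ t % m + 1 = m) := by
  have h1 := Nat.div_add_mod t m
  have h2 := Nat.mod_lt t hm
  rcases Nat.lt_or_ge (t % m + 1) m with h3 | h3
  · left
    have e : t + 1 = (t % m + 1) + m * (t / m) := by omega
    refine ⟨?_, ?_, h3⟩
    · rw [e, Nat.add_mul_mod_self_left, Nat.mod_eq_of_lt h3]
    · rw [e, Nat.add_mul_div_left _ _ hm, Nat.div_eq_of_lt h3]
      omega
  · right
    have h4 : t % m + 1 = m := by omega
    have e : t + 1 = 0 + m * (t / m + 1) := by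
      rw [Nat.mul_add]
      omega
    refine ⟨?_, ?_, h4⟩
    · rw [e, Nat.add_mul_mod_self_left, Nat.zero_mod]
    · rw [e, Nat.add_mul_div_left _ _ hm, Nat.zero_div, zero_add]

private def cell (n t : ℕ) : ℕ :=
  if t % (2 * n) < n then t % (2 * n) else 2 * n - 1 - t % (2 * n)

private lemma cell_lt {n : ℕ} (hn : 0 < n) (t : ℕ) : cell n t < n := by
  unfold cell
  split <;> omega

private lemma cell_succ {n : ℕ} (hn : 0 < n) (t : ℕ) :
    (⟨cell n (t + 1), cell_lt hn (t + 1)⟩ : Fin n) =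
      nbr ⟨cell n t, cell_lt hn t⟩ (decide (t % (2 * n) < n)) := by
  have h2 := Nat.mod_lt t (show 0 < 2 * n by omega)
  have hs := succ_cases (2 * n) (by omega) t
  obtain ⟨u, hu⟩ : ∃ u, u = t % (2 * n) := ⟨_, rfl⟩
  obtain ⟨u', hu'⟩ : ∃ u', u' = (t + 1) % (2 * n) := ⟨_, rfl⟩
  have hc : cell n t = if u < n then u else 2 * n - 1 - u := by rw [hu]; rfl
  have hc' : cell n (t + 1) = if u' < n then u' else 2 * n - 1 - u' := by rw [hu']; rfl
  rw [← hu, ← hu'] at hs
  rw [← hu] at h2
  rw [Fin.ext_iff, ← hu]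
  unfold nbr
  by_cases h : u < n
  · simp only [h, decide_true, if_true]
    by_cases h3 : cell n t + 1 < n
    · rw [dif_pos h3]
      simp only
      rw [hc, if_pos h] at h3 ⊢
      rw [hc']
      rcases hs with hs | hs
      · rw [hs.1, if_pos h3]
      · omega
    · rw [dif_neg h3]
      simp only
      rw [hc, if_pos h] at h3 ⊢
      rw [hc']
      rcases hs with hs | hs
      · rw [hs.1, if_neg h3]
        omega
      · omega
  · simp only [h, decide_false, Bool.false_eq_true, if_false]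
    rw [hc, if_neg h, hc']
    rcases hs with hs | hs
    · rw [hs.1, if_neg (by omega)]
      omega
    · rw [hs.1, if_pos (by omega)]
      omega

private lemma getBit_eq {n : ℕ} (x : Inp n) {c : ℕ} (h : c < n) : getBit x c = x ⟨c, h⟩ := by
  unfold getBit
  rw [dif_pos h]

/-! ### The counts -/

/-- the number of ones of the blocks `j < M` at the place `s * ρ + i` among the cells read -/
private def vc {n : ℕ} (s L N M : ℕ) (x : Inp n) (ρ u i : ℕ) : ℕ :=
  ∑ j ∈ Finset.range M, if 2 * L + (j * N + (s * ρ + i)) < min u n then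
    (getBit x (2 * L + (j * N + (s * ρ + i)))).toNat else 0

private lemma vc_le {n : ℕ} (s L N M : ℕ) (x : Inp n) (ρ u i : ℕ) : vc s L N M x ρ u i ≤ M := by
  unfold vc
  calc _ ≤ ∑ _j ∈ Finset.range M, 1 := Finset.sum_le_sum fun j _ => by
        split_ifs
        · exact Bool.toNat_le _
        · exact Nat.zero_le _
    _ = M := by simp

private lemma vc_early {n : ℕ} (s L N M : ℕ) (x : Inp n) (ρ i : ℕ) {u : ℕ} (hu : u ≤ 2 * L) :
    vc s L N M x ρ u i = 0 := by
  unfold vc
  refine Finset.sum_eq_zero fun j _ => ?_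
  rw [if_neg (by omega)]

private lemma vc_succ {n : ℕ} (s L N M : ℕ) (x : Inp n) (ρ i : ℕ) {u : ℕ} (hu : u < n) :
    vc s L N M x ρ (u + 1) i = vc s L N M x ρ u i +
      ∑ j ∈ Finset.range M, if 2 * L + (j * N + (s * ρ + i)) = u then (x ⟨u, hu⟩).toNat
        else 0 := by
  unfold vc
  rw [← Finset.sum_add_distrib]
  refine Finset.sum_congr rfl fun j _ => ?_
  rcases Nat.lt_trichotomy (2 * L + (j * N + (s * ρ + i))) u with h | h | h
  · rw [if_pos (by omega), if_pos (by omega), if_neg (by omega), add_zero]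
  · rw [if_pos (by omega), if_neg (by omega), if_pos h, zero_add, h, getBit_eq x hu]
  · rw [if_neg (by omega), if_neg (by omega), if_neg (by omega)]

/-! ### The states -/

/-- the length of a chunk -/
private def ck (S g : ℕ) : ℕ := max 1 (S / (g + 1))

/-- the length of a block -/
private def bl (n L g : ℕ) : ℕ := (n - 2 * L) / 2 ^ g

private abbrev Stt (S L : ℕ) : Type :=
  Σ g : Fin (L + 1), Fin (L + 1) × (Fin (ck S (g : ℕ)) → Fin (2 ^ (g : ℕ) + 1)) × Bool

private def mk0 {S L : ℕ} (g p : Fin (L + 1)) : Stt S L :=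
  ⟨g, p, fun _ => ⟨0, Nat.succ_pos _⟩, false⟩

/-- the number of ones at the place `t` of the blocks is divisible by `p + 1` -/
private def Dv' {n : ℕ} (L g p : ℕ) (x : Inp n) (t : ℕ) : Prop :=
  p + 1 ∣ ∑ j ∈ Finset.range (2 ^ g), (getBit x (2 * L + j * bl n L g + t)).toNat

open Classical in
/-- the state after the first `2 * L` steps -/
private noncomputable def lat {n : ℕ} (S L : ℕ) (x : Inp n) (g p : Fin (L + 1)) (ρ u : ℕ) :
    Stt S L :=
  ⟨g, p, fun i => ⟨vc (ck S g) L (bl n L g) (2 ^ (g : ℕ)) x ρ u i,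
    Nat.lt_succ_of_le (vc_le _ _ _ _ _ _ _ _)⟩,
    decide (∃ t < min (bl n L g) (ck S g * ρ), Dv' L g p x t)⟩

private lemma lat_early {n : ℕ} (S L : ℕ) (x : Inp n) (g p : Fin (L + 1)) {u : ℕ}
    (hu : u ≤ 2 * L) : lat S L x g p 0 u = mk0 g p := by
  unfold lat mk0
  simp only [vc_early _ _ _ _ _ _ _ hu, mul_zero, Nat.min_zero, Nat.not_lt_zero, false_and,
    exists_false, decide_false]

open Classical in
private noncomputable def spL (n S L t : ℕ) (q : Stt S L) (b : Bool) : Stt S L :=
  if t % (2 * n) < n then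
    ⟨q.1, q.2.1, fun i => ⟨min (2 ^ (q.1 : ℕ)) ((q.2.2.1 i : ℕ) +
      ∑ j ∈ Finset.range (2 ^ (q.1 : ℕ)), if 2 * L + (j * bl n L q.1 +
        (ck S q.1 * (t / (2 * n)) + i)) = t % (2 * n) then b.toNat else 0),
      Nat.lt_succ_of_le (min_le_left _ _)⟩, q.2.2.2⟩
  else if t % (2 * n) + 1 = 2 * n then
    ⟨q.1, q.2.1, fun _ => ⟨0, Nat.succ_pos _⟩, q.2.2.2 || decide (∃ i : Fin (ck S q.1),
      ck S q.1 * (t / (2 * n)) + i < bl n L q.1 ∧ (q.2.1 : ℕ) + 1 ∣ (q.2.2.1 i : ℕ))⟩
  else q

private lemma lat_succ {n : ℕ} (hn : 0 < n) {S L : ℕ} (hLn : 2 * L ≤ n) (x : Inp n)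
    (g p : Fin (L + 1)) (t : ℕ) :
    lat S L x g p ((t + 1) / (2 * n)) ((t + 1) % (2 * n)) =
      spL n S L t (lat S L x g p (t / (2 * n)) (t % (2 * n))) (x ⟨cell n t, cell_lt hn t⟩) := by
  classical
  have h2 := Nat.mod_lt t (show 0 < 2 * n by omega)
  have hs := succ_cases (2 * n) (by omega) t
  have hNM : 2 ^ (g : ℕ) * bl n L g ≤ n - 2 * L := Nat.mul_div_le _ _
  by_cases h : t % (2 * n) < n
  · have hs' : (t + 1) % (2 * n) = t % (2 * n) + 1 ∧ (t + 1) / (2 * n) = t / (2 * n) := by
      rcases hs with hs | hs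
      · exact ⟨hs.1, hs.2.1⟩
      · omega
    have hcell : (⟨cell n t, cell_lt hn t⟩ : Fin n) = ⟨t % (2 * n), h⟩ := by
      apply Fin.ext
      simp only
      unfold cell
      rw [if_pos h]
    rw [hs'.1, hs'.2, hcell]
    unfold spL
    rw [if_pos h]
    unfold lat
    simp only
    congr 3
    funext i
    apply Fin.ext
    simp only
    rw [← vc_succ _ _ _ _ _ _ _ h, min_eq_right (vc_le _ _ _ _ _ _ _ _)]
  · by_cases h3 : t % (2 * n) + 1 = 2 * n
    · have hs' : (t + 1) % (2 * n) = 0 ∧ (t + 1) / (2 * n) = t / (2 * n) + 1 := by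
        rcases hs with hs | hs
        · omega
        · exact ⟨hs.1, hs.2.1⟩
      rw [hs'.1, hs'.2]
      unfold spL
      rw [if_neg h, if_pos h3]
      unfold lat
      simp only [vc_early _ _ _ _ _ _ _ (Nat.zero_le (2 * L))]
      congr 3
      obtain ⟨u, hu⟩ : ∃ u, u = t % (2 * n) := ⟨_, rfl⟩
      obtain ⟨ρ, hρ⟩ : ∃ ρ, ρ = t / (2 * n) := ⟨_, rfl⟩
      rw [← hu] at h h3
      have key : ∀ i : ℕ, ck S g * ρ + i < bl n L g →
          ((p : ℕ) + 1 ∣ vc (ck S g) L (bl n L g) (2 ^ (g : ℕ)) x ρ u i ↔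
            Dv' L g p x (ck S g * ρ + i)) := by
        intro i hG
        unfold Dv' vc
        have e : (∑ j ∈ Finset.range (2 ^ (g : ℕ)),
            if 2 * L + (j * bl n L g + (ck S g * ρ + i)) < min u n then
              (getBit x (2 * L + (j * bl n L g + (ck S g * ρ + i)))).toNat else 0) =
            ∑ j ∈ Finset.range (2 ^ (g : ℕ)),
              (getBit x (2 * L + j * bl n L g + (ck S g * ρ + i))).toNat := by
          refine Finset.sum_congr rfl fun j hj => ?_
          rw [Finset.mem_range] at hj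
          have h5 : j * bl n L g + bl n L g ≤ 2 ^ (g : ℕ) * bl n L g := by
            have := Nat.mul_le_mul_right (bl n L g) hj
            rw [Nat.succ_mul] at this
            exact this
          rw [if_pos (by omega), Nat.add_assoc (2 * L) (j * bl n L g)]
        rw [e]
      rw [← hu, ← hρ]
      have h5 : ck S g * (ρ + 1) = ck S g * ρ + ck S g := by ring
      rw [Bool.eq_iff_iff, Bool.or_eq_true, decide_eq_true_iff, decide_eq_true_iff,
        decide_eq_true_iff]
      constructor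
      · rintro ⟨t', ht', hO⟩
        rw [lt_min_iff] at ht'
        rcases Nat.lt_or_ge t' (ck S g * ρ) with h4 | h4
        · exact Or.inl ⟨t', lt_min ht'.1 h4, hO⟩
        · right
          have e : ck S g * ρ + (t' - ck S g * ρ) = t' := by omega
          refine ⟨⟨t' - ck S g * ρ, by omega⟩, ?_, ?_⟩
          · simp only
            omega
          · simp only
            rw [key (t' - ck S g * ρ) (by omega), e]
            exact hO
      · rintro (⟨t', ht', hO⟩ | ⟨i, hG, hO⟩)
        · rw [lt_min_iff] at ht'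
          exact ⟨t', lt_min ht'.1 (by omega), hO⟩
        · have hi := i.isLt
          exact ⟨ck S g * ρ + i, lt_min hG (by omega), (key i hG).1 hO⟩
    · have hs' : (t + 1) % (2 * n) = t % (2 * n) + 1 ∧ (t + 1) / (2 * n) = t / (2 * n) := by
        rcases hs with hs | hs
        · exact ⟨hs.1, hs.2.1⟩
        · omega
      rw [hs'.1, hs'.2]
      unfold spL
      rw [if_neg h, if_neg h3]
      unfold lat
      congr 3
      funext i
      apply Fin.ext
      simp only
      unfold vc
      rw [min_eq_right (by omega : n ≤ t % (2 * n) + 1),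
        min_eq_right (by omega : n ≤ t % (2 * n))]

/-! ### The first `2 * L` steps -/

private lemma onesIn_le {n : ℕ} (x : Inp n) (a m : ℕ) : onesIn x a m ≤ m := by
  calc onesIn x a m ≤ ∑ _i ∈ Finset.range m, 1 := Finset.sum_le_sum fun i _ => Bool.toNat_le _
    _ = m := by simp

private def Pt {n : ℕ} (L : ℕ) (x : Inp n) (t : ℕ) : Fin (L + 1) :=
  ⟨onesIn x 0 (min L t), by have := onesIn_le x 0 (min L t); omega⟩

private def Gt {n : ℕ} (L : ℕ) (x : Inp n) (t : ℕ) : Fin (L + 1) :=
  ⟨onesIn x L (min L (t - L)), by have := onesIn_le x L (min L (t - L)); omega⟩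

open Classical in
private noncomputable def rn {n : ℕ} (S L : ℕ) (x : Inp n) (t : ℕ) : Stt S L :=
  if t < 2 * L then mk0 (Gt L x t) (Pt L x t)
  else lat S L x (Gt L x (2 * L)) (Pt L x (2 * L)) (t / (2 * n)) (t % (2 * n))

private lemma rn_early {n : ℕ} (hn : 0 < n) {S L : ℕ} (hLn : 2 * L ≤ n) (x : Inp n) {t : ℕ}
    (ht : t ≤ 2 * L) : rn S L x t = mk0 (Gt L x t) (Pt L x t) := by
  unfold rn
  split_ifs with h
  · rfl
  · have h1 : t = 2 * L := by omega
    subst h1
    rw [Nat.div_eq_of_lt (by omega), Nat.mod_eq_of_lt (by omega), lat_early _ _ _ _ _ le_rfl]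

private lemma rn_late {n : ℕ} {S L : ℕ} (x : Inp n) {t : ℕ} (ht : 2 * L ≤ t) :
    rn S L x t = lat S L x (Gt L x (2 * L)) (Pt L x (2 * L)) (t / (2 * n)) (t % (2 * n)) := by
  unfold rn
  rw [if_neg (by omega)]

open Classical in
private noncomputable def sp (n S L t : ℕ) (q : Stt S L) (b : Bool) : Stt S L :=
  if t < L then mk0 q.1 ⟨min L ((q.2.1 : ℕ) + b.toNat), by omega⟩
  else if t < 2 * L then mk0 ⟨min L ((q.1 : ℕ) + b.toNat), by omega⟩ q.2.1
  else spL n S L t q b

private lemma rn_succ {n : ℕ} (hn : 0 < n) {S L : ℕ} (hLn : 2 * L ≤ n) (x : Inp n) (t : ℕ) :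
    rn S L x (t + 1) = sp n S L t (rn S L x t) (x ⟨cell n t, cell_lt hn t⟩) := by
  rcases Nat.lt_or_ge t (2 * L) with h | h
  · have hc : (⟨cell n t, cell_lt hn t⟩ : Fin n) = ⟨t, by omega⟩ := by
      apply Fin.ext
      simp only
      unfold cell
      rw [Nat.mod_eq_of_lt (by omega), if_pos (by omega)]
    rw [rn_early hn hLn x (by omega : t + 1 ≤ 2 * L), rn_early hn hLn x h.le, hc]
    unfold sp
    rcases Nat.lt_or_ge t L with h1 | h1
    · rw [if_pos h1]
      unfold mk0
      have e1 : Gt L x (t + 1) = Gt L x t := by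
        apply Fin.ext
        unfold Gt
        simp only
        rw [show t + 1 - L = t - L by omega]
      have e2 : Pt L x (t + 1) =
          (⟨min L ((Pt L x t : ℕ) + (x ⟨t, by omega⟩).toNat), by omega⟩ : Fin (L + 1)) := by
        apply Fin.ext
        unfold Pt
        simp only
        have h3 := onesIn_le x 0 (t + 1)
        rw [min_eq_right (by omega : t + 1 ≤ L), min_eq_right (by omega : t ≤ L)]
        have h4 : onesIn x 0 (t + 1) = onesIn x 0 t + (x ⟨t, by omega⟩).toNat := by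
          unfold onesIn
          rw [Finset.sum_range_succ, zero_add, getBit_eq x (by omega)]
        rw [← h4]
        omega
      rw [e1, e2]
    · rw [if_neg (by omega), if_pos h]
      unfold mk0
      have e1 : Pt L x (t + 1) = Pt L x t := by
        apply Fin.ext
        unfold Pt
        simp only
        rw [min_eq_left (by omega : L ≤ t + 1), min_eq_left h1]
      have e2 : Gt L x (t + 1) =
          (⟨min L ((Gt L x t : ℕ) + (x ⟨t, by omega⟩).toNat), by omega⟩ : Fin (L + 1)) := by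
        apply Fin.ext
        unfold Gt
        simp only
        have h3 := onesIn_le x L (t + 1 - L)
        rw [min_eq_right (by omega : t + 1 - L ≤ L), min_eq_right (by omega : t - L ≤ L)]
        have h4 : onesIn x L (t + 1 - L) = onesIn x L (t - L) + (x ⟨t, by omega⟩).toNat := by
          unfold onesIn
          rw [show t + 1 - L = t - L + 1 by omega, Finset.sum_range_succ,
            show L + (t - L) = t by omega, getBit_eq x (by omega)]
        rw [← h4]
        omega
      rw [e1, e2]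
  · rw [rn_late x h, rn_late x (by omega : 2 * L ≤ t + 1)]
    unfold sp
    rw [if_neg (by omega), if_neg (by omega)]
    exact lat_succ hn hLn x _ _ t

private lemma two_log_le {n : ℕ} (hn : 1 ≤ n) : 2 * Nat.log 2 n ≤ n := by
  have h1 : 2 ^ Nat.log 2 n ≤ n := Nat.pow_log_le_self 2 (by omega)
  have h2 : ∀ m : ℕ, 2 * m ≤ 2 ^ m := by
    intro m
    induction m with
    | zero => omega
    | succ m ih =>
      rcases Nat.eq_zero_or_pos m with h0 | h0
      · subst h0
        norm_num
      · have h3 : 2 ^ (m + 1) = 2 * 2 ^ m := by ring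
        have h4 : 2 ≤ 2 * m := by omega
        omega
  exact (h2 _).trans h1

theorem tightW : ∃ C : ℕ, ∀ n S : ℕ, 1 ≤ n → 1 ≤ S → n ≤ 2 ^ S → S ≤ n → ∃ T w : ℕ, n ≤ T ∧
    T * S ≤ C * n ^ 2 ∧ w ≤ 2 ^ (C * S) ∧ HeadDetN (langW n) 1 T w := by
  classical
  refine ⟨6, fun n S hn hS hnS hSn => ?_⟩
  obtain ⟨L, hL⟩ : ∃ L, L = Nat.log 2 n := ⟨_, rfl⟩
  obtain ⟨R, hR⟩ : ∃ R, R = 2 * n / S + 1 := ⟨_, rfl⟩
  have hLn : 2 * L ≤ n := by rw [hL]; exact two_log_le hn
  have hL2 : 2 ^ L ≤ n := by rw [hL]; exact Nat.pow_log_le_self 2 (by omega)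
  have hLS : L ≤ S := (Nat.pow_le_pow_iff_right (by norm_num : 1 < 2)).1 (hL2.trans hnS)
  have hR1 : 1 ≤ R := by rw [hR]; exact Nat.le_add_left _ _
  have hRS : 2 * n < S * R := by
    rw [hR]
    exact Nat.lt_mul_div_succ _ (by omega)
  have hRS' : R * S ≤ 3 * n := by
    rw [hR, Nat.add_mul, one_mul]
    have := Nat.div_mul_le_self (2 * n) S
    omega
  obtain ⟨e⟩ : Nonempty (Stt S L ≃ Fin (Fintype.card (Stt S L))) := ⟨Fintype.equivFin _⟩
  refine ⟨2 * n * R, Fintype.card (Stt S L), ?_, ?_, ?_, ?_⟩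
  · nlinarith
  · calc 2 * n * R * S = 2 * n * (R * S) := by ring
      _ ≤ 2 * n * (3 * n) := Nat.mul_le_mul_left _ hRS'
      _ = 6 * n ^ 2 := by ring
  · have h1 : L + 1 ≤ 2 ^ S := (Nat.lt_two_pow_self (n := L)).trans_le
      (Nat.pow_le_pow_right (by norm_num) hLS)
    rw [Fintype.card_sigma]
    calc ∑ g : Fin (L + 1),
          Fintype.card (Fin (L + 1) × (Fin (ck S (g : ℕ)) → Fin (2 ^ (g : ℕ) + 1)) × Bool)
        ≤ ∑ _g : Fin (L + 1), 2 ^ S * (2 ^ (S + 1) * 2) := by
          refine Finset.sum_le_sum fun g _ => ?_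
          rw [Fintype.card_prod, Fintype.card_prod, Fintype.card_fun, Fintype.card_bool,
            Fintype.card_fin, Fintype.card_fin, Fintype.card_fin]
          refine Nat.mul_le_mul h1 (Nat.mul_le_mul_right _ ?_)
          have hg := g.isLt
          have h2 : (2 ^ (g : ℕ) + 1) ≤ 2 ^ ((g : ℕ) + 1) := by
            have := Nat.one_le_two_pow (n := (g : ℕ))
            rw [pow_succ]
            omega
          have h3 : ((g : ℕ) + 1) * ck S g ≤ S + 1 := by
            unfold ck
            rcases Nat.lt_or_ge (S / ((g : ℕ) + 1)) 1 with h4 | h4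
            · rw [max_eq_left h4.le]
              omega
            · rw [max_eq_right h4]
              have := Nat.mul_div_le S ((g : ℕ) + 1)
              omega
          calc (2 ^ (g : ℕ) + 1) ^ ck S g ≤ (2 ^ ((g : ℕ) + 1)) ^ ck S g :=
                Nat.pow_le_pow_left h2 _
            _ = 2 ^ (((g : ℕ) + 1) * ck S g) := by rw [pow_mul]
            _ ≤ 2 ^ (S + 1) := Nat.pow_le_pow_right (by norm_num) h3
      _ = (L + 1) * (2 ^ S * (2 ^ (S + 1) * 2)) := by simp
      _ ≤ 2 ^ S * (2 ^ S * (2 ^ (S + 1) * 2)) := Nat.mul_le_mul_right _ h1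
      _ = 2 ^ (3 * S + 2) := by ring
      _ ≤ 2 ^ (6 * S) := Nat.pow_le_pow_right (by norm_num) (by omega)
  · refine headDetN_of_path (langW n) _ (fun t => ⟨cell n t, cell_lt hn t⟩)
      (fun t => decide (t % (2 * n) < n)) (fun t _ => cell_succ hn t)
      (e (mk0 ⟨0, Nat.succ_pos _⟩ ⟨0, Nat.succ_pos _⟩))
      (fun t q b => e (sp n S L t (e.symm q) b))
      (fun q => (e.symm q).2.2.2)
      (fun x t => e (rn S L x t)) ?_ ?_ ?_
    · intro x
      rw [rn_early hn hLn x (Nat.zero_le _)]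
      congr 2
      · apply Fin.ext
        simp [Gt, onesIn]
      · apply Fin.ext
        simp [Pt, onesIn]
    · intro x t _
      rw [e.symm_apply_apply, ← rn_succ hn hLn x t]
    · intro x
      rw [e.symm_apply_apply, rn_late x (by nlinarith : 2 * L ≤ 2 * n * R)]
      have hG : ((Gt L x (2 * L) : Fin (L + 1)) : ℕ) = onesIn x L L := by
        unfold Gt
        simp only
        rw [show 2 * L - L = L by omega, min_self]
      have hP : ((Pt L x (2 * L) : Fin (L + 1)) : ℕ) = onesIn x 0 L := by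
        unfold Pt
        simp only
        rw [min_eq_left (by omega : L ≤ 2 * L)]
      obtain ⟨G, hGd⟩ : ∃ G, G = Gt L x (2 * L) := ⟨_, rfl⟩
      obtain ⟨P, hPd⟩ : ∃ P, P = Pt L x (2 * L) := ⟨_, rfl⟩
      rw [← hGd] at hG ⊢
      rw [← hPd] at hP ⊢
      unfold lat langW
      simp only
      rw [← hL, ← hG, ← hP]
      have hcov : bl n L G ≤ ck S G * R := by
        have h1 : S ≤ 2 * (((G : ℕ) + 1) * ck S G) := by
          unfold ck
          have h2 := Nat.div_add_mod S ((G : ℕ) + 1)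
          have h3 := Nat.mod_lt S (show 0 < (G : ℕ) + 1 by omega)
          rcases Nat.lt_or_ge (S / ((G : ℕ) + 1)) 1 with h4 | h4
          · rw [max_eq_left h4.le]
            have h5 : S / ((G : ℕ) + 1) = 0 := Nat.lt_one_iff.1 h4
            rw [h5, mul_zero] at h2
            omega
          · rw [max_eq_right h4]
            have h5 := Nat.mul_le_mul_left ((G : ℕ) + 1) h4
            omega
        have h2 : bl n L G * 2 ^ (G : ℕ) ≤ n :=
          (Nat.div_mul_le_self _ _).trans (Nat.sub_le _ _)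
        have h3 : (G : ℕ) + 1 ≤ 2 ^ (G : ℕ) := Nat.lt_two_pow_self
        by_contra hcon
        push Not at hcon
        have h4 : S * R ≤ 2 * (((G : ℕ) + 1) * ck S G) * R := Nat.mul_le_mul_right _ h1
        have h5 : ((G : ℕ) + 1) * (ck S G * R) ≤ 2 ^ (G : ℕ) * bl n L G :=
          Nat.mul_le_mul h3 hcon.le
        have h6 : 2 * (((G : ℕ) + 1) * ck S G) * R = 2 * (((G : ℕ) + 1) * (ck S G * R)) := by
          ring
        have h7 : 2 ^ (G : ℕ) * bl n L G = bl n L G * 2 ^ (G : ℕ) := Nat.mul_comm _ _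
        omega
      rw [Nat.mul_div_cancel_left _ (show 0 < 2 * n by omega), Bool.eq_iff_iff,
        decide_eq_true_iff, decide_eq_true_iff, min_eq_left hcov]
      rfl

end Pool.Agent.SW
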