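import Mathlib
import Pool.Agent.Lib.MP_b573ec_lc_ST.UpperB
import Pool.Agent.Lib.MP_69a69c_lc_SW.Defs

/-!
# A nondeterministic program which reads the input once

The program guesses the place `t`, counts the ones among the first `⌊log2 n⌋` bits and among the
next `⌊log2 n⌋` bits, and stores the number of ones at the place `t` of the blocks read so far.
-/

set_option autoImplicit false

namespace Pool.Agent.SW

open Pool.Agent.LT (Inp NondetOnePass)
open Pool.Agent.ST (getBit B8_path B8_nondet B8_sum_mul)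

/-- the states of the program -/
private abbrev upperW_S (n : ℕ) : Type :=
  Fin n × Fin (Nat.log 2 n + 1) × Fin (Nat.log 2 n + 1) × Fin (Nat.log 2 n + 1)

/-- the length of the blocks -/
private def upperW_N (n g : ℕ) : ℕ := (n - 2 * Nat.log 2 n) / 2 ^ g

/-- the step of the program -/
private def upperW_step (n m : ℕ) (s : upperW_S n) (b : Bool) : upperW_S n :=
  if m < Nat.log 2 n then
    (s.1, ⟨min (s.2.1 + b.toNat) (Nat.log 2 n), by omega⟩, s.2.2)
  else if m < 2 * Nat.log 2 n then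
    (s.1, s.2.1, ⟨min (s.2.2.1 + b.toNat) (Nat.log 2 n), by omega⟩, s.2.2.2)
  else
    (s.1, s.2.1, s.2.2.1,
      if m - 2 * Nat.log 2 n < 2 ^ (s.2.2.1 : ℕ) * upperW_N n s.2.2.1 ∧
          (m - 2 * Nat.log 2 n) % upperW_N n s.2.2.1 = (s.1 : ℕ)
      then ⟨(s.2.2.2 + b.toNat) % (s.2.1 + 1),
        lt_of_lt_of_le (Nat.mod_lt _ (Nat.succ_pos _)) s.2.1.isLt⟩ else s.2.2.2)

private theorem upperW_le {n : ℕ} (x : Inp n) (a k : ℕ) : onesIn x a k ≤ k := by
  calc onesIn x a k ≤ ∑ _i ∈ Finset.range k, 1 :=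
        Finset.sum_le_sum fun i _ => Bool.toNat_le _
    _ = k := by simp

private theorem upperW_first {n : ℕ} (x : Inp n) (t : Fin n) (k : ℕ) (hk : k ≤ Nat.log 2 n) :
    (B8_path (upperW_step n) x (t, 0, 0, 0) k).1 = t ∧
    ((B8_path (upperW_step n) x (t, 0, 0, 0) k).2.1 : ℕ) = onesIn x 0 k ∧
    (B8_path (upperW_step n) x (t, 0, 0, 0) k).2.2 = (0, 0) := by
  induction k with
  | zero => simp [B8_path, onesIn]
  | succ k ih =>
    obtain ⟨h1, h2, h3⟩ := ih (by omega)
    have hk' : k < Nat.log 2 n := hk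
    have hle := upperW_le x 0 k
    have hb : (getBit x (0 + k)).toNat ≤ 1 := Bool.toNat_le _
    simp only [B8_path, upperW_step, hk', if_true]
    refine ⟨h1, ?_, h3⟩
    unfold onesIn at h2 hle ⊢
    rw [Finset.sum_range_succ, h2]
    rw [Nat.zero_add] at hb ⊢
    omega

private theorem upperW_second {n : ℕ} (x : Inp n) (t : Fin n) (k : ℕ) (hk : k ≤ Nat.log 2 n) :
    (B8_path (upperW_step n) x (t, 0, 0, 0) (Nat.log 2 n + k)).1 = t ∧
    ((B8_path (upperW_step n) x (t, 0, 0, 0) (Nat.log 2 n + k)).2.1 : ℕ) =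
      onesIn x 0 (Nat.log 2 n) ∧
    ((B8_path (upperW_step n) x (t, 0, 0, 0) (Nat.log 2 n + k)).2.2.1 : ℕ) =
      onesIn x (Nat.log 2 n) k ∧
    (B8_path (upperW_step n) x (t, 0, 0, 0) (Nat.log 2 n + k)).2.2.2 = 0 := by
  induction k with
  | zero =>
    obtain ⟨h1, h2, h3⟩ := upperW_first x t (Nat.log 2 n) le_rfl
    refine ⟨h1, h2, ?_, ?_⟩
    · have h5 := congrArg (fun s => ((s.1 : Fin (Nat.log 2 n + 1)) : ℕ)) h3
      simpa [onesIn] using h5
    · exact congrArg Prod.snd h3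
  | succ k ih =>
    obtain ⟨h1, h2, h3, h4⟩ := ih (by omega)
    have hk1 : ¬ (Nat.log 2 n + k < Nat.log 2 n) := by omega
    have hk2 : Nat.log 2 n + k < 2 * Nat.log 2 n := by omega
    have hle := upperW_le x (Nat.log 2 n) k
    have hb : (getBit x (Nat.log 2 n + k)).toNat ≤ 1 := Bool.toNat_le _
    rw [← Nat.add_assoc]
    simp only [B8_path, upperW_step, hk1, hk2, if_true, if_false]
    refine ⟨h1, h2, ?_, h4⟩
    unfold onesIn at h3 hle ⊢
    rw [Finset.sum_range_succ, h3]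
    omega

private theorem upperW_third {n : ℕ} (x : Inp n) (t : Fin n) (m : ℕ) :
    (B8_path (upperW_step n) x (t, 0, 0, 0) (2 * Nat.log 2 n + m)).1 = t ∧
    ((B8_path (upperW_step n) x (t, 0, 0, 0) (2 * Nat.log 2 n + m)).2.1 : ℕ) =
      onesIn x 0 (Nat.log 2 n) ∧
    ((B8_path (upperW_step n) x (t, 0, 0, 0) (2 * Nat.log 2 n + m)).2.2.1 : ℕ) =
      onesIn x (Nat.log 2 n) (Nat.log 2 n) ∧
    ((B8_path (upperW_step n) x (t, 0, 0, 0) (2 * Nat.log 2 n + m)).2.2.2 : ℕ) =
      (∑ c ∈ Finset.range m,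
        if c < 2 ^ onesIn x (Nat.log 2 n) (Nat.log 2 n) *
            upperW_N n (onesIn x (Nat.log 2 n) (Nat.log 2 n)) ∧
          c % upperW_N n (onesIn x (Nat.log 2 n) (Nat.log 2 n)) = (t : ℕ)
        then (getBit x (2 * Nat.log 2 n + c)).toNat else 0) %
        (onesIn x 0 (Nat.log 2 n) + 1) := by
  induction m with
  | zero =>
    obtain ⟨h1, h2, h3, h4⟩ := upperW_second x t (Nat.log 2 n) le_rfl
    have h2L : Nat.log 2 n + Nat.log 2 n = 2 * Nat.log 2 n + 0 := by ring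
    rw [h2L] at h1 h2 h3 h4
    refine ⟨h1, h2, h3, ?_⟩
    rw [h4]
    simp
  | succ m ih =>
    obtain ⟨h1, h2, h3, h4⟩ := ih
    have hm1 : ¬ (2 * Nat.log 2 n + m < Nat.log 2 n) := by omega
    have hm2 : ¬ (2 * Nat.log 2 n + m < 2 * Nat.log 2 n) := by omega
    rw [← Nat.add_assoc]
    simp only [B8_path, upperW_step, hm1, hm2, if_false, Nat.add_sub_cancel_left]
    refine ⟨h1, h2, h3, ?_⟩
    rw [Finset.sum_range_succ]
    simp only [h1, h3]
    split_ifs with h
    · simp only [h2, h4]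
      rw [Nat.mod_add_mod]
    · simp only [Nat.add_zero]
      exact h4

private theorem upperW_sum {l B N : ℕ} (hL : B * N ≤ l) (f : ℕ → ℕ) (t : ℕ) (ht : t < N) :
    ∑ c ∈ Finset.range l, (if c < B * N ∧ c % N = t then f c else 0) =
      ∑ j ∈ Finset.range B, f (j * N + t) := by
  rw [← Finset.sum_subset (Finset.range_mono hL) (fun c _ hc => if_neg fun h =>
    hc (Finset.mem_range.2 h.1)), B8_sum_mul]
  refine Finset.sum_congr rfl fun i hi => ?_
  rw [Finset.mem_range] at hi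
  rw [Finset.sum_eq_single t]
  · rw [if_pos]
    refine ⟨?_, ?_⟩
    · calc i * N + t < i * N + N := by omega
        _ = (i + 1) * N := by ring
        _ ≤ B * N := Nat.mul_le_mul_right N hi
    · rw [Nat.add_comm, Nat.add_mul_mod_self_right, Nat.mod_eq_of_lt ht]
  · intro j hj hne
    rw [Finset.mem_range] at hj
    rw [if_neg]
    rintro ⟨-, h⟩
    rw [Nat.add_comm, Nat.add_mul_mod_self_right, Nat.mod_eq_of_lt hj] at h
    exact hne h
  · intro h
    exact absurd (Finset.mem_range.2 ht) h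

private theorem upperW_two_log (n : ℕ) (hn : 1 ≤ n) : 2 * Nat.log 2 n ≤ n := by
  have h1 : 2 ^ Nat.log 2 n ≤ n := Nat.pow_log_le_self 2 (by omega)
  have h2 : ∀ L : ℕ, 2 * L ≤ 2 ^ L := by
    intro L
    induction L with
    | zero => simp
    | succ L ih =>
      rw [pow_succ]
      rcases Nat.eq_zero_or_pos L with h | h
      · subst h
        norm_num
      · omega
  exact (h2 _).trans h1

private theorem upperW_cube (L : ℕ) : (L + 1) ^ 3 ≤ 8 * 2 ^ L := by
  have h : ∀ k, 3 ≤ k → (k + 1) ^ 3 ≤ 8 * 2 ^ k := by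
    intro k hk
    induction k, hk using Nat.le_induction with
    | base => norm_num
    | succ k hk ih =>
      rw [pow_succ 2 k]
      have h1 : (k + 1 + 1) ^ 3 ≤ 2 * (k + 1) ^ 3 := by
        nlinarith [Nat.mul_le_mul hk hk, Nat.mul_le_mul (Nat.mul_le_mul hk hk) hk,
          Nat.mul_le_mul_left k (Nat.mul_le_mul hk hk)]
      omega
  rcases Nat.lt_or_ge L 3 with h3 | h3
  · interval_cases L <;> norm_num
  · exact h L h3

theorem upperW : ∀ n ≥ 1, ∃ w ≤ 8 * n ^ 2, NondetOnePass (langW n) w := by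
  intro n hn
  have hL := upperW_two_log n hn
  refine ⟨Fintype.card (upperW_S n), ?_, ?_⟩
  · simp only [Fintype.card_prod, Fintype.card_fin]
    have h1 : 2 ^ Nat.log 2 n ≤ n := Nat.pow_log_le_self 2 (by omega)
    have h2 := upperW_cube (Nat.log 2 n)
    calc n * ((Nat.log 2 n + 1) * ((Nat.log 2 n + 1) * (Nat.log 2 n + 1)))
        = n * (Nat.log 2 n + 1) ^ 3 := by ring
      _ ≤ n * (8 * n) := Nat.mul_le_mul_left n (h2.trans (Nat.mul_le_mul_left 8 h1))
      _ = 8 * n ^ 2 := by ring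
  · refine B8_nondet (langW n) (fun s => s.2 = (0, 0, 0)) (upperW_step n)
      (fun s => (s.1 : ℕ) < upperW_N n s.2.2.1 ∧ (s.2.2.2 : ℕ) = 0) fun x => ?_
    have hpath : ∀ t : Fin n,
        (((B8_path (upperW_step n) x (t, 0, 0, 0) n).1 : ℕ) <
          upperW_N n (B8_path (upperW_step n) x (t, 0, 0, 0) n).2.2.1 ∧
        ((B8_path (upperW_step n) x (t, 0, 0, 0) n).2.2.2 : ℕ) = 0) ↔
        ((t : ℕ) < (n - 2 * Nat.log 2 n) / 2 ^ onesIn x (Nat.log 2 n) (Nat.log 2 n) ∧
          onesIn x 0 (Nat.log 2 n) + 1 ∣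
            ∑ j ∈ Finset.range (2 ^ onesIn x (Nat.log 2 n) (Nat.log 2 n)),
              (getBit x (2 * Nat.log 2 n +
                j * ((n - 2 * Nat.log 2 n) / 2 ^ onesIn x (Nat.log 2 n) (Nat.log 2 n)) +
                  t)).toNat) := by
      intro t
      obtain ⟨h1, h2, h3, h4⟩ := upperW_third x t (n - 2 * Nat.log 2 n)
      rw [Nat.add_sub_cancel' hL] at h1 h2 h3 h4
      rw [h1, h3, h4]
      refine and_congr_right fun ht => ?_
      rw [upperW_sum (N := upperW_N n _) (Nat.mul_div_le _ _)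
        (fun c => (getBit x (2 * Nat.log 2 n + c)).toNat) t ht, Nat.dvd_iff_mod_eq_zero]
      simp only [Nat.add_assoc, upperW_N]
    simp only [langW, decide_eq_true_eq]
    constructor
    · rintro ⟨t, ht, hs⟩
      have htn : t < n := by
        have h1 : (n - 2 * Nat.log 2 n) / 2 ^ onesIn x (Nat.log 2 n) (Nat.log 2 n) ≤ n :=
          (Nat.div_le_self _ _).trans (Nat.sub_le _ _)
        omega
      exact ⟨(⟨t, htn⟩, 0, 0, 0), rfl, (hpath ⟨t, htn⟩).2 ⟨ht, hs⟩⟩
    · rintro ⟨⟨t, s⟩, hs, ha⟩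
      simp only at hs
      subst hs
      obtain ⟨ht, hs⟩ := (hpath t).1 ha
      exact ⟨t, ht, hs⟩

end Pool.Agent.SW
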