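import Mathlib
import Pool.Agent.Lib.MP_69a69c_lc_SH.OSim
import Pool.Agent.Lib.MP_69a69c_lc_SH.Dense
import Pool.Agent.Lib.MP_69a69c_lc_SW.LowerW
import Pool.Agent.Lib.MP_69a69c_lc_SW.NumW
import Pool.Agent.Lib.MP_69a69c_lc_SW.UpperW
import Pool.Agent.Lib.MP_69a69c_lc_SW.TightW

/-!
# No sparse set is complete for NP under Cook reductions by stack machines with many heads
-/

set_option autoImplicit false

namespace Pool.Agent.SW

open Pool.Agent.LT (Inp NondetOnePass)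
open Pool.Agent.HM (HeadDet HeadNondet)
open Pool.Agent.StackO (AtMostPerLength)
open Pool.Agent.SH (HeadDetO HeadNondetO HeadDetN headDet_of_O headNondet_of_O oracleOf
  detO_oracleOf)

/-- without oracle -/
theorem lowerW : ∃ C : ℕ, (∀ n k T S w : ℕ, 1 ≤ n → n ≤ T → 1 ≤ S → n ≤ 2 ^ S →
      w ≤ 2 ^ S → C ^ (k + 1) * T * S ≤ n ^ 2 →
      ¬ HeadNondet (fun x => !langW n x) k T w ∧ ¬ HeadDet (langW n) k T w) ∧
    ∀ n k p T S w : ℕ, 1 ≤ n → 1 ≤ k → 2 ≤ p → n ≤ T → 1 ≤ S → n ≤ 2 ^ S → w ≤ 2 ^ S →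
      C ^ (p ^ 2) * k ^ (2 * p - 1) * T ^ p * S ^ (p - 1) ≤ n ^ (2 * p - 1) →
      ¬ HeadNondet (fun x => !langW n x) k T w ∧ ¬ HeadDet (langW n) k T w := by
  obtain ⟨C1, h1⟩ := numFew
  obtain ⟨C2, h2⟩ := numMany
  refine ⟨C1 + C2 + 1, fun n k T S w hn hT hS hnS hw hC => ?_,
    fun n k p T S w hn hk hp hT hS hnS hw hC => ?_⟩
  · have hTS : T ≤ 2 ^ (2 * S) := by
      calc T = 1 * T * 1 := by ring
        _ ≤ (C1 + C2 + 1) ^ (k + 1) * T * S :=
            Nat.mul_le_mul (Nat.mul_le_mul_right _ (Nat.one_le_pow _ _ (by omega))) hS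
        _ ≤ n ^ 2 := hC
        _ ≤ (2 ^ S) ^ 2 := Nat.pow_le_pow_left hnS 2
        _ = 2 ^ (2 * S) := by rw [← pow_mul, mul_comm]
    obtain ⟨g, N, B, κ0, κ, m, a1, a2, a3, a4, a5, a6, a7, a8, a9, a10, a11⟩ :=
      h1 n k T S hn hT hS (le_trans (by gcongr; omega) hC)
    exact lowerPar (by omega) a1 a2 a3 a4 hS hnS hw hTS a5 a6 a7 a8 a9 a10 a11
  · have hTS : T ≤ 2 ^ (2 * S) := by
      by_contra hcon
      rw [not_le, two_mul, pow_add] at hcon
      have h3 : n ^ 2 < T := by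
        calc n ^ 2 = n * n := sq n
          _ ≤ 2 ^ S * 2 ^ S := Nat.mul_le_mul hnS hnS
          _ < T := hcon
      have h4 : T ^ p ≤ n ^ (2 * p - 1) := by
        calc T ^ p = 1 * 1 * T ^ p * 1 := by ring
          _ ≤ (C1 + C2 + 1) ^ (p ^ 2) * k ^ (2 * p - 1) * T ^ p * S ^ (p - 1) :=
              Nat.mul_le_mul (Nat.mul_le_mul_right _ (Nat.mul_le_mul
                (Nat.one_le_pow _ _ (by omega)) (Nat.one_le_pow _ _ hk))) (Nat.one_le_pow _ _ hS)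
          _ ≤ n ^ (2 * p - 1) := hC
      have h5 : n ^ (2 * p - 1) ≤ n ^ (2 * p) := Nat.pow_le_pow_right hn (by omega)
      have h6 : n ^ (2 * p) < T ^ p := by
        rw [pow_mul]
        exact Nat.pow_lt_pow_left h3 (by omega)
      omega
    obtain ⟨g, N, B, κ0, κ, m, a1, a2, a3, a4, a5, a6, a7, a8, a9, a10, a11⟩ :=
      h2 n k p T S hn hk hp hT hS (le_trans (by gcongr; omega) hC)
    exact lowerPar (by omega) a1 a2 a3 a4 hS hnS hw hTS a5 a6 a7 a8 a9 a10 a11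

theorem resultW : ∃ C : ℕ,
    (∀ n ≥ 1, ∃ w ≤ 8 * n ^ 2, NondetOnePass (langW n) w) ∧
    (∀ (A : Set (List Bool)) (n k T S w : ℕ), AtMostPerLength A (2 ^ S) →
      1 ≤ n → n ≤ T → 1 ≤ S → n ≤ 2 ^ S → w ≤ 2 ^ S →
      (C ^ (k + 1) * T * S ≤ n ^ 2 ∨ 1 ≤ k ∧ ∃ p ≥ 2,
        C ^ (p ^ 2) * k ^ (2 * p - 1) * T ^ p * S ^ (p - 1) ≤ n ^ (2 * p - 1)) →
      ¬ HeadDetO A (2 ^ S) (langW n) k T w ∧
        ¬ HeadNondetO A (2 ^ S) (fun x => !langW n x) k T w) ∧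
    (∀ n S : ℕ, 1 ≤ n → 1 ≤ S → n ≤ 2 ^ S → S ≤ n → ∃ T w : ℕ, n ≤ T ∧
      T * S ≤ C * n ^ 2 ∧ w ≤ 2 ^ (C * S) ∧ HeadDetN (langW n) 1 T w) ∧
    ∃ A : Set (List Bool), ∀ n ≥ 1, HeadDetO A n (langW n) 1 n 2 := by
  obtain ⟨C, h1, h2⟩ := lowerW
  obtain ⟨C3, h3⟩ := tightW
  refine ⟨7 * C + C3, upperW, fun A n k T S w hA hn hT hS hnS hw hC => ?_,
    fun n S hn hS hnS hSn => ?_, oracleOf langW, fun n hn => detO_oracleOf langW n hn⟩
  · have h4 : n ≤ 2 ^ (7 * S) := hnS.trans (Nat.pow_le_pow_right (by norm_num) (by omega))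
    have key : ∀ w', w' ≤ 2 ^ (7 * S) →
        ¬ HeadNondet (fun x => !langW n x) k T w' ∧ ¬ HeadDet (langW n) k T w' := by
      intro w' hw'
      rcases hC with hC | ⟨hk, p, hp, hC⟩
      · refine h1 n k T (7 * S) w' hn hT (by omega) h4 hw' ?_
        calc C ^ (k + 1) * T * (7 * S) = 7 ^ 1 * C ^ (k + 1) * T * S := by ring
          _ ≤ 7 ^ (k + 1) * C ^ (k + 1) * T * S := by
              gcongr
              · norm_num
              · omega
          _ = (7 * C) ^ (k + 1) * T * S := by rw [mul_pow]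
          _ ≤ (7 * C + C3) ^ (k + 1) * T * S := by
              gcongr
              omega
          _ ≤ n ^ 2 := hC
      · refine h2 n k p T (7 * S) w' hn hk hp hT (by omega) h4 hw' ?_
        calc C ^ (p ^ 2) * k ^ (2 * p - 1) * T ^ p * (7 * S) ^ (p - 1)
            = 7 ^ (p - 1) * C ^ (p ^ 2) * k ^ (2 * p - 1) * T ^ p * S ^ (p - 1) := by
              rw [mul_pow]
              ring
          _ ≤ 7 ^ (p ^ 2) * C ^ (p ^ 2) * k ^ (2 * p - 1) * T ^ p * S ^ (p - 1) := by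
              gcongr
              · norm_num
              · have : p ≤ p ^ 2 := Nat.le_self_pow (by norm_num) p
                omega
          _ = (7 * C) ^ (p ^ 2) * k ^ (2 * p - 1) * T ^ p * S ^ (p - 1) := by rw [mul_pow]
          _ ≤ (7 * C + C3) ^ (p ^ 2) * k ^ (2 * p - 1) * T ^ p * S ^ (p - 1) := by
              gcongr
              omega
          _ ≤ n ^ (2 * p - 1) := hC
    constructor
    · intro h6
      obtain ⟨w', h7, h8⟩ := headDet_of_O hA le_rfl hS hw h6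
      exact (key w' h7).2 h8
    · intro h6
      obtain ⟨w', h7, h8⟩ := headNondet_of_O hA le_rfl hS hw h6
      exact (key w' h7).1 h8
  · obtain ⟨T, w, h4, h5, h6, h7⟩ := h3 n S hn hS hnS hSn
    exact ⟨T, w, h4, h5.trans (Nat.mul_le_mul_right _ (by omega)),
      h6.trans (Nat.pow_le_pow_right (by norm_num) (Nat.mul_le_mul_right _ (by omega))), h7⟩

end Pool.Agent.SW
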